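import Pool.Agent.Helper53K9.WC.Defs

/-!
BASE: the base function.
-/

set_option autoImplicit false

open MeasureTheory Set Filter Topology

noncomputable section

namespace Pool.Agent.Helper53K9.WC

namespace Base

variable {p : Par}

/-- the terms of the first series -/
def F1 (p : Par) (j : ℕ) (z : ℂ) : ℂ := ((p.s j * 2 ^ j : ℝ) : ℂ) *
  (1 - Complex.I * z / 2 ^ j - Complex.exp (-(Complex.I * z / 2 ^ j)))

/-- the terms of the second series -/
def F2 (p : Par) (l : ℕ) (z : ℂ) : ℂ :=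
  (p.M l : ℂ) * (Complex.I * z / (((p.a l / 2 : ℝ) : ℂ) + Complex.I * z))

theorem Q_nonneg (hp : p.Good) (l : ℕ) : 0 ≤ p.Q l :=
  Finset.sum_nonneg fun i _ => mul_nonneg (Nat.cast_nonneg _) (hp.b_pos i).le

theorem M_pos (hp : p.Good) (l : ℕ) : 0 < p.M l := by
  rw [hp.C7]
  have h1 := Q_nonneg hp l
  have h2 := hp.e_nonneg (l + 1)
  linarith

theorem a_big (hp : p.Good) (l : ℕ) : 27 ≤ p.a l := by
  have h1 : (3 * (l + 3) ^ 2 : ℝ) ≤ p.D l := by exact_mod_cast hp.D_big l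
  have h2 := hp.C6' l
  have h3 : (0 : ℝ) ≤ l := Nat.cast_nonneg l
  nlinarith

theorem norm_w (j : ℕ) (z : ℂ) : ‖Complex.I * z / 2 ^ j‖ = ‖z‖ / 2 ^ j := by
  rw [norm_div, norm_mul, Complex.norm_I, one_mul, norm_pow, Complex.norm_ofNat]

theorem F1_bd (hp : p.Good) {R : ℝ} {z : ℂ} (hz : ‖z‖ ≤ R) (j : ℕ) :
    ‖F1 p j z‖ ≤ R ^ 2 * Real.exp R * (1 / 2) ^ j := by
  have hR : 0 ≤ R := (norm_nonneg z).trans hz
  set w : ℂ := -(Complex.I * z / 2 ^ j) with hw
  have h1 := Complex.norm_exp_sub_sum_le_norm_mul_exp w 2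
  have e1 : Complex.exp w - ∑ m ∈ Finset.range 2, w ^ m / (m.factorial : ℂ) =
      -(1 - Complex.I * z / 2 ^ j - Complex.exp w) := by
    rw [Finset.sum_range_succ, Finset.sum_range_one, hw]
    simp
    ring
  rw [e1, norm_neg] at h1
  have h2p : (1 : ℝ) ≤ 2 ^ j := one_le_pow₀ (by norm_num)
  have hwn : ‖w‖ = ‖z‖ / 2 ^ j := by rw [hw, norm_neg, norm_w]
  have hwR : ‖w‖ ≤ R / 2 ^ j := by
    rw [hwn]
    exact div_le_div_of_nonneg_right hz (by positivity)
  have hwR2 : ‖w‖ ≤ R := hwR.trans (div_le_self hR h2p)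
  have h3 : ‖w‖ ^ 2 * Real.exp ‖w‖ ≤ (R / 2 ^ j) ^ 2 * Real.exp R :=
    mul_le_mul (pow_le_pow_left₀ (norm_nonneg _) hwR 2) (Real.exp_le_exp.2 hwR2)
      (Real.exp_pos _).le (by positivity)
  unfold F1
  rw [norm_mul, Complex.norm_real, Real.norm_of_nonneg
    (mul_nonneg (hp.s_nonneg j) (by positivity))]
  calc p.s j * 2 ^ j * ‖1 - Complex.I * z / 2 ^ j - Complex.exp w‖
      ≤ 1 * 2 ^ j * ((R / 2 ^ j) ^ 2 * Real.exp R) :=
        mul_le_mul (mul_le_mul_of_nonneg_right (hp.s_le_one j) (by positivity)) (h1.trans h3)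
          (norm_nonneg _) (by positivity)
    _ = R ^ 2 * Real.exp R * (1 / 2) ^ j := by
        rw [one_div, inv_pow]
        field_simp

theorem re_pos_den (hp : p.Good) {z : ℂ} (hz : z.im < 1) (l : ℕ) :
    p.a l / 4 ≤ ((((p.a l / 2 : ℝ) : ℂ)) + Complex.I * z).re := by
  have h1 := a_big hp l
  have e1 : ((((p.a l / 2 : ℝ) : ℂ)) + Complex.I * z).re = p.a l / 2 - z.im := by
    simp
    ring
  rw [e1]
  linarith

theorem den_ne (hp : p.Good) {z : ℂ} (hz : z.im < 1) (l : ℕ) :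
    (((p.a l / 2 : ℝ) : ℂ)) + Complex.I * z ≠ 0 := by
  intro h0
  have h1 := re_pos_den hp hz l
  rw [h0, Complex.zero_re] at h1
  have := a_big hp l
  linarith

theorem F2_bd (hp : p.Good) {R : ℝ} {z : ℂ} (hzi : z.im < 1) (hz : ‖z‖ ≤ R) (l : ℕ) :
    ‖F2 p l z‖ ≤ 4 * R * (1 / 2) ^ (l + 3) := by
  have hR : 0 ≤ R := (norm_nonneg z).trans hz
  have ha := a_big hp l
  have h1 := re_pos_den hp hzi l
  have h2 : p.a l / 4 ≤ ‖((((p.a l / 2 : ℝ) : ℂ)) + Complex.I * z)‖ :=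
    h1.trans (Complex.re_le_norm _)
  unfold F2
  rw [norm_mul, norm_div, norm_mul, Complex.norm_I, one_mul, Complex.norm_real,
    Real.norm_of_nonneg (M_pos hp l).le]
  calc p.M l * (‖z‖ / ‖((((p.a l / 2 : ℝ) : ℂ)) + Complex.I * z)‖)
      ≤ (p.a l * (1 / 2) ^ (l + 3)) * (R / (p.a l / 4)) := by
        refine mul_le_mul (hp.C7' l) ?_ (by positivity) (by positivity)
        exact div_le_div₀ hR hz (by positivity) h2
    _ = 4 * R * (1 / 2) ^ (l + 3) := by
        have : p.a l ≠ 0 := by positivity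
        field_simp

theorem summ1 (R : ℝ) : Summable fun j : ℕ => R ^ 2 * Real.exp R * (1 / 2 : ℝ) ^ j :=
  (summable_geometric_of_lt_one (by norm_num) (by norm_num)).mul_left _

theorem summ2 (R : ℝ) : Summable fun l : ℕ => 4 * R * (1 / 2 : ℝ) ^ (l + 3) := by
  refine Summable.mul_left _ ?_
  exact (summable_nat_add_iff 3).2
    (summable_geometric_of_lt_one (by norm_num) (by norm_num : (1 / 2 : ℝ) < 1))

theorem F1_summable (hp : p.Good) (z : ℂ) : Summable fun j => F1 p j z :=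
  Summable.of_norm_bounded (summ1 ‖z‖) fun j => F1_bd hp le_rfl j

theorem F2_summable (hp : p.Good) {z : ℂ} (hz : z.im < 1) : Summable fun l => F2 p l z :=
  Summable.of_norm_bounded (summ2 ‖z‖) fun l => F2_bd hp hz le_rfl l

theorem open_half : IsOpen {z : ℂ | z.im < 1} := isOpen_lt Complex.continuous_im continuous_const

theorem gs_eq (z : ℂ) : p.gs z =
    Complex.exp (-(64 * Complex.I * z) + ∑' j, F1 p j z - ∑' l, F2 p l z) := rfl

theorem gs_diff (hp : p.Good) : DifferentiableOn ℂ p.gs {z | z.im < 1} := by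
  have h1 : DifferentiableOn ℂ (fun z => ∑' j, F1 p j z) {z | z.im < 1} := by
    intro z hz
    have hU : IsOpen (Metric.ball (0 : ℂ) (‖z‖ + 1)) := Metric.isOpen_ball
    have h2 := Complex.differentiableOn_tsum_of_summable_norm (F := fun j z => F1 p j z) (summ1 (‖z‖ + 1))
      (fun j => by
        unfold F1
        exact (Differentiable.differentiableOn (by fun_prop))) hU
      (fun j w hw => F1_bd hp (by
        rw [mem_ball_zero_iff] at hw
        exact hw.le) j)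
    exact (h2.differentiableAt (hU.mem_nhds (by
      rw [mem_ball_zero_iff]
      linarith))).differentiableWithinAt
  have h2 : DifferentiableOn ℂ (fun z => ∑' l, F2 p l z) {z | z.im < 1} := by
    intro z hz
    have hU : IsOpen (Metric.ball (0 : ℂ) (‖z‖ + 1) ∩ {z : ℂ | z.im < 1}) :=
      Metric.isOpen_ball.inter open_half
    have h2 := Complex.differentiableOn_tsum_of_summable_norm (F := fun l z => F2 p l z) (summ2 (‖z‖ + 1))
      (U := Metric.ball (0 : ℂ) (‖z‖ + 1) ∩ {z : ℂ | z.im < 1})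
      (fun l w hw => by
        unfold F2
        refine DifferentiableAt.differentiableWithinAt ?_
        refine DifferentiableAt.const_mul ?_ _
        exact DifferentiableAt.div (by fun_prop) (by fun_prop) (den_ne hp hw.2 l)) hU
      (fun l w hw => F2_bd hp hw.2 (by
        have := hw.1
        rw [mem_ball_zero_iff] at this
        exact this.le) l)
    exact (h2.differentiableAt (hU.mem_nhds ⟨by
      rw [mem_ball_zero_iff]
      linarith, hz⟩)).differentiableWithinAt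
  refine DifferentiableOn.cexp ?_
  exact ((Differentiable.differentiableOn (by fun_prop)).add h1).sub h2

theorem gs_zero : p.gs 0 = 1 := by
  rw [gs_eq]
  have h1 : ∀ j, F1 p j 0 = 0 := by
    intro j
    simp [F1]
  have h2 : ∀ l, F2 p l 0 = 0 := by
    intro l
    simp [F2]
  simp [h1, h2]

/-- the real part of the terms of the first series -/
theorem F1_re (p : Par) (j : ℕ) (u σ : ℝ) :
    (F1 p j ((u : ℂ) - (σ : ℂ) * Complex.I)).re = p.s j * 2 ^ j *
      (1 - σ / 2 ^ j - Real.exp (-(σ / 2 ^ j)) * Real.cos (u / 2 ^ j)) := by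
  have e1 : Complex.I * ((u : ℂ) - (σ : ℂ) * Complex.I) / 2 ^ j =
      ((σ / 2 ^ j : ℝ) : ℂ) + ((u / 2 ^ j : ℝ) : ℂ) * Complex.I := by
    push_cast
    have : Complex.I * ((u : ℂ) - (σ : ℂ) * Complex.I) = σ + u * Complex.I := by
      have hI : Complex.I * Complex.I = -1 := Complex.I_mul_I
      linear_combination (-(σ : ℂ)) * hI
    rw [this]
    ring
  have key : ∀ A B : ℝ, ((1 : ℂ) - ((A : ℂ) + (B : ℂ) * Complex.I) -
      Complex.exp (-((A : ℂ) + (B : ℂ) * Complex.I))).re =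
      1 - A - Real.exp (-A) * Real.cos B := by
    intro A B
    simp [Complex.exp_re]
  unfold F1
  rw [e1, Complex.re_ofReal_mul, key]

theorem F1_summ_re (hp : p.Good) (u σ : ℝ) : Summable fun j => p.s j * 2 ^ j *
    (1 - σ / 2 ^ j - Real.exp (-(σ / 2 ^ j)) * Real.cos (u / 2 ^ j)) := by
  have h1 := (Complex.hasSum_re (F1_summable hp ((u : ℂ) - (σ : ℂ) * Complex.I)).hasSum).summable
  refine h1.congr fun j => ?_
  exact F1_re p j u σ

theorem PP_summable (hp : p.Good) (u : ℝ) :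
    Summable fun j : ℕ => p.s j * 2 ^ j * (1 - Real.cos (u / 2 ^ j)) := by
  refine (F1_summ_re hp u 0).congr fun j => ?_
  simp

/-- the first series -/
theorem re1 (hp : p.Good) (l : ℕ) (u σ : ℝ) (hσ : 0 ≤ σ) :
    (∑' j, F1 p j ((u : ℂ) - (σ : ℂ) * Complex.I)).re ≤ p.PP u + (p.e l - (p.x l - 64) * σ) := by
  rw [Complex.re_tsum (F1_summable hp _)]
  have e0 : (fun j => (F1 p j ((u : ℂ) - (σ : ℂ) * Complex.I)).re) = fun j => p.s j * 2 ^ j *
      (1 - σ / 2 ^ j - Real.exp (-(σ / 2 ^ j)) * Real.cos (u / 2 ^ j)) := by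
    funext j
    exact F1_re p j u σ
  rw [e0]
  let t : ℕ → ℝ := fun j => if j ∈ Finset.range (p.k l) then 2 * (p.s j * 2 ^ j) - p.s j * σ else 0
  have ht : Summable t := by
    refine summable_of_ne_finset_zero (s := Finset.range (p.k l)) fun j hj => ?_
    exact if_neg hj
  have hts : ∑' j, t j = p.e l - (p.x l - 64) * σ := by
    rw [tsum_eq_sum (s := Finset.range (p.k l)) fun j hj => if_neg hj]
    have h1 : ∑ j ∈ Finset.range (p.k l), t j =
        ∑ j ∈ Finset.range (p.k l), (2 * (p.s j * 2 ^ j) - p.s j * σ) :=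
      Finset.sum_congr rfl fun j hj => if_pos hj
    rw [h1, Finset.sum_sub_distrib, ← Finset.mul_sum, ← Finset.sum_mul, hp.e_def, hp.x_def]
    ring
  unfold Par.PP
  rw [← hts, ← Summable.tsum_add (PP_summable hp u) ht]
  refine Summable.tsum_le_tsum (fun j => ?_) (F1_summ_re hp u σ) ((PP_summable hp u).add ht)
  have h2 : (0 : ℝ) < 2 ^ j := by positivity
  have hy : 0 ≤ σ / 2 ^ j := by positivity
  have hc1 := Real.cos_le_one (u / 2 ^ j)
  have hc2 := Real.neg_one_le_cos (u / 2 ^ j)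
  have he0 := Real.exp_pos (-(σ / 2 ^ j))
  have he1 : Real.exp (-(σ / 2 ^ j)) ≤ 1 := Real.exp_le_one_iff.2 (by linarith)
  have he2 : 1 - σ / 2 ^ j ≤ Real.exp (-(σ / 2 ^ j)) := by
    have := Real.add_one_le_exp (-(σ / 2 ^ j))
    linarith
  have hs : 0 ≤ p.s j * 2 ^ j := mul_nonneg (hp.s_nonneg j) h2.le
  by_cases hj : j ∈ Finset.range (p.k l)
  · have h3 : t j = 2 * (p.s j * 2 ^ j) - p.s j * σ := if_pos hj
    rw [h3]
    have e1 : p.s j * σ = p.s j * 2 ^ j * (σ / 2 ^ j) := by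
      field_simp
    rw [e1]
    have h4 : (1 - Real.exp (-(σ / 2 ^ j))) * Real.cos (u / 2 ^ j) ≤ 1 := by nlinarith
    have h5 : 1 - σ / 2 ^ j - Real.exp (-(σ / 2 ^ j)) * Real.cos (u / 2 ^ j) ≤
        (1 - Real.cos (u / 2 ^ j)) + 2 - σ / 2 ^ j := by nlinarith
    have h6 := mul_le_mul_of_nonneg_left h5 hs
    linarith
  · have h3 : t j = 0 := if_neg hj
    rw [h3, add_zero]
    refine mul_le_mul_of_nonneg_left ?_ hs
    nlinarith [mul_le_mul_of_nonneg_left hc1 (by linarith : (0:ℝ) ≤ 1 - Real.exp (-(σ / 2 ^ j)))]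

/-- the real part of the terms of the second series -/
theorem F2_re (hp : p.Good) (l : ℕ) (u σ : ℝ) (hσ : 0 ≤ σ) :
    (1 / 2) * (p.M l * (u ^ 2 / ((p.a l / 2) ^ 2 + u ^ 2))) ≤
      (F2 p l ((u : ℂ) - (σ : ℂ) * Complex.I)).re := by
  have ha := a_big hp l
  set α : ℝ := p.a l / 2 with hα
  have hα0 : 0 < α := by
    rw [hα]
    linarith
  have e1 : Complex.I * ((u : ℂ) - (σ : ℂ) * Complex.I) = (σ : ℂ) + (u : ℂ) * Complex.I := by
    have hI : Complex.I * Complex.I = -1 := Complex.I_mul_I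
    linear_combination (-(σ : ℂ)) * hI
  have e2 : (((σ : ℂ) + (u : ℂ) * Complex.I) / ((α : ℂ) + ((σ : ℂ) + (u : ℂ) * Complex.I))).re =
      (σ * α + σ ^ 2 + u ^ 2) / ((α + σ) ^ 2 + u ^ 2) := by
    rw [Complex.div_re]
    have h1 : Complex.normSq ((α : ℂ) + ((σ : ℂ) + (u : ℂ) * Complex.I)) = (α + σ) ^ 2 + u ^ 2 := by
      rw [Complex.normSq_apply]
      simp
      ring
    rw [h1, ← add_div]
    congr 1
    simp
    ring
  unfold F2
  rw [e1, Complex.re_ofReal_mul, e2]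
  have h1 : (1 / 2) * (u ^ 2 / (α ^ 2 + u ^ 2)) ≤
      (σ * α + σ ^ 2 + u ^ 2) / ((α + σ) ^ 2 + u ^ 2) := by
    have d1 : 0 < α ^ 2 + u ^ 2 := by positivity
    have d2 : 0 < (α + σ) ^ 2 + u ^ 2 := by positivity
    rw [← mul_div_assoc, div_le_div_iff₀ d1 d2]
    have p1 : 0 ≤ σ * α * α ^ 2 := by positivity
    have p2 : 0 ≤ σ ^ 2 * α ^ 2 := by positivity
    have p3 : 0 ≤ α ^ 2 * u ^ 2 := by positivity
    have p4 : 0 ≤ σ ^ 2 * u ^ 2 := by positivity
    have p5 : 0 ≤ u ^ 2 * u ^ 2 := by positivity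
    nlinarith
  calc (1 / 2) * (p.M l * (u ^ 2 / (α ^ 2 + u ^ 2)))
      = p.M l * ((1 / 2) * (u ^ 2 / (α ^ 2 + u ^ 2))) := by ring
    _ ≤ _ := mul_le_mul_of_nonneg_left h1 (M_pos hp l).le

theorem dip_term_le (hp : p.Good) (u : ℝ) (l : ℕ) :
    p.M l * (u ^ 2 / ((p.a l / 2) ^ 2 + u ^ 2)) ≤ u ^ 2 * (1 / 2) ^ (l + 3) := by
  have ha := a_big hp l
  have hM := hp.C7' l
  have hM0 := M_pos hp l
  have h1 : u ^ 2 / ((p.a l / 2) ^ 2 + u ^ 2) ≤ u ^ 2 / p.a l := by
    refine div_le_div_of_nonneg_left (sq_nonneg u) (by linarith) ?_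
    nlinarith [sq_nonneg u]
  calc p.M l * (u ^ 2 / ((p.a l / 2) ^ 2 + u ^ 2))
      ≤ (p.a l * (1 / 2) ^ (l + 3)) * (u ^ 2 / p.a l) :=
        mul_le_mul hM h1 (by positivity) (by positivity)
    _ = u ^ 2 * (1 / 2) ^ (l + 3) := by
        have : p.a l ≠ 0 := by positivity
        field_simp

theorem dip_nonneg_term (hp : p.Good) (u : ℝ) (l : ℕ) :
    0 ≤ p.M l * (u ^ 2 / ((p.a l / 2) ^ 2 + u ^ 2)) :=
  mul_nonneg (M_pos hp l).le (by positivity)

theorem dip_summable (hp : p.Good) (u : ℝ) :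
    Summable fun l : ℕ => p.M l * (u ^ 2 / ((p.a l / 2) ^ 2 + u ^ 2)) := by
  refine Summable.of_nonneg_of_le (dip_nonneg_term hp u) (dip_term_le hp u) ?_
  refine Summable.mul_left _ ?_
  exact (summable_nat_add_iff 3).2
    (summable_geometric_of_lt_one (by norm_num) (by norm_num : (1 / 2 : ℝ) < 1))

theorem re2 (hp : p.Good) (u σ : ℝ) (hσ : 0 ≤ σ) :
    p.dip u ≤ (∑' l, F2 p l ((u : ℂ) - (σ : ℂ) * Complex.I)).re := by
  have hz : ((u : ℂ) - (σ : ℂ) * Complex.I).im < 1 := by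
    simp
    linarith
  rw [Complex.re_tsum (F2_summable hp hz)]
  unfold Par.dip
  rw [← tsum_mul_left]
  exact Summable.tsum_le_tsum (fun l => F2_re hp l u σ hσ) ((dip_summable hp u).mul_left _)
    (Complex.hasSum_re (F2_summable hp hz).hasSum).summable

end Base

open Base

theorem base : S_BASE := by
  intro p hp
  refine ⟨gs_diff hp, gs_zero, fun l u σ hσ => ?_, fun u => ?_, fun u l hu => ?_⟩
  · rw [gs_eq, Complex.norm_exp]
    refine Real.exp_le_exp.2 ?_
    rw [Complex.sub_re, Complex.add_re]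
    have h1 := re1 hp l u σ hσ
    have h2 := re2 hp u σ hσ
    have h3 : (-(64 * Complex.I * ((u : ℂ) - (σ : ℂ) * Complex.I))).re = -64 * σ := by
      simp
    rw [h3]
    unfold Par.Pd
    linarith
  · exact mul_nonneg (by norm_num) (tsum_nonneg fun l => dip_nonneg_term hp u l)
  · have h1 : p.M l * (u ^ 2 / ((p.a l / 2) ^ 2 + u ^ 2)) ≤
        ∑' l : ℕ, p.M l * (u ^ 2 / ((p.a l / 2) ^ 2 + u ^ 2)) :=
      (dip_summable hp u).le_tsum l fun j _ => dip_nonneg_term hp u j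
    have ha := a_big hp l
    have h2 : (1 : ℝ) / 2 ≤ u ^ 2 / ((p.a l / 2) ^ 2 + u ^ 2) := by
      have h3 : (p.a l / 2) ^ 2 ≤ u ^ 2 := by
        rw [← sq_abs u]
        exact pow_le_pow_left₀ (by linarith) hu 2
      have h4 : 0 < (p.a l / 2) ^ 2 + u ^ 2 := by
        have : 0 < (p.a l / 2) ^ 2 := by positivity
        positivity
      rw [div_le_div_iff₀ (by norm_num) h4]
      linarith
    have h5 := mul_le_mul_of_nonneg_left h2 (M_pos hp l).le
    unfold Par.dip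
    linarith

end Pool.Agent.Helper53K9.WC

end
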