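import Pool.Agent.Helper53K9.WC.Defs

/-! Leaf COEF (helper80) of the relay of helper53, MP_27fa52_an. -/

open MeasureTheory Set Filter Topology

noncomputable section

namespace Pool.Agent.Helper53K9.WC

namespace CoefL

lemma ep_pos (i : ℕ) : 0 < ep i := by unfold ep; positivity

lemma dl_pos (i : ℕ) : 0 < dl i := by unfold dl; positivity

lemma be_pos (D : ℕ → ℕ) (l : ℕ) : 0 < be D l := by
  unfold be
  have : 0 < ∏ i ∈ Finset.range l, (2 * ((D i : ℝ) + 1)) :=
    Finset.prod_pos fun i _ => by positivity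
  positivity

lemma rho_pos (p : Par) (l : ℕ) : 0 < p.rho l := by
  unfold Par.rho
  have h1 := be_pos p.D l
  have h2 := ep_pos l
  have h3 := dl_pos l
  positivity

/-- the factor of the index `i` -/
def fac (p : Par) (X : ℝ) (i : ℕ) (k : ℤ) : ℝ :=
  (((2:ℝ) ^ i) ^ k.toNat * (be p.D i) ^ (-k).toNat) * (ep i) ^ (-k) *
    ((dl i + 1 / X) ^ k.toNat * (2 / dl i) ^ (-k).toNat) *
    Real.exp (-((1 / 2) * (p.b i * ((-k).toNat : ℝ))))

lemma fac_zero (p : Par) (X : ℝ) (i : ℕ) : fac p X i 0 = 1 := by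
  simp [fac]

/-- positive exponents: the factor is at most `(1/16)^k` -/
lemma fac_pos (p : Par) (X : ℝ) (i : ℕ) (k : ℤ) (hk : 0 < k) (hX : (2:ℝ) ^ (2 * i + 6) ≤ X) :
    fac p X i k ≤ (1 / 16) ^ k.natAbs := by
  obtain ⟨m, rfl⟩ : ∃ m : ℕ, k = (m : ℤ) := ⟨k.toNat, by omega⟩
  have h1 : (-(m:ℤ)).toNat = 0 := by omega
  have h2 : ((m:ℤ)).toNat = m := by omega
  have h3 : ((m:ℤ)).natAbs = m := by omega
  unfold fac
  rw [h1, h2, h3]
  simp only [pow_zero, mul_one, Nat.cast_zero, mul_zero, neg_zero, Real.exp_zero, zpow_neg,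
    zpow_natCast]
  rw [← inv_pow, ← mul_pow, ← mul_pow]
  have hX0 : (0:ℝ) < 2 ^ (2 * i + 6) := by positivity
  have h4 : 1 / X ≤ dl i := by
    unfold dl
    rw [one_div_pow]
    exact one_div_le_one_div_of_le hX0 hX
  have h5 := dl_pos i
  have h6 : 0 ≤ 1 / X := by
    have : 0 < X := lt_of_lt_of_le hX0 hX
    positivity
  apply pow_le_pow_left₀
  · have := ep_pos i
    positivity
  · calc (2:ℝ) ^ i * (ep i)⁻¹ * (dl i + 1 / X)
        ≤ (2:ℝ) ^ i * (ep i)⁻¹ * (dl i + dl i) := by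
          have h7 : 0 ≤ (2:ℝ) ^ i * (ep i)⁻¹ := by
            have := ep_pos i
            positivity
          exact mul_le_mul_of_nonneg_left (by linarith) h7
      _ = 1 / 16 := by
          unfold ep dl
          rw [one_div_pow, one_div_pow, one_div, inv_inv]
          have e1 : (2:ℝ) ^ (2 * i + 6) = 2 ^ i * 2 ^ (i + 1) * 32 := by ring
          rw [e1]
          have : (0:ℝ) < 2 ^ i * 2 ^ (i + 1) := by positivity
          field_simp
          ring

/-- negative exponents: the factor is `rho ^ |k|` -/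
lemma fac_neg (p : Par) (X : ℝ) (i : ℕ) (k : ℤ) (hk : k < 0) :
    fac p X i k = (p.rho i) ^ k.natAbs := by
  obtain ⟨m, rfl⟩ : ∃ m : ℕ, k = -(m : ℤ) := ⟨(-k).toNat, by omega⟩
  have h1 : (-(m:ℤ)).toNat = 0 := by omega
  have h2 : (-(-(m:ℤ))).toNat = m := by omega
  have h3 : (-(m:ℤ)).natAbs = m := by omega
  unfold fac Par.rho
  rw [h1, h2, h3]
  simp only [pow_zero, one_mul, neg_neg, zpow_natCast]
  have h4 : Real.exp (-((1 / 2) * (p.b i * (m : ℝ)))) = (Real.exp (-(p.b i) / 2)) ^ m := by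
    rw [← Real.exp_nat_mul]
    congr 1
    ring
  rw [h4, mul_pow, mul_pow, mul_pow]

lemma fac_nonneg (p : Par) (X : ℝ) (hX : 0 < X) (i : ℕ) (k : ℤ) : 0 ≤ fac p X i k := by
  unfold fac
  have h1 := be_pos p.D i
  have h2 := ep_pos i
  have h3 := dl_pos i
  positivity

end CoefL

open CoefL

theorem coef : S_COEF := by
  intro p hp u h1 h2 d hd
  obtain ⟨t, ht, htop⟩ : ∃ l, d l ≠ 0 ∧ ∀ i, l < i → d i = 0 := by
    have hs : d.support.Nonempty := Finsupp.support_nonempty_iff.mpr hd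
    refine ⟨d.support.max' hs, ?_, ?_⟩
    · exact Finsupp.mem_support_iff.mp (Finset.max'_mem _ hs)
    · intro i hi
      by_contra hne
      exact absurd (Finset.le_max' _ i (Finsupp.mem_support_iff.mpr hne)) (not_le.mpr hi)
  have hsub : d.support ⊆ Finset.range (t + 1) := by
    intro i hi
    rw [Finset.mem_range]
    by_contra hlt
    exact Finsupp.mem_support_iff.mp hi (htop i (by omega))
  have hle : ∀ i, d i ≠ 0 → i ≤ t := by
    intro i hi
    by_contra hlt
    exact hi (htop i (by omega))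
  -- the left side is at most `exp (e_l) * ∏ fac`
  have hL : ∀ l, (|u d| * d.prod (fun i k => (ep i) ^ (-k)) *
      (Real.exp (p.e l) *
        d.prod (fun i k => (dl i + 1 / p.x l) ^ k.toNat * (2 / dl i) ^ (-k).toNat)) *
      Real.exp (-((1 / 2) * d.sum (fun i k => p.b i * ((-k).toNat : ℝ))))) ≤
      Real.exp (p.e l) * ∏ i ∈ Finset.range (t + 1), fac p (p.x l) i (d i) := by
    intro l
    have hx : 0 < p.x l := lt_of_lt_of_le (by positivity) (hp.x_big l)
    have e0 : d.prod (fun i k => ((2:ℝ) ^ i) ^ k.toNat * (be p.D i) ^ (-k).toNat) =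
        ∏ i ∈ Finset.range (t + 1), (((2:ℝ) ^ i) ^ (d i).toNat * (be p.D i) ^ (-(d i)).toNat) :=
      Finsupp.prod_of_support_subset _ hsub _ (by simp)
    have e1 : d.prod (fun i k => (ep i) ^ (-k)) =
        ∏ i ∈ Finset.range (t + 1), (ep i) ^ (-(d i)) :=
      Finsupp.prod_of_support_subset _ hsub _ (by simp)
    have e2 : d.prod (fun i k => (dl i + 1 / p.x l) ^ k.toNat * (2 / dl i) ^ (-k).toNat) =
        ∏ i ∈ Finset.range (t + 1), ((dl i + 1 / p.x l) ^ (d i).toNat *
          (2 / dl i) ^ (-(d i)).toNat) :=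
      Finsupp.prod_of_support_subset _ hsub _ (by simp)
    have e3 : d.sum (fun i k => p.b i * ((-k).toNat : ℝ)) =
        ∑ i ∈ Finset.range (t + 1), p.b i * ((-(d i)).toNat : ℝ) :=
      Finsupp.sum_of_support_subset _ hsub _ (by simp)
    have h3 := h1 d
    rw [e0] at h3
    rw [e1, e2, e3]
    have e4 : Real.exp (-((1 / 2) * ∑ i ∈ Finset.range (t + 1), p.b i * ((-(d i)).toNat : ℝ))) =
        ∏ i ∈ Finset.range (t + 1), Real.exp (-((1 / 2) * (p.b i * ((-(d i)).toNat : ℝ)))) := by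
      rw [← Real.exp_sum, Finset.mul_sum, Finset.sum_neg_distrib]
    rw [e4]
    have e5 : ∏ i ∈ Finset.range (t + 1), fac p (p.x l) i (d i) =
        (∏ i ∈ Finset.range (t + 1), (((2:ℝ) ^ i) ^ (d i).toNat * (be p.D i) ^ (-(d i)).toNat)) *
        (∏ i ∈ Finset.range (t + 1), (ep i) ^ (-(d i))) *
        (∏ i ∈ Finset.range (t + 1), ((dl i + 1 / p.x l) ^ (d i).toNat *
          (2 / dl i) ^ (-(d i)).toNat)) *
        (∏ i ∈ Finset.range (t + 1), Real.exp (-((1 / 2) * (p.b i * ((-(d i)).toNat : ℝ))))) := by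
      rw [← Finset.prod_mul_distrib, ← Finset.prod_mul_distrib, ← Finset.prod_mul_distrib]
      rfl
    rw [e5]
    set A := ∏ i ∈ Finset.range (t + 1), (ep i) ^ (-(d i)) with hA
    set B := ∏ i ∈ Finset.range (t + 1), ((dl i + 1 / p.x l) ^ (d i).toNat *
          (2 / dl i) ^ (-(d i)).toNat) with hB
    set C := ∏ i ∈ Finset.range (t + 1),
      Real.exp (-((1 / 2) * (p.b i * ((-(d i)).toNat : ℝ)))) with hC
    have hA0 : 0 ≤ A := Finset.prod_nonneg fun i _ => by have := ep_pos i; positivity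
    have hB0 : 0 ≤ B := Finset.prod_nonneg fun i _ => by have := dl_pos i; positivity
    have hC0 : 0 ≤ C := Finset.prod_nonneg fun i _ => (Real.exp_pos _).le
    have hE0 := (Real.exp_pos (p.e l)).le
    calc |u d| * A * (Real.exp (p.e l) * B) * C
        = |u d| * (A * (Real.exp (p.e l) * B) * C) := by ring
      _ ≤ _ * (A * (Real.exp (p.e l) * B) * C) :=
          mul_le_mul_of_nonneg_right h3 (by positivity)
      _ = _ := by ring
  -- the lower bound for `cc d`
  have hcc : ((∏ i ∈ Finset.range (t + 1), (1 / 8 : ℝ) ^ (i + 1)) *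
      ∏ i ∈ Finset.range (t + 1), (1 / 2 : ℝ) ^ (d i).natAbs) ≤ cc d := by
    unfold cc Finsupp.prod
    rw [Finset.prod_mul_distrib]
    have e1 : ∏ i ∈ d.support, (1 / 2 : ℝ) ^ (d i).natAbs =
        ∏ i ∈ Finset.range (t + 1), (1 / 2 : ℝ) ^ (d i).natAbs := by
      refine Finset.prod_subset hsub fun i _ hi => ?_
      rw [Finsupp.notMem_support_iff.mp hi]
      simp
    rw [e1]
    refine mul_le_mul_of_nonneg_right ?_ (Finset.prod_nonneg fun i _ => by positivity)
    rw [← Finset.prod_sdiff hsub]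
    have h3 : ∏ i ∈ Finset.range (t + 1) \ d.support, (1 / 8 : ℝ) ^ (i + 1) ≤ 1 :=
      Finset.prod_le_one (fun i _ => by positivity)
        (fun i _ => pow_le_one₀ (by norm_num) (by norm_num))
    have h4 : 0 ≤ ∏ i ∈ d.support, (1 / 8 : ℝ) ^ (i + 1) :=
      Finset.prod_nonneg fun i _ => by positivity
    calc _ ≤ 1 * ∏ i ∈ d.support, (1 / 8 : ℝ) ^ (i + 1) := mul_le_mul_of_nonneg_right h3 h4
      _ = _ := one_mul _
  have hP8 : ∀ s : ℕ, (1 / 8 : ℝ) ^ ((s + 1) ^ 2) ≤ ∏ i ∈ Finset.range s, (1 / 8 : ℝ) ^ (i + 1) := by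
    intro s
    rw [Finset.prod_pow_eq_pow_sum]
    apply pow_le_pow_of_le_one (by norm_num) (by norm_num)
    induction s with
    | zero => simp
    | succ s ih => rw [Finset.sum_range_succ]; nlinarith
  have hP8' := hP8 (t + 1)
  have hrho : ∀ i, Real.exp (p.e (i + 1)) * p.rho i ≤ (1 / 2) * (1 / 8) ^ ((i + 2) ^ 2) := hp.C8
  have hrho2 : ∀ i, p.rho i ≤ (1 / 2) * (1 / 8) ^ ((i + 2) ^ 2) := by
    intro i
    have h3 : (1:ℝ) ≤ Real.exp (p.e (i + 1)) := Real.one_le_exp (hp.e_nonneg _)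
    have h4 := rho_pos p i
    have h5 := hrho i
    nlinarith
  have hrho3 : ∀ i, p.rho i ≤ 1 / 2 := by
    intro i
    have h3 : (1 / 8 : ℝ) ^ ((i + 2) ^ 2) ≤ 1 := pow_le_one₀ (by norm_num) (by norm_num)
    have h4 := hrho2 i
    nlinarith
  have hxb : ∀ i l, i ≤ l → (2:ℝ) ^ (2 * i + 6) ≤ p.x l := by
    intro i l hil
    exact (pow_le_pow_right₀ (by norm_num) (by omega)).trans (hp.x_big l)
  have hdlx : ∀ i l, i ≤ l → 1 / dl i ≤ p.x l := by
    intro i l hil
    have h3 := hxb i l hil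
    unfold dl
    rw [one_div_pow, one_div_one_div]
    exact h3
  have hxpos : ∀ l, 0 < p.x l := fun l => lt_of_lt_of_le (by positivity) (hp.x_big l)
  rcases lt_or_gt_of_ne ht with hneg | hpos
  · -- `d t < 0`, `l = t + 1`
    refine ⟨t + 1, fun i hi => hdlx i (t + 1) (by have := hle i hi.ne; omega), ?_⟩
    refine (hL (t + 1)).trans (le_trans ?_ hcc)
    rw [Finset.prod_range_succ (fun i => fac p (p.x (t + 1)) i (d i))]
    have h3 : ∏ i ∈ Finset.range t, fac p (p.x (t + 1)) i (d i) ≤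
        ∏ i ∈ Finset.range t, (1 / 2 : ℝ) ^ (d i).natAbs := by
      refine Finset.prod_le_prod (fun i _ => fac_nonneg p _ (hxpos _) i _) fun i hi => ?_
      have hit : i < t := Finset.mem_range.mp hi
      rcases lt_trichotomy (d i) 0 with h | h | h
      · rw [fac_neg p _ i _ h]
        exact pow_le_pow_left₀ (rho_pos p i).le (hrho3 i) _
      · rw [h, fac_zero]; simp
      · refine (fac_pos p _ i _ h (hxb i (t + 1) (by omega))).trans ?_
        exact pow_le_pow_left₀ (by norm_num) (by norm_num) _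
    have h4 : Real.exp (p.e (t + 1)) * fac p (p.x (t + 1)) t (d t) ≤
        (1 / 8) ^ ((t + 2) ^ 2) * (1 / 2) ^ (d t).natAbs := by
      rw [fac_neg p _ t _ hneg]
      obtain ⟨m, hm⟩ : ∃ m, (d t).natAbs = m + 1 := ⟨(d t).natAbs - 1, by omega⟩
      rw [hm, pow_succ, pow_succ]
      have h5 : p.rho t ^ m ≤ (1 / 2) ^ m := pow_le_pow_left₀ (rho_pos p t).le (hrho3 t) _
      have h6 := hrho t
      calc Real.exp (p.e (t + 1)) * (p.rho t ^ m * p.rho t)
          = (p.rho t ^ m) * (Real.exp (p.e (t + 1)) * p.rho t) := by ring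
        _ ≤ (1 / 2) ^ m * ((1 / 2) * (1 / 8) ^ ((t + 2) ^ 2)) :=
            mul_le_mul h5 h6 (mul_nonneg (Real.exp_pos _).le (rho_pos p t).le) (by positivity)
        _ = _ := by ring
    calc Real.exp (p.e (t + 1)) * ((∏ i ∈ Finset.range t, fac p (p.x (t + 1)) i (d i)) *
          fac p (p.x (t + 1)) t (d t))
        = (∏ i ∈ Finset.range t, fac p (p.x (t + 1)) i (d i)) *
          (Real.exp (p.e (t + 1)) * fac p (p.x (t + 1)) t (d t)) := by ring
      _ ≤ (∏ i ∈ Finset.range t, (1 / 2 : ℝ) ^ (d i).natAbs) *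
          ((1 / 8) ^ ((t + 2) ^ 2) * (1 / 2) ^ (d t).natAbs) :=
          mul_le_mul h3 h4 (mul_nonneg (Real.exp_pos _).le (fac_nonneg p _ (hxpos _) t _))
            (Finset.prod_nonneg fun i _ => by positivity)
      _ = (1 / 8) ^ ((t + 2) ^ 2) * ∏ i ∈ Finset.range (t + 1), (1 / 2 : ℝ) ^ (d i).natAbs := by
          rw [Finset.prod_range_succ (fun i => (1 / 2 : ℝ) ^ (d i).natAbs)]; ring
      _ ≤ _ := mul_le_mul_of_nonneg_right hP8' (Finset.prod_nonneg fun i _ => by positivity)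
  · -- `d t > 0`, `l = t`
    refine ⟨t, fun i hi => hdlx i t (hle i hi.ne), ?_⟩
    by_cases hu0 : u d = 0
    · rw [hu0, abs_zero, zero_mul, zero_mul, zero_mul]
      unfold cc Finsupp.prod
      exact Finset.prod_nonneg fun i _ => by positivity
    refine (hL t).trans (le_trans ?_ hcc)
    -- `fac i ≤ (1/2)^|d i| * (1/8)^(d i)^+`
    have hf : ∀ i ∈ Finset.range (t + 1), fac p (p.x t) i (d i) ≤
        (1 / 2 : ℝ) ^ (d i).natAbs * (1 / 8) ^ (d i).toNat := by
      intro i hi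
      have hit : i < t + 1 := Finset.mem_range.mp hi
      rcases lt_trichotomy (d i) 0 with h | h | h
      · rw [fac_neg p _ i _ h]
        have h3 : (d i).toNat = 0 := by omega
        rw [h3, pow_zero, mul_one]
        exact pow_le_pow_left₀ (rho_pos p i).le (hrho3 i) _
      · rw [h, fac_zero]; simp
      · refine (fac_pos p _ i _ h (hxb i t (by omega))).trans ?_
        have h3 : (d i).natAbs = (d i).toNat := by omega
        rw [h3, ← mul_pow]
        norm_num
    have h3 : ∏ i ∈ Finset.range (t + 1), fac p (p.x t) i (d i) ≤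
        (∏ i ∈ Finset.range (t + 1), (1 / 2 : ℝ) ^ (d i).natAbs) *
          (1 / 8) ^ (∑ i ∈ Finset.range (t + 1), (d i).toNat) := by
      refine (Finset.prod_le_prod (fun i _ => fac_nonneg p _ (hxpos _) i _) hf).trans ?_
      rw [Finset.prod_mul_distrib,
        Finset.prod_pow_eq_pow_sum (Finset.range (t + 1)) (fun i => (d i).toNat) (1 / 8 : ℝ)]
    have hE : Real.exp (p.e t) * (1 / 8) ^ (∑ i ∈ Finset.range (t + 1), (d i).toNat) ≤
        ∏ i ∈ Finset.range (t + 1), (1 / 8 : ℝ) ^ (i + 1) := by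
      cases t with
      | zero =>
        simp only [zero_add, Finset.range_one, Finset.sum_singleton, Finset.prod_singleton,
          pow_one, hp.e_zero, Real.exp_zero, one_mul]
        calc (1 / 8 : ℝ) ^ (d 0).toNat ≤ (1 / 8) ^ 1 :=
              pow_le_pow_of_le_one (by norm_num) (by norm_num) (by omega)
          _ = 1 / 8 := pow_one _
      | succ i =>
        have h4 := h2 d i hpos htop hu0
        have h5 : p.D i + 1 ≤ ∑ j ∈ Finset.range (i + 1 + 1), (d j).toNat := by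
          rw [Finset.sum_range_succ, Finset.sum_range_succ]
          have h6 : 0 ≤ ∑ j ∈ Finset.range i, (d j).toNat := Nat.zero_le _
          omega
        refine le_trans ?_ hP8'
        have hDb := hp.D_big i
        have hC6 := hp.C6 i
        have h7 : Real.exp (p.e (i + 1)) ≤ (3:ℝ) ^ (p.D i) := by
          calc Real.exp (p.e (i + 1)) ≤ Real.exp (p.D i) := Real.exp_le_exp.mpr hC6
            _ = Real.exp 1 ^ (p.D i) := by rw [← Real.exp_nat_mul, mul_one]
            _ ≤ 3 ^ (p.D i) := pow_le_pow_left₀ (Real.exp_pos _).le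
                (by linarith [Real.exp_one_lt_d9]) _
        calc Real.exp (p.e (i + 1)) * (1 / 8) ^ (∑ j ∈ Finset.range (i + 1 + 1), (d j).toNat)
            ≤ 3 ^ (p.D i) * (1 / 8) ^ (p.D i) := by
              refine mul_le_mul h7 ?_ (by positivity) (by positivity)
              exact pow_le_pow_of_le_one (by norm_num) (by norm_num) (by omega)
          _ = (3 / 8 : ℝ) ^ (p.D i) := by rw [← mul_pow]; norm_num
          _ ≤ (3 / 8 : ℝ) ^ (3 * (i + 3) ^ 2) :=
              pow_le_pow_of_le_one (by norm_num) (by norm_num) hDb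
          _ = ((3 / 8 : ℝ) ^ 3) ^ ((i + 3) ^ 2) := by rw [pow_mul]
          _ ≤ (1 / 8) ^ ((i + 3) ^ 2) := pow_le_pow_left₀ (by norm_num) (by norm_num) _
          _ = (1 / 8) ^ ((i + 1 + 1 + 1) ^ 2) := rfl
    have hQ0 : 0 ≤ ∏ i ∈ Finset.range (t + 1), (1 / 2 : ℝ) ^ (d i).natAbs :=
      Finset.prod_nonneg fun i _ => by positivity
    calc Real.exp (p.e t) * ∏ i ∈ Finset.range (t + 1), fac p (p.x t) i (d i)
        ≤ Real.exp (p.e t) * ((∏ i ∈ Finset.range (t + 1), (1 / 2 : ℝ) ^ (d i).natAbs) *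
          (1 / 8) ^ (∑ i ∈ Finset.range (t + 1), (d i).toNat)) :=
          mul_le_mul_of_nonneg_left h3 (Real.exp_pos _).le
      _ = (Real.exp (p.e t) * (1 / 8) ^ (∑ i ∈ Finset.range (t + 1), (d i).toNat)) *
          ∏ i ∈ Finset.range (t + 1), (1 / 2 : ℝ) ^ (d i).natAbs := by ring
      _ ≤ _ := mul_le_mul_of_nonneg_right hE hQ0

end Pool.Agent.Helper53K9.WC

end
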