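import Pool.Agent.Helper53K9.WC.Defs

/-!
COMB: the coefficients `u(d)`.
-/

set_option autoImplicit false

open Finset

noncomputable section

namespace Pool.Agent.Helper53K9.WC

namespace Comb

/-- coefficient of `z ^ n` in `(1 - z) ^ (s - 1)` -/
def cN (s : ℤ) (n : ℕ) : ℝ :=
  if 1 ≤ s then (-1) ^ n * (Nat.choose (s - 1).toNat n : ℝ) else (Nat.choose (n + (-s).toNat) n : ℝ)

def c (s r : ℤ) : ℝ := if r < 0 then 0 else cN s r.toNat

theorem cN_zero (s : ℤ) : cN s 0 = 1 := by
  unfold cN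
  split_ifs <;> simp

theorem cN_succ (s : ℤ) (n : ℕ) : cN s (n + 1) = cN (s + 1) (n + 1) + cN s n := by
  unfold cN
  by_cases h1 : 1 ≤ s
  · rw [if_pos h1, if_pos (by omega), if_pos h1]
    have e : (s + 1 - 1).toNat = (s - 1).toNat + 1 := by omega
    rw [e, Nat.choose_succ_succ]
    push_cast
    ring
  · rw [if_neg h1, if_neg h1]
    by_cases h2 : 1 ≤ s + 1
    · have h0 : s = 0 := by omega
      subst h0
      simp
    · rw [if_neg h2]
      have e : (-s).toNat = (-(s + 1)).toNat + 1 := by omega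
      rw [e]
      have h3 : n + 1 + ((-(s + 1)).toNat + 1) = (n + 1 + (-(s + 1)).toNat) + 1 := by ring
      have h4 : n + ((-(s + 1)).toNat + 1) = n + 1 + (-(s + 1)).toNat := by ring
      rw [h3, h4, Nat.choose_succ_succ]
      push_cast
      ring

theorem c_rec (s r : ℤ) : c s r = c (s + 1) r + c s (r - 1) := by
  unfold c
  rcases lt_trichotomy r 0 with h | h | h
  · rw [if_pos h, if_pos h, if_pos (by omega), add_zero]
  · subst h
    simp [cN_zero]
  · rw [if_neg (by omega), if_neg (by omega), if_neg (by omega)]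
    have e : r.toNat = (r - 1).toNat + 1 := by omega
    rw [e, cN_succ]

theorem c_neg {s r : ℤ} (h : r < 0) : c s r = 0 := if_pos h

theorem c_zero {r : ℤ} (h : 0 ≤ r) : c 0 r = 1 := by
  unfold c cN
  rw [if_neg (by omega), if_neg (by omega)]
  simp

theorem c_one {r : ℤ} (h : 0 < r) : c 1 r = 0 := by
  unfold c cN
  rw [if_neg (by omega), if_pos (by omega)]
  have e : r.toNat = (r - 1).toNat + 1 := by omega
  rw [e]
  simp

theorem c_ne {s r : ℤ} (hs : 1 ≤ s) (h : c s r ≠ 0) : r + 1 ≤ s := by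
  unfold c cN at h
  by_contra hcon
  push Not at hcon
  by_cases hr : r < 0
  · rw [if_pos hr] at h
    exact h rfl
  · rw [if_neg hr, if_pos hs, Nat.choose_eq_zero_of_lt (by omega)] at h
    simp at h

/-! bounds -/

theorem choose_bd0 (D k : ℕ) : Nat.choose (D + k) k ≤ (D + 1) ^ k := by
  induction k with
  | zero => simp
  | succ k ih =>
    have h1 := Nat.add_one_mul_choose_eq (D + k) k
    have h2 : (D + k + 1) ≤ (D + 1) * (k + 1) := by nlinarith
    have h3 : Nat.choose (D + (k + 1)) (k + 1) * (k + 1) ≤ (D + 1) ^ (k + 1) * (k + 1) := by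
      calc Nat.choose (D + (k + 1)) (k + 1) * (k + 1) = (D + k + 1) * Nat.choose (D + k) k := h1.symm
        _ ≤ ((D + 1) * (k + 1)) * (D + 1) ^ k := Nat.mul_le_mul h2 ih
        _ = (D + 1) ^ (k + 1) * (k + 1) := by ring
    exact Nat.le_of_mul_le_mul_right h3 (Nat.succ_pos k)

theorem choose_bd (D x k : ℕ) : Nat.choose (D + x + k) k ≤ (2 * (D + 1)) ^ k * 2 ^ x := by
  induction x generalizing k with
  | zero =>
    rw [pow_zero, mul_one, add_zero, mul_pow]
    exact (choose_bd0 D k).trans (Nat.le_mul_of_pos_left _ (by positivity))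
  | succ x ih =>
    induction k with
    | zero =>
      simp only [Nat.choose_zero_right, pow_zero, one_mul]
      exact Nat.one_le_two_pow
    | succ k ihk =>
      have e : D + (x + 1) + (k + 1) = (D + (x + 1) + k) + 1 := by ring
      rw [e, Nat.choose_succ_succ]
      have e2 : D + (x + 1) + k = D + x + (k + 1) := by ring
      have h1 := ih (k + 1)
      rw [← e2] at h1
      calc Nat.choose (D + (x + 1) + k) k + Nat.choose (D + (x + 1) + k) (k + 1)
          ≤ (2 * (D + 1)) ^ k * 2 ^ (x + 1) + (2 * (D + 1)) ^ (k + 1) * 2 ^ x := Nat.add_le_add ihk h1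
        _ = (2 * (D + 1)) ^ k * 2 ^ x * (2 + 2 * (D + 1)) := by ring
        _ ≤ (2 * (D + 1)) ^ k * 2 ^ x * (2 * (D + 1) * 2) := Nat.mul_le_mul_left _ (by nlinarith)
        _ = (2 * (D + 1)) ^ (k + 1) * 2 ^ (x + 1) := by ring

theorem c_bd (D : ℕ) (s k : ℤ) :
    |c s (D - k)| ≤ 2 ^ s.toNat * (2 * ((D : ℝ) + 1)) ^ (-s).toNat * 2 ^ (-k).toNat := by
  have hD : (1 : ℝ) ≤ 2 * ((D : ℝ) + 1) := by
    have : (0 : ℝ) ≤ D := Nat.cast_nonneg D
    linarith
  by_cases hr : (D : ℤ) - k < 0
  · rw [c_neg hr, abs_zero]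
    positivity
  unfold c cN
  rw [if_neg hr]
  by_cases hs : 1 ≤ s
  · rw [if_pos hs, abs_mul, abs_pow, abs_neg, abs_one, one_pow, one_mul, Nat.abs_cast]
    have h1 : (Nat.choose (s - 1).toNat ((D : ℤ) - k).toNat : ℝ) ≤ 2 ^ (s - 1).toNat := by
      exact_mod_cast Nat.choose_le_two_pow _ _
    have h2 : (2 : ℝ) ^ (s - 1).toNat ≤ 2 ^ s.toNat := pow_le_pow_right₀ (by norm_num) (by omega)
    have h3 : (1 : ℝ) ≤ (2 * ((D : ℝ) + 1)) ^ (-s).toNat := one_le_pow₀ hD
    have h4 : (1 : ℝ) ≤ 2 ^ (-k).toNat := one_le_pow₀ (by norm_num)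
    have h5 : (2 : ℝ) ^ s.toNat ≤ 2 ^ s.toNat * (2 * ((D : ℝ) + 1)) ^ (-s).toNat :=
      le_mul_of_one_le_right (by positivity) h3
    have h6 : (2 : ℝ) ^ s.toNat * (2 * ((D : ℝ) + 1)) ^ (-s).toNat ≤
        2 ^ s.toNat * (2 * ((D : ℝ) + 1)) ^ (-s).toNat * 2 ^ (-k).toNat :=
      le_mul_of_one_le_right (by positivity) h4
    linarith
  · rw [if_neg hs, Nat.abs_cast]
    have e0 : s.toNat = 0 := by omega
    rw [e0, pow_zero, one_mul]
    have h1 : Nat.choose (((D : ℤ) - k).toNat + (-s).toNat) ((D : ℤ) - k).toNat =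
        Nat.choose (((D : ℤ) - k).toNat + (-s).toNat) (-s).toNat := Nat.choose_symm_add
    rw [h1]
    have h2 : Nat.choose (((D : ℤ) - k).toNat + (-s).toNat) (-s).toNat ≤
        Nat.choose (D + (-k).toNat + (-s).toNat) (-s).toNat :=
      Nat.choose_le_choose _ (by omega)
    have h3 := h2.trans (choose_bd D (-k).toNat (-s).toNat)
    exact_mod_cast h3

/-! the tail sums -/

def Sg (d : ℕ →₀ ℤ) (l : ℕ) : ℤ := d.sum fun i k => if l ≤ i then k else 0

theorem Sg_add (d : ℕ →₀ ℤ) (j l : ℕ) :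
    Sg (d + Finsupp.single j 1) l = Sg d l + if l ≤ j then 1 else 0 := by
  unfold Sg
  rw [Finsupp.sum_add_index' (by intro; simp) (by intro a b c; split_ifs <;> simp),
    Finsupp.sum_single_index (by simp)]

theorem Sg_eq {d : ℕ →₀ ℤ} {N : ℕ} (h : ∀ i, N ≤ i → d i = 0) (l : ℕ) :
    Sg d l = ∑ i ∈ range N, if l ≤ i then d i else 0 := by
  unfold Sg
  refine Finsupp.sum_of_support_subset d (fun i hi => ?_) _ (by intro i _; simp)
  rw [Finset.mem_range]
  by_contra hcon
  exact (Finsupp.mem_support_iff.1 hi) (h i (by omega))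

theorem Sg_zero_of {d : ℕ →₀ ℤ} {l : ℕ} (h : ∀ i, l ≤ i → d i = 0) : Sg d l = 0 := by
  unfold Sg
  refine Finset.sum_eq_zero fun i _ => ?_
  simp only
  split_ifs with hi
  · exact h i hi
  · rfl

def bd (d : ℕ →₀ ℤ) : ℕ := d.support.sup id + 1

theorem bd_spec (d : ℕ →₀ ℤ) : ∀ i, bd d ≤ i → d i = 0 := by
  intro i hi
  by_contra hne
  have h1 : i ≤ d.support.sup id :=
    Finset.le_sup (f := id) (Finsupp.mem_support_iff.2 hne)
  unfold bd at hi
  omega

def u (D : ℕ → ℕ) (d : ℕ →₀ ℤ) : ℝ := ∏ i ∈ range (bd d), c (Sg d (i + 1)) (D i - d i)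

theorem u_eq (D : ℕ → ℕ) {d : ℕ →₀ ℤ} {N : ℕ} (h : ∀ i, N ≤ i → d i = 0) :
    u D d = ∏ i ∈ range N, c (Sg d (i + 1)) (D i - d i) := by
  have key : ∀ N M : ℕ, (∀ i, N ≤ i → d i = 0) → N ≤ M →
      ∏ i ∈ range N, c (Sg d (i + 1)) (D i - d i) = ∏ i ∈ range M, c (Sg d (i + 1)) (D i - d i) := by
    intro N M hN hM
    refine Finset.prod_subset (Finset.range_mono hM) fun i _ hi => ?_
    have hi' : N ≤ i := by simpa using hi
    rw [Sg_zero_of fun j hj => hN j (by omega), hN i hi', c_zero (by omega)]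
  unfold u
  rw [key (bd d) (max (bd d) N) (bd_spec d) (le_max_left _ _),
    key N (max (bd d) N) h (le_max_right _ _)]

/-- the telescoping products -/
def A (D : ℕ → ℕ) (d : ℕ →₀ ℤ) (N j : ℕ) : ℝ :=
  ∏ i ∈ range N, c (Sg d (i + 1) + if i < j then 1 else 0) (D i - d i)

theorem u_add (D : ℕ → ℕ) {d : ℕ →₀ ℤ} {N j : ℕ} (h : ∀ i, N ≤ i → d i = 0) (hj : j < N) :
    u D (d + Finsupp.single j 1) = A D d N j - A D d N (j + 1) := by
  have h1 : ∀ i, N ≤ i → (d + Finsupp.single j 1 : ℕ →₀ ℤ) i = 0 := by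
    intro i hi
    rw [Finsupp.add_apply, h i hi, Finsupp.single_apply, if_neg (by omega)]
    rfl
  rw [u_eq D h1]
  unfold A
  have hmem : j ∈ range N := Finset.mem_range.2 hj
  rw [← Finset.mul_prod_erase _ _ hmem, ← Finset.mul_prod_erase _ _ hmem,
    ← Finset.mul_prod_erase _ _ hmem]
  have e1 : ∏ x ∈ (range N).erase j, c (Sg d (x + 1) + if x < j + 1 then 1 else 0) (D x - d x) =
      ∏ x ∈ (range N).erase j, c (Sg d (x + 1) + if x < j then 1 else 0) (D x - d x) := by
    refine Finset.prod_congr rfl fun x hx => ?_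
    have hxj : x ≠ j := Finset.ne_of_mem_erase hx
    have : (x < j + 1) ↔ (x < j) := by omega
    simp only [this]
  have e2 : ∏ x ∈ (range N).erase j, c (Sg (d + Finsupp.single j 1) (x + 1))
        (D x - (d + Finsupp.single j 1 : ℕ →₀ ℤ) x) =
      ∏ x ∈ (range N).erase j, c (Sg d (x + 1) + if x < j then 1 else 0) (D x - d x) := by
    refine Finset.prod_congr rfl fun x hx => ?_
    have hxj : x ≠ j := Finset.ne_of_mem_erase hx
    rw [Sg_add, Finsupp.add_apply, Finsupp.single_apply, if_neg (Ne.symm hxj), add_zero]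
    have : (x + 1 ≤ j) ↔ (x < j) := by omega
    simp only [this]
  rw [e1, e2, ← sub_mul]
  congr 1
  rw [Sg_add, if_neg (by omega), if_neg (by omega), if_pos (by omega), add_zero,
    Finsupp.add_apply, Finsupp.single_apply, if_pos rfl]
  have h3 := c_rec (Sg d (j + 1)) (D j - d j)
  rw [h3, add_sub_cancel_left]
  congr 1
  ring

theorem prod_swap (B : ℕ → ℝ) (e : ℕ → ℕ) (N : ℕ) :
    ∏ i ∈ range N, ∏ j ∈ range N, (if i < j then B i ^ e j else 1) =
      ∏ j ∈ range N, (∏ i ∈ range j, B i) ^ e j := by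
  rw [Finset.prod_comm]
  refine Finset.prod_congr rfl fun j hj => ?_
  rw [← Finset.prod_pow, ← Finset.prod_filter]
  refine Finset.prod_congr ?_ fun _ _ => rfl
  ext i
  have hj' := Finset.mem_range.1 hj
  simp only [Finset.mem_filter, Finset.mem_range]
  omega

theorem sum_toNat {ι : Type} (s : Finset ι) (f : ι → ℤ) :
    (∑ i ∈ s, f i).toNat ≤ ∑ i ∈ s, (f i).toNat := by
  classical
  induction s using Finset.induction_on with
  | empty => simp
  | insert a s ha ih =>
    rw [Finset.sum_insert ha, Finset.sum_insert ha]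
    omega

theorem pow_sum_bd {B : ℝ} (hB : 1 ≤ B) (f : ℕ → ℤ) (i N : ℕ) :
    B ^ (∑ j ∈ range N, if i + 1 ≤ j then f j else 0).toNat ≤
      ∏ j ∈ range N, (if i < j then B ^ (f j).toNat else 1) := by
  have h1 : (∑ j ∈ range N, if i + 1 ≤ j then f j else 0).toNat ≤
      ∑ j ∈ range N, (if i < j then (f j).toNat else 0) := by
    refine (sum_toNat _ _).trans (Finset.sum_le_sum fun j _ => ?_)
    by_cases h : i < j
    · rw [if_pos h, if_pos (show i + 1 ≤ j by omega)]
    · rw [if_neg h, if_neg (show ¬ i + 1 ≤ j by omega)]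
      simp
  refine (pow_le_pow_right₀ hB h1).trans (le_of_eq ?_)
  rw [← Finset.prod_pow_eq_pow_sum]
  refine Finset.prod_congr rfl fun j _ => ?_
  split_ifs <;> simp

end Comb

open Comb

theorem comb : S_COMB := by
  intro D hD
  refine ⟨u D, ?_, ?_, ?_, ?_, ?_⟩
  · rw [u_eq D (N := 0) (by intro i _; rfl), Finset.range_zero, Finset.prod_empty]
  · intro d i hi
    rw [u_eq D (N := max (bd d) (i + 1)) fun j hj => bd_spec d j ((le_max_left _ _).trans hj)]
    refine Finset.prod_eq_zero (i := i) ?_ (c_neg (by omega))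
    rw [Finset.mem_range]
    exact lt_of_lt_of_le (Nat.lt_succ_self i) (le_max_right _ _)
  · intro d
    set N := bd d with hN
    have hz : ∀ M j : ℕ, N < j → j ≤ M → A D d M j = 0 := by
      intro M j hj hM
      refine Finset.prod_eq_zero (i := N) (Finset.mem_range.2 (by omega)) ?_
      rw [if_pos hj, Sg_zero_of fun i hi => bd_spec d i (by omega), bd_spec d N le_rfl]
      have := hD N
      exact c_one (by omega)
    have hvan : ∀ j, j ∉ range (N + 1) → u D (d + Finsupp.single j 1) = 0 := by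
      intro j hj
      have hj' : N < j := by simpa using hj
      rw [u_add D (N := j + 1) (fun i hi => bd_spec d i (by omega)) (Nat.lt_succ_self j),
        hz _ _ hj' (by omega), hz _ _ (by omega) le_rfl, sub_zero]
    have hsum : ∑ j ∈ range (N + 1), u D (d + Finsupp.single j 1) = u D d := by
      have h1 : ∀ j ∈ range (N + 1), u D (d + Finsupp.single j 1) =
          A D d (N + 1) j - A D d (N + 1) (j + 1) := fun j hj =>
        u_add D (fun i hi => bd_spec d i (by omega)) (Finset.mem_range.1 hj)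
      rw [Finset.sum_congr rfl h1, Finset.sum_range_sub' (fun j => A D d (N + 1) j),
        hz _ _ (Nat.lt_succ_self N) le_rfl, sub_zero]
      rw [u_eq D (N := N + 1) fun i hi => bd_spec d i (by omega)]
      refine Finset.prod_congr rfl fun i _ => ?_
      simp
    rw [← hsum]
    exact hasSum_sum_of_ne_finset_zero hvan
  · intro d
    set N := bd d with hN
    have hd := bd_spec d
    rw [u_eq D hd, Finset.abs_prod]
    have h0 : d.prod (fun i k => ((2:ℝ) ^ i) ^ k.toNat * (be D i) ^ (-k).toNat) =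
        ∏ i ∈ range N, (((2:ℝ) ^ i) ^ (d i).toNat * (be D i) ^ (-(d i)).toNat) := by
      refine Finsupp.prod_of_support_subset d (fun i hi => ?_) _ (by intro i _; simp)
      rw [Finset.mem_range]
      by_contra hcon
      exact (Finsupp.mem_support_iff.1 hi) (hd i (by omega))
    rw [h0]
    have h1 : ∀ i ∈ range N, |c (Sg d (i + 1)) (D i - d i)| ≤
        (∏ j ∈ range N, (if i < j then (2 : ℝ) ^ (d j).toNat else 1)) *
        (∏ j ∈ range N, (if i < j then (2 * ((D i : ℝ) + 1)) ^ (-(d j)).toNat else 1)) *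
        2 ^ (-(d i)).toNat := by
      intro i _
      refine (c_bd (D i) (Sg d (i + 1)) (d i)).trans ?_
      have hDi : (1 : ℝ) ≤ 2 * ((D i : ℝ) + 1) := by
        have : (0 : ℝ) ≤ D i := Nat.cast_nonneg _
        linarith
      refine mul_le_mul_of_nonneg_right ?_ (by positivity)
      refine mul_le_mul ?_ ?_ (by positivity) (Finset.prod_nonneg fun j _ => by split_ifs <;> positivity)
      · rw [Sg_eq hd]
        exact pow_sum_bd (by norm_num) _ _ _
      · have h2 : -Sg d (i + 1) = ∑ j ∈ range N, if i + 1 ≤ j then -(d j) else 0 := by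
          rw [Sg_eq hd, ← Finset.sum_neg_distrib]
          refine Finset.sum_congr rfl fun j _ => ?_
          split_ifs <;> simp
        rw [h2]
        exact pow_sum_bd hDi _ _ _
    refine (Finset.prod_le_prod (fun i _ => abs_nonneg _) h1).trans (le_of_eq ?_)
    rw [Finset.prod_mul_distrib, Finset.prod_mul_distrib, prod_swap (fun _ => (2 : ℝ)),
      prod_swap (fun i => 2 * ((D i : ℝ) + 1)), mul_assoc, ← Finset.prod_mul_distrib,
      ← Finset.prod_mul_distrib]
    refine Finset.prod_congr rfl fun i _ => ?_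
    rw [Finset.prod_const, Finset.card_range, ← mul_pow]
    unfold be
    rw [mul_comm (∏ j ∈ range i, 2 * ((D j : ℝ) + 1)) 2]
  · intro d i hi hj hu
    set N := max (bd d) (i + 1) with hN
    have hd : ∀ j, N ≤ j → d j = 0 := fun j hj => bd_spec d j ((le_max_left _ _).trans hj)
    rw [u_eq D hd] at hu
    have h1 := Finset.prod_ne_zero_iff.1 hu i (Finset.mem_range.2
      (lt_of_lt_of_le (Nat.lt_succ_self i) (le_max_right _ _)))
    have h2 : Sg d (i + 1) = d (i + 1) := by
      rw [Sg_eq (N := N + 2) fun j hj => hd j (by omega), Finset.sum_eq_single (i + 1)]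
      · simp
      · intro j _ hne
        split_ifs with h
        · exact hj j (by omega)
        · rfl
      · intro h
        exfalso
        apply h
        rw [Finset.mem_range]
        have : i + 1 ≤ N := le_max_right _ _
        omega
    rw [h2] at h1
    have h3 := c_ne (by omega) h1
    omega

end Pool.Agent.Helper53K9.WC

end
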