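import Mathlib

/-!
MP_27fa52_an: disproof of Q1 (completeness of right translates in weighted L^1 on the half line).
Blueprint of helper53: all leaves are compiled Props `S_<ID>`.
-/

open MeasureTheory Set Filter Topology

noncomputable section

namespace Pool.Agent.Helper53K9.WC

/-! ### The notions of the problem (as in the starting file) -/

def IsWeight (φ : ℝ → ℝ) : Prop :=
  Measurable φ ∧ (∀ t, 1 ≤ φ t) ∧ (∀ t τ, φ (t + τ) ≤ φ t * φ τ) ∧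
  Tendsto (fun t => Real.log (φ t) / t) atTop (𝓝 0) ∧
  Tendsto (fun t => Real.log (φ t) / t) atBot (𝓝 0)

def InL1 (φ : ℝ → ℝ) (f : ℝ → ℂ) : Prop :=
  AEStronglyMeasurable f volume ∧ (∀ t, t < 0 → f t = 0) ∧
  IntegrableOn (fun t => ‖f t‖ * φ t) (Set.Ioi 0)

def InLinf (φ : ℝ → ℝ) (g : ℝ → ℂ) : Prop :=
  AEStronglyMeasurable g (volume.restrict (Set.Ioi 0)) ∧
  ∃ K : ℝ, ∀ᵐ t ∂(volume.restrict (Set.Ioi (0:ℝ))), ‖g t‖ ≤ K * φ t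

def hat (f : ℝ → ℂ) (z : ℂ) : ℂ :=
  ∫ t in Set.Ioi (0:ℝ), f t * Complex.exp (-(Complex.I * (t:ℂ) * z))

def TransformConditions (f : ℝ → ℂ) : Prop :=
  (∀ z : ℂ, z.im ≤ 0 → hat f z ≠ 0) ∧
  Filter.limsup (fun y : ℝ => ((Real.log ‖hat f (y * Complex.I)‖ / |y| : ℝ) : EReal)) atBot = 0

def TranslatesComplete (φ : ℝ → ℝ) (f : ℝ → ℂ) : Prop :=
  ∀ g : ℝ → ℂ, InLinf φ g →
  (∀ τ : ℝ, 0 < τ → ∫ t in Set.Ioi (0:ℝ), f t * g (t + τ) = 0) →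
  ∀ᵐ t ∂(volume.restrict (Set.Ioi (0:ℝ))), g t = 0

/-! ### Parameters -/

/-- `ε_i = 2^{-(i+1)}` -/
def ep (i : ℕ) : ℝ := (1 / 2) ^ (i + 1)

/-- `δ_i = 2^{-(2i+6)}` -/
def dl (i : ℕ) : ℝ := (1 / 2) ^ (2 * i + 6)

/-- `β_l = 2 ∏_{i<l} 2 (D_i + 1)` -/
def be (D : ℕ → ℕ) (l : ℕ) : ℝ := 2 * ∏ i ∈ Finset.range l, (2 * ((D i : ℝ) + 1))

structure Par where
  a : ℕ → ℝ
  b : ℕ → ℝ
  D : ℕ → ℕ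
  e : ℕ → ℝ
  x : ℕ → ℝ
  τ : ℕ → ℝ
  M : ℕ → ℝ
  s : ℕ → ℝ
  k : ℕ → ℕ

namespace Par

variable (p : Par)

/-- `Q_l = Σ_{i ≤ l} D_i b_i` -/
def Q (l : ℕ) : ℝ := ∑ i ∈ Finset.range (l + 1), (p.D i : ℝ) * p.b i

/-- `A_l = Σ_{i ≤ l} D_i a_i` -/
def AA (l : ℕ) : ℝ := ∑ i ∈ Finset.range (l + 1), (p.D i : ℝ) * p.a i

/-- `ρ_l = β_l ε_l (2/δ_l) exp(-b_l/2)` -/
def rho (l : ℕ) : ℝ := be p.D l * ep l * (2 / dl l) * Real.exp (-(p.b l) / 2)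

/-- `ν_i = ε_i exp(-b_i)` -/
def nu (i : ℕ) : ℝ := ep i * Real.exp (-(p.b i))

/-- `c_0 = 0`, `c_{l+1} = a_l` -/
def c : ℕ → ℝ
  | 0 => 0
  | (l + 1) => p.a l

/-- `P(u) = Σ_j s_j 2^j (1 - cos (u/2^j))` -/
def PP (u : ℝ) : ℝ := ∑' j : ℕ, p.s j * 2 ^ j * (1 - Real.cos (u / 2 ^ j))

/-- `dip(u) = (1/2) Σ_l M_l u²/((a_l/2)² + u²)` -/
def dip (u : ℝ) : ℝ := (1 / 2) * ∑' l : ℕ, p.M l * (u ^ 2 / ((p.a l / 2) ^ 2 + u ^ 2))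

/-- `P - dip` -/
def Pd (u : ℝ) : ℝ := p.PP u - p.dip u

/-- The base function. -/
def gs (z : ℂ) : ℂ := Complex.exp (-(64 * Complex.I * z)
  + ∑' j : ℕ, ((p.s j * 2 ^ j : ℝ) : ℂ) *
      (1 - Complex.I * z / 2 ^ j - Complex.exp (-(Complex.I * z / 2 ^ j)))
  - ∑' l : ℕ, (p.M l : ℂ) * (Complex.I * z / (((p.a l / 2 : ℝ) : ℂ) + Complex.I * z)))

structure Good : Prop where
  a_pos : ∀ l, 0 < p.a l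
  b_pos : ∀ l, 0 < p.b l
  D_big : ∀ l, 3 * (l + 3) ^ 2 ≤ p.D l
  e_zero : p.e 0 = 0
  e_nonneg : ∀ l, 0 ≤ p.e l
  tau_pos : ∀ l, 0 < p.τ l
  tau_anti : Antitone p.τ
  tau_zero : p.τ 0 ≤ 1 / 16
  tau_lim : Tendsto p.τ atTop (𝓝 0)
  C1 : ∀ l, 2 * (p.e l + p.Q l) ≤ p.τ l * p.a l
  C2 : ∀ l, 8 * p.τ (l + 1) * p.a l ≤ p.b l
  C3 : ∀ l, p.τ (l + 1) * p.AA l ≤ 1
  C4 : ∀ l, p.b (l + 1) * p.a l ≤ p.b l * p.a (l + 1)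
  C5 : ∀ l, 8 * p.AA l ≤ p.a (l + 1)
  C6 : ∀ l, p.e (l + 1) ≤ p.D l
  C6' : ∀ l, (p.D l : ℝ) ≤ p.a l
  C7 : ∀ l, p.M l = 4 * (p.Q l + p.e (l + 1) + 1)
  C7' : ∀ l, p.M l ≤ p.a l * (1 / 2) ^ (l + 3)
  C8 : ∀ l, Real.exp (p.e (l + 1)) * p.rho l ≤ (1 / 2) * (1 / 8) ^ ((l + 2) ^ 2)
  s_nonneg : ∀ j, 0 ≤ p.s j
  s_le_one : ∀ j, p.s j ≤ 1
  x_def : ∀ l, p.x l = 64 + ∑ j ∈ Finset.range (p.k l), p.s j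
  e_def : ∀ l, p.e l = 2 * ∑ j ∈ Finset.range (p.k l), p.s j * 2 ^ j
  x_big : ∀ l, (2:ℝ) ^ (2 * l + 6) ≤ p.x l
  P_le : ∀ l u, p.PP u ≤ p.e l + p.τ l * |u|

/-! ### The weight -/

/-- `b·m + c_j + 4 τ_j |t - a·m|` -/
def pt (t : ℝ) (q : (ℕ →₀ ℕ) × ℕ) : ℝ :=
  q.1.sum (fun i m => p.b i * (m:ℝ)) + p.c q.2 +
    4 * p.τ q.2 * |t - q.1.sum (fun i m => p.a i * (m:ℝ))|

/-- the exponent of the weight -/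
def pw (t : ℝ) : ℝ := ⨅ q : (ℕ →₀ ℕ) × ℕ, p.pt t q

/-! ### The function `f` -/

end Par

/-- `w(r) = δ⁻¹ exp(-(1+1/δ) r)` -/
def wk (δ r : ℝ) : ℝ := δ⁻¹ * Real.exp (-((1 + 1 / δ) * r))

/-- the function `f` -/
def ff (p : Par) (t : ℝ) : ℂ :=
  if t < 0 then 0 else
    ((Real.exp (-t) - ∑' i : ℕ, p.nu i * (if p.a i ≤ t then wk (dl i) (t - p.a i) else 0) : ℝ) : ℂ)

/-! ### Leaves -/

/-- PAR: existence of parameters.  Suggested recursion: `σ_l = 2^{-q_l}`, `τ_l = 8 σ_l`,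
`k_{l+1} = k_l + 2^{q_l} 2^{2l+8}`, `s = σ_l` on `[k_l, k_{l+1})`, `D_l = 2^{k_{l+1}+2}`,
`b_l = 4 D_l`, then `a_l` large, then `q_{l+1}` large. -/
def S_PAR : Prop := ∃ p : Par, p.Good

/-- DYAD (used in PAR) -/
def S_DYAD : Prop := ∀ u : ℝ, Summable (fun j : ℕ => (2:ℝ) ^ j * (1 - Real.cos (u / 2 ^ j))) ∧
  ∑' j : ℕ, (2:ℝ) ^ j * (1 - Real.cos (u / 2 ^ j)) ≤ 8 * |u|

/-- BASE: the base function -/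
def S_BASE : Prop := ∀ p : Par, p.Good →
  DifferentiableOn ℂ p.gs {z | z.im < 1} ∧ p.gs 0 = 1 ∧
  (∀ (l : ℕ) (u σ : ℝ), 0 ≤ σ →
    ‖p.gs ((u:ℂ) - (σ:ℂ) * Complex.I)‖ ≤ Real.exp (p.e l - p.x l * σ + p.Pd u)) ∧
  (∀ u, 0 ≤ p.dip u) ∧ (∀ u l, p.a l / 2 ≤ |u| → p.M l / 4 ≤ p.dip u)

/-- STAR: the main inequality for the weight -/
def S_STAR : Prop := ∀ p : Par, p.Good → ∀ R : ℝ → ℝ,
  (∀ u l, R u ≤ p.e l + p.τ l * |u|) →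
  (∀ u l, p.a l / 2 ≤ |u| → ∀ j, R u ≤ p.e j + p.τ j * |u| - (p.Q l + p.e (l + 1) + 1)) →
  ∀ n : ℕ →₀ ℤ, (∀ i, -(p.D i : ℤ) ≤ n i) → ∀ (u : ℝ) (j : ℕ),
    R u ≤ (1 / 2) * n.sum (fun i k => p.b i * (k.toNat : ℝ))
      - n.sum (fun i k => p.b i * ((-k).toNat : ℝ)) + p.c j
      + 4 * p.τ j * |u - n.sum (fun i k => p.a i * (k : ℝ))|

/-- WT: the weight -/
def S_WT : Prop := ∀ p : Par, p.Good →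
  IsWeight (fun t => Real.exp (p.pw t)) ∧ (∀ t q, p.pw t ≤ p.pt t q) ∧
  (∀ t B, (∀ q, B ≤ p.pt t q) → B ≤ p.pw t) ∧ (∀ t, 0 ≤ p.pw t) ∧
  (∀ r, p.pw r ≤ |r| / 4) ∧ (∀ i r, p.pw (p.a i + r) ≤ p.b i + |r| / 4) ∧
  (∀ t r, p.pw (t + r) ≤ p.pw t + p.pw r)

/-- ROT: rotation of the contour -/
def S_ROT : Prop := ∀ (h : ℂ → ℂ) (B : ℝ), DifferentiableOn ℂ h {z | z.im < 1} →
  (∀ u σ : ℝ, 0 ≤ σ → ‖h ((u:ℂ) - (σ:ℂ) * Complex.I)‖ ≤ B * Real.exp (-σ + |u| / 4)) →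
  ∀ (c : ℝ), 1 ≤ c → ∀ t : ℝ,
  ∫ s in Set.Ioi (0:ℝ), ((Real.exp (-(c * s)) : ℝ) : ℂ) * h ((t:ℂ) + (s:ℂ)) =
    -Complex.I * ∫ r in Set.Ioi (0:ℝ), Complex.exp (Complex.I * (c:ℂ) * (r:ℂ)) *
      h ((t:ℂ) - (r:ℂ) * Complex.I)

/-- `(R_c H)(t, σ) = -i ∫_0^∞ exp(i c r) H(t, σ + r) dr` -/
def RR (c : ℝ) (H : ℝ → ℝ → ℂ) (t σ : ℝ) : ℂ :=
  -Complex.I * ∫ r in Set.Ioi (0:ℝ), Complex.exp (Complex.I * (c:ℂ) * (r:ℂ)) * H t (σ + r)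

/-- admissible functions of two variables -/
def Adm (H : ℝ → ℝ → ℂ) : Prop :=
  Continuous (fun q : ℝ × ℝ => H q.1 q.2) ∧
  ∃ B : ℝ, ∀ t σ : ℝ, ‖H t σ‖ ≤ B * Real.exp (-σ + |t| / 4)

/-- integration in the real direction is the same as `RR` -/
def Rot (H : ℝ → ℝ → ℂ) : Prop := ∀ c : ℝ, 1 ≤ c → ∀ t σ : ℝ, 0 ≤ σ →
  ∫ s in Set.Ioi (0:ℝ), ((Real.exp (-(c * s)) : ℝ) : ℂ) * H (t + s) σ = RR c H t σ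

/-- OPA: the operators `RR c` on admissible functions -/
def S_OPA : Prop :=
  (∀ c H, Adm H → Adm (RR c H)) ∧
  (∀ c H H', Adm H → Adm H' → RR c (H + H') = RR c H + RR c H') ∧
  (∀ c (w : ℂ) H, RR c (w • H) = w • RR c H) ∧
  (∀ a b H, Adm H → RR a H = RR b H + ((b - a : ℝ) : ℂ) • RR a (RR b H)) ∧
  (∀ a b H, Adm H → RR a (RR b H) = RR b (RR a H)) ∧
  (∀ b H, Adm H → Rot H → Rot (RR b H)) ∧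
  (∀ (c x B : ℝ) (Ω : ℝ → ℝ) (H : ℝ → ℝ → ℂ), 0 < x → Adm H →
    (∀ t σ, 0 ≤ σ → ‖H t σ‖ ≤ B * (Real.exp (-(x * σ)) * Ω t)) →
    ∀ t σ, 0 ≤ σ → ‖RR c H t σ‖ ≤ (B / x) * (Real.exp (-(x * σ)) * Ω t))

/-- OPF: the family `V^{-d} G` -/
def S_OPF : Prop := ∀ G : ℝ → ℝ → ℂ, Adm G → Rot G →
  ∃ F : (ℕ →₀ ℤ) → ℝ → ℝ → ℂ, F 0 = G ∧ (∀ d, Adm (F d)) ∧ (∀ d, Rot (F d)) ∧
  (∀ d i, F (d + Finsupp.single i 1) = (dl i : ℂ) • F d + RR 1 (F d)) ∧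
  (∀ d i, ((dl i : ℂ)⁻¹) • RR (1 + 1 / dl i) (F (d + Finsupp.single i 1)) = RR 1 (F d)) ∧
  (∀ (x B : ℝ) (Ω : ℝ → ℝ), 0 < x → 0 ≤ B → (∀ t, 0 ≤ Ω t) →
    (∀ t σ, 0 ≤ σ → ‖G t σ‖ ≤ B * (Real.exp (-(x * σ)) * Ω t)) →
    ∀ d : ℕ →₀ ℤ, (∀ i, d i < 0 → 1 / dl i ≤ x) → ∀ t σ, 0 ≤ σ →
      ‖F d t σ‖ ≤ (B * d.prod (fun i k => (dl i + 1 / x) ^ k.toNat * (2 / dl i) ^ (-k).toNat)) *
        (Real.exp (-(x * σ)) * Ω t))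

/-- COMB: the coefficients.  With `s_l = Σ_{i≥l} d_i`, `r_i = D_i - d_i`:
`u(d) = ∏_i c(s_{i+1}, r_i)`, `c(s,r) = (-1)^r binom(s-1, r)`
(`= binom(r+|s|, r)` for `s ≤ 0`), `c(s,r) = c(s+1,r) + c(s,r-1)`. -/
def S_COMB : Prop := ∀ D : ℕ → ℕ, (∀ l, 1 ≤ D l) → ∃ u : (ℕ →₀ ℤ) → ℝ,
  u 0 = 1 ∧ (∀ d i, (D i : ℤ) < d i → u d = 0) ∧
  (∀ d, HasSum (fun i : ℕ => u (d + Finsupp.single i 1)) (u d)) ∧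
  (∀ d, |u d| ≤ d.prod (fun i k => ((2:ℝ) ^ i) ^ k.toNat * (be D i) ^ (-k).toNat)) ∧
  (∀ (d : ℕ →₀ ℤ) (i : ℕ), 0 < d (i + 1) → (∀ j, i + 1 < j → d j = 0) → u d ≠ 0 →
    (D i : ℤ) + 1 ≤ d i + d (i + 1))

/-- the summable bound -/
def cc (d : ℕ →₀ ℤ) : ℝ := d.prod (fun i k => (1 / 8 : ℝ) ^ (i + 1) * (1 / 2) ^ k.natAbs)

/-- COEF -/
def S_COEF : Prop := ∀ p : Par, p.Good → ∀ u : (ℕ →₀ ℤ) → ℝ,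
  (∀ d, |u d| ≤ d.prod (fun i k => ((2:ℝ) ^ i) ^ k.toNat * (be p.D i) ^ (-k).toNat)) →
  (∀ (d : ℕ →₀ ℤ) (i : ℕ), 0 < d (i + 1) → (∀ j, i + 1 < j → d j = 0) → u d ≠ 0 →
    (p.D i : ℤ) + 1 ≤ d i + d (i + 1)) →
  ∀ d : ℕ →₀ ℤ, d ≠ 0 → ∃ l : ℕ, (∀ i, d i < 0 → 1 / dl i ≤ p.x l) ∧
    |u d| * d.prod (fun i k => (ep i) ^ (-k)) *
      (Real.exp (p.e l) *
        d.prod (fun i k => (dl i + 1 / p.x l) ^ k.toNat * (2 / dl i) ^ (-k).toNat)) *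
      Real.exp (-((1 / 2) * d.sum (fun i k => p.b i * ((-k).toNat : ℝ)))) ≤ cc d

/-- SUM -/
def S_SUM : Prop := Summable cc ∧ ∑' d, cc d ≤ 3 / 2

/-- FUN1: `f` lies in `L^1_φ`, and the integral against `g` -/
def S_FUN1 : Prop := ∀ p : Par, p.Good → ∀ φ : ℝ → ℝ, Measurable φ → (∀ t, 1 ≤ φ t) →
  (∀ t τ, φ (t + τ) ≤ φ t * φ τ) → (∀ r, 0 ≤ r → φ r ≤ Real.exp (r / 4)) →
  (∀ i r, 0 ≤ r → φ (p.a i + r) ≤ Real.exp (p.b i + r / 4)) →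
  InL1 φ (ff p) ∧
  ∀ g : ℝ → ℂ, Continuous g → (∃ K : ℝ, ∀ t, 0 ≤ t → ‖g t‖ ≤ K * φ t) → ∀ y : ℝ, 0 < y →
    ∫ s in Set.Ioi (0:ℝ), ff p s * g (s + y) =
      (∫ s in Set.Ioi (0:ℝ), ((Real.exp (-s) : ℝ) : ℂ) * g (s + y)) -
      ∑' i : ℕ, (p.nu i : ℂ) * ∫ r in Set.Ioi (0:ℝ), ((wk (dl i) r : ℝ) : ℂ) * g (r + p.a i + y)

/-- FUN2: the transform of `f` -/
def S_FUN2 : Prop := ∀ p : Par, p.Good → TransformConditions (ff p)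

/-- the final statement -/
def S_FIN : Prop := ∃ (φ : ℝ → ℝ) (f : ℝ → ℂ), IsWeight φ ∧ InL1 φ f ∧ TransformConditions f ∧
  ¬ TranslatesComplete φ f

end Pool.Agent.Helper53K9.WC

end
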