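import Pool.Agent.Helper53K9.WC.Defs

/-!
Leaf DYAD: the dyadic sum `Σ_j 2^j (1 - cos (u/2^j))` is at most `8 |u|`.
-/

open MeasureTheory Set Filter Topology

noncomputable section

namespace Pool.Agent.Helper53K9.WC

lemma dyad_term_nonneg (u : ℝ) (j : ℕ) : 0 ≤ (2:ℝ) ^ j * (1 - Real.cos (u / 2 ^ j)) :=
  mul_nonneg (by positivity) (by linarith [Real.cos_le_one (u / 2 ^ j)])

lemma dyad_term_le_two (u : ℝ) (j : ℕ) : (2:ℝ) ^ j * (1 - Real.cos (u / 2 ^ j)) ≤ 2 ^ j * 2 :=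
  mul_le_mul_of_nonneg_left (by linarith [Real.neg_one_le_cos (u / 2 ^ j)]) (by positivity)

lemma dyad_term_le_sq (u : ℝ) (j : ℕ) :
    (2:ℝ) ^ j * (1 - Real.cos (u / 2 ^ j)) ≤ u ^ 2 / 2 * (1 / 2) ^ j := by
  have h := Real.one_sub_sq_div_two_le_cos (x := u / 2 ^ j)
  have h2 : (0:ℝ) < 2 ^ j := by positivity
  calc (2:ℝ) ^ j * (1 - Real.cos (u / 2 ^ j)) ≤ 2 ^ j * ((u / 2 ^ j) ^ 2 / 2) :=
        mul_le_mul_of_nonneg_left (by linarith) (by positivity)
    _ = u ^ 2 / 2 * (1 / 2) ^ j := by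
        rw [one_div, inv_pow]
        field_simp

lemma dyad_summable (u : ℝ) : Summable (fun j : ℕ => (2:ℝ) ^ j * (1 - Real.cos (u / 2 ^ j))) := by
  refine Summable.of_nonneg_of_le (dyad_term_nonneg u) (dyad_term_le_sq u) ?_
  exact (summable_geometric_of_lt_one (by norm_num) (by norm_num)).mul_left _

lemma dyad_tsum_le_sq (u : ℝ) :
    ∑' j : ℕ, (2:ℝ) ^ j * (1 - Real.cos (u / 2 ^ j)) ≤ u ^ 2 := by
  have hg : Summable (fun j : ℕ => u ^ 2 / 2 * (1 / 2 : ℝ) ^ j) :=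
    (summable_geometric_of_lt_one (by norm_num) (by norm_num)).mul_left _
  refine (Summable.tsum_le_tsum (dyad_term_le_sq u) (dyad_summable u) hg).trans ?_
  rw [tsum_mul_left, tsum_geometric_of_lt_one (by norm_num) (by norm_num)]
  norm_num

/-- `S(u) ≤ 2 + 2 S(u/2)` -/
lemma dyad_step (u : ℝ) :
    ∑' j : ℕ, (2:ℝ) ^ j * (1 - Real.cos (u / 2 ^ j)) ≤
      2 + 2 * ∑' j : ℕ, (2:ℝ) ^ j * (1 - Real.cos (u / 2 / 2 ^ j)) := by
  rw [(dyad_summable u).tsum_eq_zero_add, ← tsum_mul_left]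
  have h0 := dyad_term_le_two u 0
  have h1 : ∀ j : ℕ, (2:ℝ) ^ (j + 1) * (1 - Real.cos (u / 2 ^ (j + 1))) =
      2 * (2 ^ j * (1 - Real.cos (u / 2 / 2 ^ j))) := by
    intro j
    rw [div_div, pow_succ' (2:ℝ) j]
    ring
  rw [tsum_congr h1]
  simp only [pow_zero] at h0 ⊢
  linarith

lemma dyad_small (n : ℕ) : ∀ u : ℝ, 1 ≤ |u| → |u| ≤ 2 ^ n →
    ∑' j : ℕ, (2:ℝ) ^ j * (1 - Real.cos (u / 2 ^ j)) ≤ 6 * |u| - 2 := by
  induction n with
  | zero =>
    intro u h1 h2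
    have := dyad_tsum_le_sq u
    have h3 : |u| = 1 := le_antisymm (by simpa using h2) h1
    have h4 : u ^ 2 = 1 := by rw [← sq_abs, h3]; norm_num
    linarith
  | succ n ih =>
    intro u h1 h2
    by_cases h : |u| ≤ 2
    · have := dyad_tsum_le_sq u
      have h4 : u ^ 2 ≤ 2 * |u| := by
        rw [← sq_abs]
        nlinarith [abs_nonneg u]
      linarith
    · push Not at h
      have h5 : |u / 2| = |u| / 2 := by rw [abs_div]; norm_num
      have h6 := ih (u / 2) (by rw [h5]; linarith) (by rw [h5, pow_succ] at *; linarith)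
      have h7 := dyad_step u
      rw [h5] at h6
      linarith

theorem dyad : S_DYAD := by
  intro u
  refine ⟨dyad_summable u, ?_⟩
  by_cases h : |u| ≤ 1
  · have := dyad_tsum_le_sq u
    have h4 : u ^ 2 ≤ |u| := by
      rw [← sq_abs]
      nlinarith [abs_nonneg u]
    linarith [abs_nonneg u]
  · push Not at h
    obtain ⟨n, hn⟩ := pow_unbounded_of_one_lt |u| (one_lt_two (α := ℝ))
    have := dyad_small n u h.le hn.le
    linarith [abs_nonneg u]

end Pool.Agent.Helper53K9.WC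

end
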