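import Pool.Agent.Helper53K9.WC.Defs

open MeasureTheory Set Filter Topology

noncomputable section

namespace Pool.Agent.Helper53K9.WC

namespace FinP

/-- `a·d` -/
def dot (a : ℕ → ℝ) (d : ℕ →₀ ℤ) : ℝ := d.sum (fun i k => a i * (k:ℝ))

lemma dot_add_single (a : ℕ → ℝ) (d : ℕ →₀ ℤ) (i : ℕ) :
    dot a (d + Finsupp.single i 1) = dot a d + a i := by
  unfold dot
  rw [Finsupp.sum_add_index']
  · rw [Finsupp.sum_single_index] <;> simp
  · intro j; simp
  · intro j m n; push_cast; ring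

lemma dot_zero (a : ℕ → ℝ) : dot a 0 = 0 := by simp [dot]

/-- `∏ ε_i^{-d_i}` -/
def epr (d : ℕ →₀ ℤ) : ℝ := d.prod (fun i k => (ep i) ^ (-k))

lemma ep_pos (i : ℕ) : 0 < ep i := by unfold ep; positivity

lemma dl_pos (i : ℕ) : 0 < dl i := by unfold dl; positivity

lemma epr_pos (d : ℕ →₀ ℤ) : 0 < epr d := by
  unfold epr Finsupp.prod
  exact Finset.prod_pos (fun i _ => zpow_pos (ep_pos i) _)

lemma epr_zero : epr 0 = 1 := by simp [epr]

lemma epr_add_single (d : ℕ →₀ ℤ) (i : ℕ) :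
    epr (d + Finsupp.single i 1) * ep i = epr d := by
  unfold epr
  rw [Finsupp.prod_add_index']
  · rw [Finsupp.prod_single_index (by simp)]
    rw [mul_assoc, zpow_neg, zpow_one, inv_mul_cancel₀ (ep_pos i).ne', mul_one]
  · intro j; simp
  · intro j m n
    rw [neg_add, zpow_add₀ (ep_pos j).ne']

/-- `E(d) = ν^{-d}` -/
def E (p : Par) (d : ℕ →₀ ℤ) : ℝ := Real.exp (dot p.b d) * epr d

lemma E_pos (p : Par) (d : ℕ →₀ ℤ) : 0 < E p d := mul_pos (Real.exp_pos _) (epr_pos d)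

lemma E_zero (p : Par) : E p 0 = 1 := by simp [E, dot_zero, epr_zero]

lemma nu_E (p : Par) (d : ℕ →₀ ℤ) (i : ℕ) :
    p.nu i * E p (d + Finsupp.single i 1) = E p d := by
  unfold E Par.nu
  rw [dot_add_single, ← epr_add_single d i, Real.exp_add, Real.exp_neg]
  have := (Real.exp_pos (p.b i)).ne'
  field_simp

/-- the extended base function -/
def GG (p : Par) (t σ : ℝ) : ℂ := p.gs ((t:ℂ) - ((max σ 0 : ℝ) : ℂ) * Complex.I)

lemma Pd_le {p : Par} (hp : p.Good) (hB : S_BASE) (u : ℝ) (l : ℕ) :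
    p.Pd u ≤ p.e l + p.τ l * |u| := by
  have h1 := hp.P_le l u
  have h2 := (hB p hp).2.2.2.1 u
  unfold Par.Pd
  linarith

lemma GG_bound {p : Par} (hp : p.Good) (hB : S_BASE) (l : ℕ) (t σ : ℝ) (hσ : 0 ≤ σ) :
    ‖GG p t σ‖ ≤ Real.exp (p.e l) * (Real.exp (-(p.x l * σ)) * Real.exp (p.Pd t)) := by
  have h := (hB p hp).2.2.1 l t σ hσ
  unfold GG
  rw [max_eq_left hσ]
  refine h.trans (le_of_eq ?_)
  rw [← Real.exp_add, ← Real.exp_add]
  congr 1; ring

lemma im_mem (t σ : ℝ) (hσ : 0 ≤ σ) : ((t:ℂ) - (σ:ℂ) * Complex.I) ∈ {z : ℂ | z.im < 1} := by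
  simp only [mem_ofPred_eq, Complex.sub_im, Complex.ofReal_im, Complex.mul_im, Complex.ofReal_re,
    Complex.I_im, Complex.I_re]
  linarith

lemma gs_bound {p : Par} (hp : p.Good) (hB : S_BASE) (t σ : ℝ) (hσ : 0 ≤ σ) :
    ‖p.gs ((t:ℂ) - (σ:ℂ) * Complex.I)‖ ≤ 1 * Real.exp (-σ + |t| / 4) := by
  have h := (hB p hp).2.2.1 0 t σ hσ
  have h1 := Pd_le hp hB t 0
  have h2 := hp.x_big 0
  have h3 := hp.tau_zero
  have h4 : p.τ 0 * |t| ≤ 1 / 16 * |t| := mul_le_mul_of_nonneg_right h3 (abs_nonneg t)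
  have h5 : 64 * σ ≤ p.x 0 * σ := by
    apply mul_le_mul_of_nonneg_right _ hσ
    norm_num at h2; exact h2
  rw [one_mul]
  refine h.trans (Real.exp_le_exp.2 ?_)
  have := hp.e_zero
  have := abs_nonneg t
  linarith

lemma GG_adm {p : Par} (hp : p.Good) (hB : S_BASE) : Adm (GG p) := by
  refine ⟨?_, 1, ?_⟩
  · have h1 := (hB p hp).1.continuousOn
    unfold GG
    apply h1.comp_continuous
    · fun_prop
    · intro q
      exact im_mem _ _ (le_max_right _ _)
  · intro t σ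
    refine (gs_bound hp hB t (max σ 0) (le_max_right _ _)).trans ?_
    rw [one_mul, one_mul]
    apply Real.exp_le_exp.2
    have := le_max_left σ 0
    linarith

lemma GG_rot {p : Par} (hp : p.Good) (hB : S_BASE) (hR : S_ROT) : Rot (GG p) := by
  intro c hc t σ hσ
  have h := hR (fun z => p.gs (z - (σ:ℂ) * Complex.I)) 1 ?_ ?_ c hc t
  · have e1 : ∫ s in Set.Ioi (0:ℝ), ((Real.exp (-(c * s)) : ℝ) : ℂ) * GG p (t + s) σ =
        ∫ s in Set.Ioi (0:ℝ), ((Real.exp (-(c * s)) : ℝ) : ℂ) *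
          (fun z => p.gs (z - (σ:ℂ) * Complex.I)) ((t:ℂ) + (s:ℂ)) := by
      apply setIntegral_congr_fun measurableSet_Ioi
      intro s hs
      simp only [GG, max_eq_left hσ]
      push_cast
      rfl
    rw [e1, h]
    unfold RR
    congr 1
    apply setIntegral_congr_fun measurableSet_Ioi
    intro r hr
    have hr' : 0 ≤ σ + r := by
      have : (0:ℝ) < r := hr
      linarith
    simp only [GG, max_eq_left hr']
    congr 2
    push_cast
    ring
  · apply (hB p hp).1.comp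
    · fun_prop
    · intro z hz
      simp only [mem_ofPred_eq, Complex.sub_im, Complex.mul_im, Complex.ofReal_re,
        Complex.I_im, Complex.I_re, Complex.ofReal_im] at hz ⊢
      linarith
  · intro u ρ hρ
    have h0 := gs_bound hp hB u (ρ + σ) (by linarith)
    have e : ((u:ℂ) - (ρ:ℂ) * Complex.I) - (σ:ℂ) * Complex.I =
        (u:ℂ) - ((ρ + σ : ℝ) : ℂ) * Complex.I := by push_cast; ring
    simp only [e]
    refine h0.trans ?_
    rw [one_mul, one_mul]
    apply Real.exp_le_exp.2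
    linarith


/-- the terms of the dual function -/
def T (p : Par) (u : (ℕ →₀ ℤ) → ℝ) (F : (ℕ →₀ ℤ) → ℝ → ℝ → ℂ) (d : ℕ →₀ ℤ) (t : ℝ) : ℂ :=
  ((u d * E p d : ℝ) : ℂ) * F d (t - dot p.a d) 0

lemma star_use {p : Par} (hp : p.Good) (hB : S_BASE) (hS : S_STAR) (d : ℕ →₀ ℤ)
    (hd : ∀ i, d i ≤ (p.D i : ℤ)) (t : ℝ) (q : (ℕ →₀ ℕ) × ℕ) :
    p.Pd (t - dot p.a d) + dot p.b d + (1 / 2) * d.sum (fun i k => p.b i * ((-k).toNat : ℝ))
      ≤ p.pt t q := by
  classical
  obtain ⟨m, j⟩ := q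
  set mz : ℕ →₀ ℤ := Finsupp.mapRange (fun n : ℕ => (n:ℤ)) rfl m with hmz
  set n : ℕ →₀ ℤ := mz - d with hn
  have hni : ∀ i, n i = (m i : ℤ) - d i := by
    intro i; simp [hn, hmz]
  set S : Finset ℕ := m.support ∪ d.support with hSd
  have hn_sub : n.support ⊆ S := by
    intro i hi
    by_contra hc
    rw [hSd, Finset.mem_union, not_or, Finsupp.notMem_support_iff, Finsupp.notMem_support_iff] at hc
    rw [Finsupp.mem_support_iff, hni, hc.1, hc.2] at hi
    exact hi (by simp)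
  have key := hS p hp p.Pd (fun u l => Pd_le hp hB u l) ?_ n ?_ (t - dot p.a d) j
  · have e1 : n.sum (fun i k => p.b i * (k.toNat : ℝ)) =
        ∑ i ∈ S, p.b i * (((m i : ℤ) - d i).toNat : ℝ) := by
      rw [Finsupp.sum_of_support_subset _ hn_sub _ (by intro i _; simp)]
      exact Finset.sum_congr rfl (fun i _ => by rw [hni])
    have e2 : n.sum (fun i k => p.b i * ((-k).toNat : ℝ)) =
        ∑ i ∈ S, p.b i * ((-((m i : ℤ) - d i)).toNat : ℝ) := by
      rw [Finsupp.sum_of_support_subset _ hn_sub _ (by intro i _; simp)]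
      exact Finset.sum_congr rfl (fun i _ => by rw [hni])
    have e3 : n.sum (fun i k => p.a i * (k : ℝ)) =
        ∑ i ∈ S, p.a i * ((m i : ℝ) - (d i : ℝ)) := by
      rw [Finsupp.sum_of_support_subset _ hn_sub _ (by intro i _; simp)]
      exact Finset.sum_congr rfl (fun i _ => by rw [hni]; push_cast; ring)
    have e4 : dot p.a d = ∑ i ∈ S, p.a i * (d i : ℝ) := by
      unfold dot
      rw [Finsupp.sum_of_support_subset _ Finset.subset_union_right _ (by intro i _; simp)]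
    have e5 : dot p.b d = ∑ i ∈ S, p.b i * (d i : ℝ) := by
      unfold dot
      rw [Finsupp.sum_of_support_subset _ Finset.subset_union_right _ (by intro i _; simp)]
    have e6 : d.sum (fun i k => p.b i * ((-k).toNat : ℝ)) =
        ∑ i ∈ S, p.b i * ((-(d i)).toNat : ℝ) := by
      rw [Finsupp.sum_of_support_subset _ Finset.subset_union_right _ (by intro i _; simp)]
    have e7 : m.sum (fun i m => p.b i * (m:ℝ)) = ∑ i ∈ S, p.b i * (m i : ℝ) := by
      rw [Finsupp.sum_of_support_subset _ Finset.subset_union_left _ (by intro i _; simp)]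
    have e8 : m.sum (fun i m => p.a i * (m:ℝ)) = ∑ i ∈ S, p.a i * (m i : ℝ) := by
      rw [Finsupp.sum_of_support_subset _ Finset.subset_union_left _ (by intro i _; simp)]
    have e9 : t - dot p.a d - n.sum (fun i k => p.a i * (k : ℝ)) =
        t - m.sum (fun i m => p.a i * (m:ℝ)) := by
      rw [e3, e4, e8]
      have : ∑ i ∈ S, p.a i * ((m i : ℝ) - (d i : ℝ)) =
          ∑ i ∈ S, p.a i * (m i : ℝ) - ∑ i ∈ S, p.a i * (d i : ℝ) := by
        rw [← Finset.sum_sub_distrib]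
        exact Finset.sum_congr rfl (fun i _ => by ring)
      rw [this]; ring
    rw [e9] at key
    have hterm : (1 / 2) * n.sum (fun i k => p.b i * (k.toNat : ℝ))
      - n.sum (fun i k => p.b i * ((-k).toNat : ℝ)) + dot p.b d +
        (1 / 2) * d.sum (fun i k => p.b i * ((-k).toNat : ℝ)) ≤
        m.sum (fun i m => p.b i * (m:ℝ)) := by
      rw [e1, e2, e5, e6, e7, Finset.mul_sum, Finset.mul_sum, ← Finset.sum_sub_distrib,
        ← Finset.sum_add_distrib, ← Finset.sum_add_distrib]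
      apply Finset.sum_le_sum
      intro i _
      have hb := hp.b_pos i
      have hx : (1 / 2 : ℝ) * (((m i : ℤ) - d i).toNat : ℝ) - ((-((m i : ℤ) - d i)).toNat : ℝ) +
          (d i : ℝ) + 1 / 2 * ((-(d i)).toNat : ℝ) ≤ (m i : ℝ) := by
        have h1 : (((m i : ℤ) - d i).toNat : ℤ) - ((-((m i : ℤ) - d i)).toNat : ℤ) =
            (m i : ℤ) - d i := Int.toNat_sub_toNat_neg _
        have h2 : ((-(d i)).toNat : ℤ) ≤ (((m i : ℤ) - d i).toNat : ℤ) := by
          have : (-(d i)).toNat ≤ ((m i : ℤ) - d i).toNat := by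
            apply Int.toNat_le_toNat
            have : (0:ℤ) ≤ (m i : ℤ) := by positivity
            omega
          exact_mod_cast this
        have h1' : (((m i : ℤ) - d i).toNat : ℝ) - ((-((m i : ℤ) - d i)).toNat : ℝ) =
            (m i : ℝ) - (d i : ℝ) := by exact_mod_cast h1
        have h2' : ((-(d i)).toNat : ℝ) ≤ (((m i : ℤ) - d i).toNat : ℝ) := by exact_mod_cast h2
        linarith
      have := mul_le_mul_of_nonneg_left hx hb.le
      linarith
    unfold Par.pt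
    simp only
    linarith
  · intro u l hul j
    have h1 := hp.P_le j u
    have h2 := (hB p hp).2.2.2.2 u l hul
    have h3 := hp.C7 l
    unfold Par.Pd
    linarith
  · intro i
    rw [hni]
    have := hd i
    have : (0:ℤ) ≤ (m i : ℤ) := by positivity
    omega

lemma cc_zero : cc 0 = 1 := by simp [cc]

lemma cc_pos (d : ℕ →₀ ℤ) : 0 < cc d := by
  unfold cc Finsupp.prod
  exact Finset.prod_pos (fun i _ => by positivity)

/-- the properties of the coefficients -/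
structure UU (p : Par) (u : (ℕ →₀ ℤ) → ℝ) : Prop where
  zero : u 0 = 1
  van : ∀ d i, (p.D i : ℤ) < d i → u d = 0
  hs : ∀ d, HasSum (fun i : ℕ => u (d + Finsupp.single i 1)) (u d)
  bd : ∀ d, |u d| ≤ d.prod (fun i k => ((2:ℝ) ^ i) ^ k.toNat * (be p.D i) ^ (-k).toNat)
  sp : ∀ (d : ℕ →₀ ℤ) (i : ℕ), 0 < d (i + 1) → (∀ j, i + 1 < j → d j = 0) → u d ≠ 0 →
    (p.D i : ℤ) + 1 ≤ d i + d (i + 1)

/-- the properties of the family -/
structure FF (p : Par) (F : (ℕ →₀ ℤ) → ℝ → ℝ → ℂ) : Prop where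
  zero : F 0 = GG p
  adm : ∀ d, Adm (F d)
  rot : ∀ d, Rot (F d)
  rec2 : ∀ d i, ((dl i : ℂ)⁻¹) • RR (1 + 1 / dl i) (F (d + Finsupp.single i 1)) = RR 1 (F d)
  bd : ∀ (x B : ℝ) (Ω : ℝ → ℝ), 0 < x → 0 ≤ B → (∀ t, 0 ≤ Ω t) →
    (∀ t σ, 0 ≤ σ → ‖GG p t σ‖ ≤ B * (Real.exp (-(x * σ)) * Ω t)) →
    ∀ d : ℕ →₀ ℤ, (∀ i, d i < 0 → 1 / dl i ≤ x) → ∀ t σ, 0 ≤ σ →
      ‖F d t σ‖ ≤ (B * d.prod (fun i k => (dl i + 1 / x) ^ k.toNat * (2 / dl i) ^ (-k).toNat)) *
        (Real.exp (-(x * σ)) * Ω t)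

lemma x_pos {p : Par} (hp : p.Good) (l : ℕ) : 0 < p.x l :=
  lt_of_lt_of_le (by positivity) (hp.x_big l)

lemma T_bound {p : Par} (hp : p.Good) (hB : S_BASE) (hS : S_STAR) (hW : S_WT) (hC : S_COEF)
    {u : (ℕ →₀ ℤ) → ℝ} (hu : UU p u) {F : (ℕ →₀ ℤ) → ℝ → ℝ → ℂ} (hF : FF p F)
    (d : ℕ →₀ ℤ) (t : ℝ) : ‖T p u F d t‖ ≤ cc d * Real.exp (p.pw t) := by
  by_cases hud : u d = 0
  · unfold T
    rw [hud]
    simp only [zero_mul, Complex.ofReal_zero, norm_zero]
    exact mul_nonneg (cc_pos d).le (Real.exp_pos _).le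
  have hd : ∀ i, d i ≤ (p.D i : ℤ) := by
    intro i
    by_contra hc
    exact hud (hu.van d i (not_le.1 hc))
  have hstar := star_use hp hB hS d hd t
  have hpw := (hW p hp).2.2.1 t _ hstar
  by_cases hd0 : d = 0
  · subst hd0
    unfold T
    rw [hu.zero, hF.zero, E_zero, dot_zero, sub_zero, cc_zero, one_mul, one_mul]
    simp only [Complex.ofReal_one, one_mul]
    have h1 := GG_bound hp hB 0 t 0 le_rfl
    rw [hp.e_zero, Real.exp_zero, mul_zero, neg_zero, Real.exp_zero, one_mul, one_mul] at h1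
    refine h1.trans (Real.exp_le_exp.2 ?_)
    simp only [dot_zero, Finsupp.sum_zero_index, sub_zero, add_zero, mul_zero] at hpw
    exact hpw
  obtain ⟨l, hl1, hl2⟩ := hC p hp u hu.bd hu.sp d hd0
  have h1 := hF.bd (p.x l) (Real.exp (p.e l)) (fun t => Real.exp (p.Pd t)) (x_pos hp l)
    (Real.exp_pos _).le (fun t => (Real.exp_pos _).le)
    (fun t σ hσ => GG_bound hp hB l t σ hσ) d hl1 (t - dot p.a d) 0 le_rfl
  rw [mul_zero, neg_zero, Real.exp_zero, one_mul] at h1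
  set PR := d.prod (fun i k => (dl i + 1 / p.x l) ^ k.toNat * (2 / dl i) ^ (-k).toNat) with hPR
  set BD := d.sum (fun i k => p.b i * ((-k).toNat : ℝ)) with hBD
  have hT : ‖T p u F d t‖ = |u d| * E p d * ‖F d (t - dot p.a d) 0‖ := by
    unfold T
    rw [norm_mul, Complex.norm_real, Real.norm_eq_abs, abs_mul, abs_of_pos (E_pos p d)]
  rw [hT]
  have h3 : |u d| * E p d * ‖F d (t - dot p.a d) 0‖ ≤
      |u d| * E p d * (Real.exp (p.e l) * PR * Real.exp (p.Pd (t - dot p.a d))) := by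
    apply mul_le_mul_of_nonneg_left h1
    exact mul_nonneg (abs_nonneg _) (E_pos p d).le
  refine h3.trans ?_
  have h4 : |u d| * E p d * (Real.exp (p.e l) * PR * Real.exp (p.Pd (t - dot p.a d))) =
      (|u d| * epr d * (Real.exp (p.e l) * PR) * Real.exp (-((1 / 2) * BD))) *
        Real.exp (p.Pd (t - dot p.a d) + dot p.b d + (1 / 2) * BD) := by
    rw [Real.exp_add, Real.exp_add, Real.exp_neg]
    unfold E
    have := (Real.exp_pos ((1 / 2) * BD)).ne'
    field_simp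
  rw [h4]
  have h5 : |u d| * epr d * (Real.exp (p.e l) * PR) * Real.exp (-((1 / 2) * BD)) ≤ cc d := hl2
  calc _ ≤ cc d * Real.exp (p.Pd (t - dot p.a d) + dot p.b d + (1 / 2) * BD) :=
        mul_le_mul_of_nonneg_right h5 (Real.exp_pos _).le
    _ ≤ _ := mul_le_mul_of_nonneg_left (Real.exp_le_exp.2 hpw) (cc_pos d).le


/-- the weight -/
def ph (p : Par) (t : ℝ) : ℝ := Real.exp (p.pw t)

lemma ph_pos (p : Par) (t : ℝ) : 0 < ph p t := Real.exp_pos _

lemma ph_le {p : Par} (hp : p.Good) (hW : S_WT) (t : ℝ) : ph p t ≤ Real.exp (|t| / 4) :=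
  Real.exp_le_exp.2 ((hW p hp).2.2.2.2.1 t)

lemma ph_add {p : Par} (hp : p.Good) (hW : S_WT) (t r : ℝ) : ph p (t + r) ≤ ph p t * ph p r := by
  unfold ph
  rw [← Real.exp_add]
  exact Real.exp_le_exp.2 ((hW p hp).2.2.2.2.2.2 t r)

lemma ph_a {p : Par} (hp : p.Good) (hW : S_WT) (i : ℕ) (r : ℝ) :
    ph p (p.a i + r) ≤ Real.exp (p.b i + |r| / 4) :=
  Real.exp_le_exp.2 ((hW p hp).2.2.2.2.2.1 i r)

lemma ph_one_le {p : Par} (hp : p.Good) (hW : S_WT) (t : ℝ) : 1 ≤ ph p t :=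
  Real.one_le_exp ((hW p hp).2.2.2.1 t)

lemma ph_zero {p : Par} (hp : p.Good) (hW : S_WT) : ph p 0 = 1 := by
  apply le_antisymm
  · have := ph_le hp hW 0
    simpa using this
  · exact ph_one_le hp hW 0

lemma ph_meas {p : Par} (hp : p.Good) (hW : S_WT) : Measurable (ph p) := (hW p hp).1.1

lemma T_cont (p : Par) (u : (ℕ →₀ ℤ) → ℝ) {F : (ℕ →₀ ℤ) → ℝ → ℝ → ℂ} (hF : FF p F)
    (d : ℕ →₀ ℤ) : Continuous (T p u F d) := by
  unfold T
  have h := (hF.adm d).1
  have h2 : Continuous (fun t : ℝ => F d (t - dot p.a d) 0) :=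
    h.comp (f := fun t : ℝ => ((t - dot p.a d, 0) : ℝ × ℝ)) (by fun_prop)
  exact continuous_const.mul h2

/-- the dual function -/
def g (p : Par) (u : (ℕ →₀ ℤ) → ℝ) (F : (ℕ →₀ ℤ) → ℝ → ℝ → ℂ) (t : ℝ) : ℂ :=
  ∑' d : ℕ →₀ ℤ, T p u F d t

section

variable {p : Par} {u : (ℕ →₀ ℤ) → ℝ} {F : (ℕ →₀ ℤ) → ℝ → ℝ → ℂ}

lemma T_summable (hU : S_SUM)
    (hT : ∀ d t, ‖T p u F d t‖ ≤ cc d * ph p t) (t : ℝ) : Summable (fun d => T p u F d t) :=
  Summable.of_norm_bounded (hU.1.mul_right _) (fun d => hT d t)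

lemma g_bound (hU : S_SUM)
    (hT : ∀ d t, ‖T p u F d t‖ ≤ cc d * ph p t) (t : ℝ) : ‖g p u F t‖ ≤ (3 / 2) * ph p t := by
  unfold g
  have h1 : ‖∑' d : ℕ →₀ ℤ, T p u F d t‖ ≤ ∑' d : ℕ →₀ ℤ, cc d * ph p t :=
    tsum_of_norm_bounded (hU.1.mul_right _).hasSum (fun d => hT d t)
  rw [tsum_mul_right] at h1
  exact h1.trans (mul_le_mul_of_nonneg_right hU.2 (ph_pos p t).le)

lemma g_cont (hp : p.Good) (hU : S_SUM) (hW : S_WT) (hF : FF p F)
    (hT : ∀ d t, ‖T p u F d t‖ ≤ cc d * ph p t) : Continuous (g p u F) := by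
  have h1 : Continuous (fun t : ℝ => ∑' d : ℕ →₀ ℤ,
      ((Real.exp (-(|t| / 4)) : ℝ) : ℂ) * T p u F d t) := by
    apply continuous_tsum _ hU.1
    · intro d t
      rw [norm_mul, Complex.norm_real, Real.norm_eq_abs, abs_of_pos (Real.exp_pos _)]
      have h2 := hT d t
      have h3 := ph_le hp hW t
      calc _ ≤ Real.exp (-(|t| / 4)) * (cc d * Real.exp (|t| / 4)) := by
            apply mul_le_mul_of_nonneg_left _ (Real.exp_pos _).le
            exact h2.trans (mul_le_mul_of_nonneg_left h3 (cc_pos d).le)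
        _ = cc d := by
            rw [Real.exp_neg]
            have := (Real.exp_pos (|t| / 4)).ne'
            field_simp
    · intro d
      have := T_cont p u hF d
      fun_prop
  have h2 : g p u F = fun t : ℝ => ((Real.exp (|t| / 4) : ℝ) : ℂ) * ∑' d : ℕ →₀ ℤ,
      ((Real.exp (-(|t| / 4)) : ℝ) : ℂ) * T p u F d t := by
    funext t
    rw [tsum_mul_left, ← mul_assoc, ← Complex.ofReal_mul, ← Real.exp_add]
    simp [g]
  rw [h2]
  fun_prop

lemma g_zero (hp : p.Good) (hB : S_BASE) (hU : S_SUM) (hW : S_WT) (hu : UU p u) (hF : FF p F)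
    (hT : ∀ d t, ‖T p u F d t‖ ≤ cc d * ph p t) : g p u F 0 ≠ 0 := by
  classical
  have hs := T_summable hU hT 0
  have e := hs.tsum_eq_add_tsum_ite 0
  have hT0 : T p u F 0 0 = 1 := by
    unfold T
    rw [hu.zero, hF.zero, E_zero, dot_zero]
    simp only [sub_zero, mul_one, Complex.ofReal_one, one_mul, GG, max_self, Complex.ofReal_zero,
      zero_mul]
    exact (hB p hp).2.1
  have e2 := hU.1.tsum_eq_add_tsum_ite 0
  have hsum2 : Summable (fun d : ℕ →₀ ℤ => if d = 0 then (0:ℝ) else cc d) := by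
    apply Summable.of_nonneg_of_le _ _ hU.1
    · intro d; split_ifs
      · exact le_rfl
      · exact (cc_pos d).le
    · intro d; split_ifs
      · exact (cc_pos d).le
      · exact le_rfl
  have hb : ‖∑' d : ℕ →₀ ℤ, (if d = 0 then (0:ℂ) else T p u F d 0)‖ ≤
      ∑' d : ℕ →₀ ℤ, (if d = 0 then (0:ℝ) else cc d) := by
    apply tsum_of_norm_bounded hsum2.hasSum
    intro d
    split_ifs
    · simp
    · have := hT d 0
      rw [ph_zero hp hW, mul_one] at this
      exact this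
  rw [cc_zero] at e2
  have h3 : ∑' d : ℕ →₀ ℤ, (if d = 0 then (0:ℝ) else cc d) ≤ 1 / 2 := by
    have := hU.2
    linarith
  intro h0
  unfold g at h0
  rw [e, hT0] at h0
  have h4 : ∑' d : ℕ →₀ ℤ, (if d = 0 then (0:ℂ) else T p u F d 0) = -1 := by
    linear_combination h0
  rw [h4] at hb
  simp at hb
  linarith

lemma kern (hU : S_SUM) (hF : FF p F)
    (hT : ∀ d t, ‖T p u F d t‖ ≤ cc d * ph p t) (κ : ℝ → ℝ) (hκ : Continuous κ)
    (hκ0 : ∀ r, 0 ≤ κ r) (s0 : ℝ)
    (hint : IntegrableOn (fun r => κ r * ph p (r + s0)) (Set.Ioi 0)) :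
    HasSum (fun d => ∫ r in Set.Ioi (0:ℝ), ((κ r : ℝ) : ℂ) * T p u F d (r + s0))
      (∫ r in Set.Ioi (0:ℝ), ((κ r : ℝ) : ℂ) * g p u F (r + s0)) ∧
    ∀ d, ‖∫ r in Set.Ioi (0:ℝ), ((κ r : ℝ) : ℂ) * T p u F d (r + s0)‖ ≤
      cc d * ∫ r in Set.Ioi (0:ℝ), κ r * ph p (r + s0) := by
  have hb : ∀ d r, ‖((κ r : ℝ) : ℂ) * T p u F d (r + s0)‖ ≤ cc d * (κ r * ph p (r + s0)) := by
    intro d r
    rw [norm_mul, Complex.norm_real, Real.norm_eq_abs, abs_of_nonneg (hκ0 r)]
    have := mul_le_mul_of_nonneg_left (hT d (r + s0)) (hκ0 r)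
    linarith
  have hc : ∀ d, Continuous (fun r : ℝ => ((κ r : ℝ) : ℂ) * T p u F d (r + s0)) := by
    intro d
    have h1 := T_cont p u hF d
    have h2 : Continuous (fun r : ℝ => T p u F d (r + s0)) := h1.comp (by fun_prop)
    fun_prop
  have hi : ∀ d, Integrable (fun r : ℝ => ((κ r : ℝ) : ℂ) * T p u F d (r + s0))
      (volume.restrict (Set.Ioi 0)) := by
    intro d
    exact Integrable.mono' (hint.const_mul (cc d)) (hc d).aestronglyMeasurable
      (Filter.Eventually.of_forall (hb d))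
  have hn : ∀ d, ∫ r in Set.Ioi (0:ℝ), ‖((κ r : ℝ) : ℂ) * T p u F d (r + s0)‖ ≤
      cc d * ∫ r in Set.Ioi (0:ℝ), κ r * ph p (r + s0) := by
    intro d
    rw [← integral_const_mul]
    exact integral_mono (hi d).norm (hint.const_mul (cc d)) (hb d)
  refine ⟨?_, ?_⟩
  · have h := hasSum_integral_of_summable_integral_norm (μ := volume.restrict (Set.Ioi (0:ℝ)))
      (F := fun (d : ℕ →₀ ℤ) (r : ℝ) => ((κ r : ℝ) : ℂ) * T p u F d (r + s0)) hi ?_
    · have e : ∫ r in Set.Ioi (0:ℝ), ((κ r : ℝ) : ℂ) * g p u F (r + s0) =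
          ∫ r in Set.Ioi (0:ℝ), ∑' d : ℕ →₀ ℤ, ((κ r : ℝ) : ℂ) * T p u F d (r + s0) := by
        congr 1
        funext r
        rw [tsum_mul_left]
        rfl
      rw [e]
      exact h
    · exact Summable.of_nonneg_of_le (fun d => integral_nonneg (fun r => norm_nonneg _)) hn
        (hU.1.mul_right _)
  · intro d
    exact (norm_integral_le_integral_norm _).trans (hn d)


/-- `Z_d = E(d) (R_1 F_d)(y - a·d, 0)` -/
def ZZ (p : Par) (F : (ℕ →₀ ℤ) → ℝ → ℝ → ℂ) (y : ℝ) (d : ℕ →₀ ℤ) : ℂ :=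
  (E p d : ℂ) * RR 1 (F d) (y - dot p.a d) 0

lemma intT (hF : FF p F) (y : ℝ) (d : ℕ →₀ ℤ) :
    ∫ s in Set.Ioi (0:ℝ), ((Real.exp (-s) : ℝ) : ℂ) * T p u F d (s + y) =
      (u d : ℂ) * ZZ p F y d := by
  have h := hF.rot d 1 le_rfl (y - dot p.a d) 0 le_rfl
  unfold ZZ
  rw [← h, ← mul_assoc, ← integral_const_mul]
  congr 1
  funext s
  unfold T
  have e : s + y - dot p.a d = y - dot p.a d + s := by ring
  rw [e, one_mul]
  push_cast
  ring

lemma intW (hF : FF p F) (y : ℝ) (d : ℕ →₀ ℤ) (i : ℕ) :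
    (p.nu i : ℂ) * ∫ r in Set.Ioi (0:ℝ), ((wk (dl i) r : ℝ) : ℂ) *
      T p u F (d + Finsupp.single i 1) (r + (p.a i + y)) =
      (u (d + Finsupp.single i 1) : ℂ) * ZZ p F y d := by
  have hdl := dl_pos i
  have h := hF.rot (d + Finsupp.single i 1) (1 + 1 / dl i)
    (by have := div_pos one_pos hdl; linarith) (y - dot p.a d) 0 le_rfl
  have h2 := congrFun (congrFun (hF.rec2 d i) (y - dot p.a d)) 0
  simp only [Pi.smul_apply, smul_eq_mul] at h2
  unfold ZZ
  rw [← h2, ← h, ← nu_E p d i]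
  rw [← integral_const_mul, ← integral_const_mul, ← integral_const_mul, ← integral_const_mul]
  congr 1
  funext s
  unfold T wk
  rw [dot_add_single]
  have e : s + (p.a i + y) - (dot p.a d + p.a i) = y - dot p.a d + s := by ring
  rw [e]
  push_cast
  ring

lemma intK1 (hp : p.Good) (hW : S_WT) (y : ℝ) :
    IntegrableOn (fun s => Real.exp (-s) * ph p (s + y)) (Set.Ioi 0) := by
  have h1 : IntegrableOn (fun s : ℝ => ph p y * Real.exp ((-(3/4)) * s)) (Set.Ioi 0) :=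
    (integrableOn_exp_mul_Ioi (by norm_num) 0).const_mul _
  refine Integrable.mono' h1 ?_ ?_
  · have h2 := ph_meas hp hW
    have h3 : Measurable (fun s : ℝ => Real.exp (-s) * ph p (s + y)) := by
      have h4 : Measurable (fun s : ℝ => ph p (s + y)) := h2.comp (measurable_add_const y)
      have h5 : Measurable (fun s : ℝ => Real.exp (-s)) := by fun_prop
      exact h5.mul h4
    exact h3.aestronglyMeasurable
  · filter_upwards [ae_restrict_mem measurableSet_Ioi] with s hs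
    have hs0 : (0:ℝ) < s := hs
    rw [Real.norm_eq_abs, abs_of_pos (mul_pos (Real.exp_pos _) (ph_pos p _))]
    have h2 := ph_add hp hW s y
    have h3 := ph_le hp hW s
    rw [abs_of_pos hs0] at h3
    calc Real.exp (-s) * ph p (s + y) ≤ Real.exp (-s) * (Real.exp (s / 4) * ph p y) := by
          apply mul_le_mul_of_nonneg_left _ (Real.exp_pos _).le
          exact h2.trans (mul_le_mul_of_nonneg_right h3 (ph_pos p y).le)
      _ = ph p y * Real.exp ((-(3/4)) * s) := by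
          have : (-(3/4)) * s = -s + s / 4 := by ring
          rw [this, Real.exp_add]
          ring

lemma wk_pos (i : ℕ) (r : ℝ) : 0 < wk (dl i) r :=
  mul_pos (inv_pos.2 (dl_pos i)) (Real.exp_pos _)

lemma wk_cont (i : ℕ) : Continuous (wk (dl i)) := by
  unfold wk
  fun_prop

lemma K2_bound (hp : p.Good) (hW : S_WT) (y : ℝ) (i : ℕ) (r : ℝ) (hr : 0 < r) :
    wk (dl i) r * ph p (r + (p.a i + y)) ≤
      (ph p y * Real.exp (p.b i) * (dl i)⁻¹) * Real.exp ((-(3/4 + 1 / dl i)) * r) := by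
  have h1 := ph_add hp hW (p.a i + r) y
  have h2 := ph_a hp hW i r
  rw [abs_of_pos hr] at h2
  have e : r + (p.a i + y) = p.a i + r + y := by ring
  rw [e]
  calc wk (dl i) r * ph p (p.a i + r + y) ≤
        wk (dl i) r * (Real.exp (p.b i + r / 4) * ph p y) := by
        apply mul_le_mul_of_nonneg_left _ (wk_pos i r).le
        exact h1.trans (mul_le_mul_of_nonneg_right h2 (ph_pos p y).le)
    _ = _ := by
        unfold wk
        have : (-(3/4 + 1 / dl i)) * r = -((1 + 1 / dl i) * r) + r / 4 := by ring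
        rw [this, Real.exp_add, Real.exp_add]
        ring

lemma intK2 (hp : p.Good) (hW : S_WT) (y : ℝ) (i : ℕ) :
    IntegrableOn (fun r => wk (dl i) r * ph p (r + (p.a i + y))) (Set.Ioi 0) ∧
    ∫ r in Set.Ioi (0:ℝ), wk (dl i) r * ph p (r + (p.a i + y)) ≤ ph p y * Real.exp (p.b i) := by
  have hdl := dl_pos i
  have hneg : (-(3/4 + 1 / dl i)) < 0 := by
    have := div_pos one_pos hdl
    linarith
  have h1 : IntegrableOn (fun r : ℝ => (ph p y * Real.exp (p.b i) * (dl i)⁻¹) *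
      Real.exp ((-(3/4 + 1 / dl i)) * r)) (Set.Ioi 0) :=
    (integrableOn_exp_mul_Ioi hneg 0).const_mul _
  have h2 : IntegrableOn (fun r => wk (dl i) r * ph p (r + (p.a i + y))) (Set.Ioi 0) := by
    refine Integrable.mono' h1 ?_ ?_
    · have h4 : Measurable (fun r : ℝ => ph p (r + (p.a i + y))) :=
        (ph_meas hp hW).comp (measurable_add_const _)
      exact ((wk_cont i).measurable.mul h4).aestronglyMeasurable
    · filter_upwards [ae_restrict_mem measurableSet_Ioi] with r hr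
      rw [Real.norm_eq_abs, abs_of_pos (mul_pos (wk_pos i r) (ph_pos p _))]
      exact K2_bound hp hW y i r hr
  refine ⟨h2, ?_⟩
  have h3 : ∫ r in Set.Ioi (0:ℝ), wk (dl i) r * ph p (r + (p.a i + y)) ≤
      ∫ r in Set.Ioi (0:ℝ), (ph p y * Real.exp (p.b i) * (dl i)⁻¹) *
      Real.exp ((-(3/4 + 1 / dl i)) * r) := by
    apply setIntegral_mono_on h2 h1 measurableSet_Ioi
    intro r hr
    exact K2_bound hp hW y i r hr
  refine h3.trans ?_
  rw [integral_const_mul, integral_exp_mul_Ioi hneg]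
  rw [mul_zero, Real.exp_zero]
  have h5 : (dl i)⁻¹ * (-1 / -(3/4 + 1 / dl i)) ≤ 1 := by
    have h6 : -1 / -(3/4 + 1 / dl i) = dl i / (3/4 * dl i + 1) := by
      field_simp
    rw [h6, inv_mul_eq_div, div_div, div_le_one (by positivity)]
    nlinarith
  have h7 : 0 < ph p y * Real.exp (p.b i) := mul_pos (ph_pos p y) (Real.exp_pos _)
  calc ph p y * Real.exp (p.b i) * (dl i)⁻¹ * (-1 / -(3/4 + 1 / dl i)) =
        (ph p y * Real.exp (p.b i)) * ((dl i)⁻¹ * (-1 / -(3/4 + 1 / dl i))) := by ring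
    _ ≤ (ph p y * Real.exp (p.b i)) * 1 := mul_le_mul_of_nonneg_left h5 h7.le
    _ = _ := mul_one _

lemma nu_pos (p : Par) (i : ℕ) : 0 < p.nu i := mul_pos (ep_pos i) (Real.exp_pos _)

lemma summable_ep : Summable ep := by
  unfold ep
  simp_rw [pow_succ]
  exact (summable_geometric_of_lt_one (by norm_num) (by norm_num)).mul_right _

lemma main_int (hp : p.Good) (hU : S_SUM) (hW : S_WT) (hu : UU p u) (hF : FF p F)
    (hT : ∀ d t, ‖T p u F d t‖ ≤ cc d * ph p t) (y : ℝ) :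
    (∫ s in Set.Ioi (0:ℝ), ((Real.exp (-s) : ℝ) : ℂ) * g p u F (s + y)) -
      ∑' i : ℕ, (p.nu i : ℂ) * ∫ r in Set.Ioi (0:ℝ), ((wk (dl i) r : ℝ) : ℂ) *
        g p u F (r + p.a i + y) = 0 := by
  have hA := kern hU hF hT (fun s => Real.exp (-s)) (by fun_prop) (fun r => (Real.exp_pos _).le) y
    (intK1 hp hW y)
  have hBk := fun i => kern hU hF hT (wk (dl i)) (wk_cont i) (fun r => (wk_pos i r).le) (p.a i + y)
    (intK2 hp hW y i).1
  set Φ : ℕ → (ℕ →₀ ℤ) → ℂ := fun i d => (u (d + Finsupp.single i 1) : ℂ) * ZZ p F y d with hΦ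
  have hΦb : ∀ i d, ‖Φ i d‖ ≤ ep i * ph p y * cc (d + Finsupp.single i 1) := by
    intro i d
    rw [hΦ]
    simp only
    rw [← intW hF y d i, norm_mul, Complex.norm_real, Real.norm_eq_abs, abs_of_pos (nu_pos p i)]
    have h1 := (hBk i).2 (d + Finsupp.single i 1)
    have h2 := (intK2 hp hW y i).2
    calc _ ≤ p.nu i * (cc (d + Finsupp.single i 1) * (ph p y * Real.exp (p.b i))) := by
          apply mul_le_mul_of_nonneg_left _ (nu_pos p i).le
          exact h1.trans (mul_le_mul_of_nonneg_left h2 (cc_pos _).le)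
      _ = _ := by
          unfold Par.nu
          rw [Real.exp_neg]
          have := (Real.exp_pos (p.b i)).ne'
          field_simp
  have hccs : ∀ i : ℕ, Summable (fun d : ℕ →₀ ℤ => cc (d + Finsupp.single i 1)) := by
    intro i
    exact (Equiv.addRight (Finsupp.single i (1:ℤ))).summable_iff.2 hU.1
  have hcct : ∀ i : ℕ, ∑' d : ℕ →₀ ℤ, cc (d + Finsupp.single i 1) = ∑' d, cc d := by
    intro i
    exact (Equiv.addRight (Finsupp.single i (1:ℤ))).tsum_eq cc
  have hsum : Summable (Function.uncurry Φ) := by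
    have h1 : Summable (fun q : ℕ × (ℕ →₀ ℤ) =>
        ep q.1 * ph p y * cc (q.2 + Finsupp.single q.1 1)) := by
      rw [summable_prod_of_nonneg]
      · refine ⟨fun i => (hccs i).mul_left (ep i * ph p y), ?_⟩
        have : (fun i : ℕ => ∑' d : ℕ →₀ ℤ, ep i * ph p y * cc (d + Finsupp.single i 1)) =
            fun i : ℕ => ep i * (ph p y * ∑' d, cc d) := by
          funext i
          rw [tsum_mul_left, hcct i]; ring
        simp only
        rw [this]
        exact summable_ep.mul_right _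
      · intro q
        exact mul_nonneg (mul_nonneg (ep_pos _).le (ph_pos p y).le) (cc_pos _).le
    exact Summable.of_norm_bounded h1 (fun q => hΦb q.1 q.2)
  have hcomm := hsum.tsum_comm
  have hI : ∀ i : ℕ, (p.nu i : ℂ) * ∫ r in Set.Ioi (0:ℝ), ((wk (dl i) r : ℝ) : ℂ) *
        g p u F (r + p.a i + y) = ∑' d, Φ i d := by
    intro i
    have h1 : ∫ r in Set.Ioi (0:ℝ), ((wk (dl i) r : ℝ) : ℂ) * g p u F (r + p.a i + y) =
        ∫ r in Set.Ioi (0:ℝ), ((wk (dl i) r : ℝ) : ℂ) * g p u F (r + (p.a i + y)) := by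
      simp_rw [add_assoc]
    rw [h1, ← (hBk i).1.tsum_eq, ← tsum_mul_left]
    rw [← (Equiv.addRight (Finsupp.single i (1:ℤ))).tsum_eq]
    congr 1
    funext d
    exact intW hF y d i
  have hII : ∑' i : ℕ, ((p.nu i : ℂ) * ∫ r in Set.Ioi (0:ℝ), ((wk (dl i) r : ℝ) : ℂ) *
        g p u F (r + p.a i + y)) = ∑' d, (u d : ℂ) * ZZ p F y d := by
    simp_rw [hI]
    rw [← hcomm]
    congr 1
    funext d
    rw [hΦ]
    simp only
    rw [tsum_mul_right]
    congr 1
    have := (Complex.hasSum_ofReal.2 (hu.hs d)).tsum_eq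
    exact this
  rw [hII, ← hA.1.tsum_eq]
  rw [sub_eq_zero]
  congr 1
  funext d
  exact intT hF y d

end

end FinP

open FinP in
theorem fin_of (hP : S_PAR) (hB : S_BASE) (hS : S_STAR) (hW : S_WT) (hR : S_ROT) (hO : S_OPF)
    (hM : S_COMB) (hC : S_COEF) (hU : S_SUM) (h1 : S_FUN1) (h2 : S_FUN2) : S_FIN := by
  obtain ⟨p, hp⟩ := hP
  obtain ⟨u, u1, u2, u3, u4, u5⟩ := hM p.D (fun l => by
    have := hp.D_big l
    have h3 : 1 ≤ 3 * (l + 3) ^ 2 := Nat.one_le_iff_ne_zero.2 (by positivity)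
    exact h3.trans this)
  have hu : UU p u := ⟨u1, u2, u3, u4, u5⟩
  obtain ⟨F, F1, F2, F3, F4, F5, F6⟩ := hO (GG p) (GG_adm hp hB) (GG_rot hp hB hR)
  have hF : FF p F := ⟨F1, F2, F3, F5, F6⟩
  have hT : ∀ d t, ‖T p u F d t‖ ≤ cc d * ph p t := fun d t => T_bound hp hB hS hW hC hu hF d t
  have hph : ∀ r, 0 ≤ r → ph p r ≤ Real.exp (r / 4) := by
    intro r hr
    have := ph_le hp hW r
    rwa [abs_of_nonneg hr] at this
  have hpa : ∀ i r, 0 ≤ r → ph p (p.a i + r) ≤ Real.exp (p.b i + r / 4) := by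
    intro i r hr
    have := ph_a hp hW i r
    rwa [abs_of_nonneg hr] at this
  obtain ⟨hL1, hint⟩ := h1 p hp (ph p) (ph_meas hp hW) (ph_one_le hp hW)
    (ph_add hp hW) hph hpa
  refine ⟨ph p, ff p, (hW p hp).1, hL1, h2 p hp, ?_⟩
  intro hTC
  have hgc := g_cont hp hU hW hF hT
  have hg0 := g_zero hp hB hU hW hu hF hT
  have hgb := fun t => g_bound hU hT t
  have h := hTC (g p u F) ⟨hgc.aestronglyMeasurable, 3 / 2, Filter.Eventually.of_forall hgb⟩ ?_
  · rw [ae_restrict_iff' measurableSet_Ioi] at h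
    have hopen : IsOpen ({t | g p u F t ≠ 0} ∩ Set.Ioi 0) :=
      (isOpen_ne_fun hgc continuous_const).inter isOpen_Ioi
    have hne : ({t | g p u F t ≠ 0} ∩ Set.Ioi (0:ℝ)).Nonempty := by
      have h3 : {t | g p u F t ≠ 0} ∈ 𝓝 (0:ℝ) :=
        (isOpen_ne_fun hgc continuous_const).mem_nhds hg0
      have h4 : {t | g p u F t ≠ 0} ∈ 𝓝[>] (0:ℝ) := mem_nhdsWithin_of_mem_nhds h3
      exact Filter.nonempty_of_mem (Filter.inter_mem h4 self_mem_nhdsWithin)
    have hpos := hopen.measure_pos volume hne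
    have hz : volume ({t | g p u F t ≠ 0} ∩ Set.Ioi (0:ℝ)) = 0 := by
      refine measure_mono_null ?_ h
      intro t ht
      simp only [mem_compl_iff, mem_ofPred_eq]
      intro hc
      exact ht.1 (hc ht.2)
    exact hpos.ne' hz
  · intro τ hτ
    rw [hint (g p u F) hgc ⟨3 / 2, fun t _ => hgb t⟩ τ hτ]
    exact main_int hp hU hW hu hF hT τ

end Pool.Agent.Helper53K9.WC

end
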