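import Pool.Agent.Helper53K9.WC.Defs

/-!
Leaf FUN1: `f` lies in `L^1_φ`, and the integral against `g` may be taken term by term.
-/

open MeasureTheory Set Filter Topology

noncomputable section

namespace Pool.Agent.Helper53K9.WC

namespace Fun1

lemma dl_pos (i : ℕ) : 0 < dl i := by unfold dl; positivity

lemma ep_pos (i : ℕ) : 0 < ep i := by unfold ep; positivity

lemma nu_pos (p : Par) (i : ℕ) : 0 < p.nu i := mul_pos (ep_pos i) (Real.exp_pos _)

lemma wk_nonneg {δ : ℝ} (h : 0 < δ) (r : ℝ) : 0 ≤ wk δ r := by unfold wk; positivity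

/-- the terms of `f` -/
def hh (p : Par) (i : ℕ) (t : ℝ) : ℝ := p.nu i * (if p.a i ≤ t then wk (dl i) (t - p.a i) else 0)

lemma hh_nonneg (p : Par) (i : ℕ) (t : ℝ) : 0 ≤ hh p i t := by
  unfold hh
  split_ifs
  · exact mul_nonneg (nu_pos p i).le (wk_nonneg (dl_pos i) _)
  · simp

lemma summable_ep : Summable ep := by
  have h := (summable_geometric_of_lt_one (r := (1 / 2 : ℝ)) (by norm_num) (by norm_num)).mul_left
    (1 / 2)
  refine h.congr fun i => ?_
  unfold ep
  rw [pow_succ]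
  ring

lemma be_ge (D : ℕ → ℕ) (l : ℕ) : 2 ≤ be D l := by
  unfold be
  have : (1:ℝ) ≤ ∏ i ∈ Finset.range l, (2 * ((D i : ℝ) + 1)) := by
    refine Finset.induction_on (Finset.range l) (by simp) ?_
    intro i s hi ih
    rw [Finset.prod_insert hi]
    have : (0:ℝ) ≤ D i := Nat.cast_nonneg _
    nlinarith
  linarith

lemma nu_div_le {p : Par} (h : p.Good) (l : ℕ) : p.nu l / dl l ≤ (1 / 8) ^ l := by
  have h8 := h.C8 l
  have h1 : p.nu l / dl l ≤ p.rho l := by
    unfold Par.nu Par.rho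
    have e1 : Real.exp (-(p.b l)) ≤ Real.exp (-(p.b l) / 2) :=
      Real.exp_le_exp.mpr (by linarith [h.b_pos l])
    have e2 := be_ge p.D l
    have e3 := ep_pos l
    have e4 := dl_pos l
    have e5 := Real.exp_pos (-(p.b l) / 2)
    calc ep l * Real.exp (-(p.b l)) / dl l ≤ ep l * Real.exp (-(p.b l) / 2) / dl l := by gcongr
      _ = 1 * ep l * (1 / dl l) * Real.exp (-(p.b l) / 2) := by ring
      _ ≤ be p.D l * ep l * (2 / dl l) * Real.exp (-(p.b l) / 2) := by
          gcongr
          · linarith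
          · norm_num
  have h2 : p.rho l ≤ Real.exp (p.e (l + 1)) * p.rho l := by
    have e1 : 1 ≤ Real.exp (p.e (l + 1)) := Real.one_le_exp (h.e_nonneg _)
    have e2 : 0 ≤ p.rho l := h1.trans' (div_nonneg (nu_pos p l).le (dl_pos l).le)
    nlinarith
  have h3 : (1 / 2 : ℝ) * (1 / 8) ^ ((l + 2) ^ 2) ≤ (1 / 8) ^ l := by
    have e1 : (1 / 8 : ℝ) ^ ((l + 2) ^ 2) ≤ (1 / 8) ^ l :=
      pow_le_pow_of_le_one (by norm_num) (by norm_num) (by nlinarith)
    have e2 : (0:ℝ) < (1 / 8) ^ ((l + 2) ^ 2) := by positivity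
    linarith
  linarith

lemma hh_le {p : Par} (h : p.Good) (i : ℕ) (t : ℝ) : hh p i t ≤ (1 / 8) ^ i := by
  refine le_trans ?_ (nu_div_le h i)
  unfold hh
  split_ifs with ht
  · unfold wk
    have e3 := nu_pos p i
    have e4 := dl_pos i
    have e5 : Real.exp (-((1 + 1 / dl i) * (t - p.a i))) ≤ 1 := by
      rw [Real.exp_le_one_iff]
      have : 0 ≤ (1 + 1 / dl i) * (t - p.a i) := mul_nonneg (by positivity) (by linarith)
      linarith
    calc p.nu i * ((dl i)⁻¹ * Real.exp (-((1 + 1 / dl i) * (t - p.a i))))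
        ≤ p.nu i * ((dl i)⁻¹ * 1) := by gcongr
      _ = p.nu i / dl i := by rw [mul_one]; rfl
  · rw [mul_zero]
    exact div_nonneg (nu_pos p i).le (dl_pos i).le

lemma hh_summable {p : Par} (h : p.Good) (t : ℝ) : Summable fun i => hh p i t :=
  Summable.of_nonneg_of_le (fun i => hh_nonneg p i t) (fun i => hh_le h i t)
    (summable_geometric_of_lt_one (by norm_num) (by norm_num))

lemma hh_meas (p : Par) (i : ℕ) : Measurable (hh p i) := by
  unfold hh wk
  refine Measurable.const_mul (Measurable.ite measurableSet_Ici ?_ measurable_const) _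
  fun_prop

lemma HH_meas {p : Par} (h : p.Good) : Measurable fun t => ∑' i, hh p i t := by
  refine measurable_of_tendsto_metrizable
    (f := fun (n : ℕ) t => ∑ i ∈ Finset.range n, hh p i t) ?_ ?_
  · intro n
    exact Finset.measurable_sum _ fun i _ => hh_meas p i
  · rw [tendsto_pi_nhds]
    intro t
    exact (hh_summable h t).hasSum.tendsto_sum_nat

/-- the majorant of `hh i * φ` -/
def GG (p : Par) (i : ℕ) (t : ℝ) : ℝ :=
  (Ioi (p.a i)).indicator (fun t => ep i * ((dl i)⁻¹ * Real.exp (-(dl i)⁻¹ * (t - p.a i)))) t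

lemma GG_integrable (p : Par) (i : ℕ) : Integrable (GG p i) := by
  unfold GG
  rw [integrable_indicator_iff measurableSet_Ioi]
  have h1 : IntegrableOn (fun t : ℝ => Real.exp (-(dl i)⁻¹ * t)) (Ioi (p.a i)) :=
    integrableOn_exp_mul_Ioi (by have := dl_pos i; simp; positivity) _
  have h2 := (h1.const_mul (ep i * (dl i)⁻¹ * Real.exp ((dl i)⁻¹ * p.a i)))
  refine IntegrableOn.congr_fun h2 (fun t _ => ?_) measurableSet_Ioi
  have : -(dl i)⁻¹ * (t - p.a i) = (dl i)⁻¹ * p.a i + -(dl i)⁻¹ * t := by ring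
  rw [this, Real.exp_add]
  ring

lemma GG_integral (p : Par) (i : ℕ) : ∫ t, GG p i t = ep i := by
  unfold GG
  rw [integral_indicator measurableSet_Ioi]
  have h0 := dl_pos i
  have h1 : ∀ t : ℝ, ep i * ((dl i)⁻¹ * Real.exp (-(dl i)⁻¹ * (t - p.a i))) =
      (ep i * (dl i)⁻¹ * Real.exp ((dl i)⁻¹ * p.a i)) * Real.exp (-(dl i)⁻¹ * t) := by
    intro t
    have : -(dl i)⁻¹ * (t - p.a i) = (dl i)⁻¹ * p.a i + -(dl i)⁻¹ * t := by ring
    rw [this, Real.exp_add]
    ring
  simp only [h1]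
  rw [integral_const_mul, integral_exp_mul_Ioi (by simp; positivity)]
  have h2 : Real.exp ((dl i)⁻¹ * p.a i) * Real.exp (-(dl i)⁻¹ * p.a i) = 1 := by
    rw [← Real.exp_add, neg_mul, add_neg_cancel, Real.exp_zero]
  have h3 : (dl i)⁻¹ ≠ 0 := by positivity
  calc ep i * (dl i)⁻¹ * Real.exp ((dl i)⁻¹ * p.a i) *
        (-Real.exp (-(dl i)⁻¹ * p.a i) / -(dl i)⁻¹)
      = ep i * ((dl i)⁻¹ / (dl i)⁻¹) *
        (Real.exp ((dl i)⁻¹ * p.a i) * Real.exp (-(dl i)⁻¹ * p.a i)) := by
          rw [neg_div_neg_eq]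
          ring
    _ = ep i := by rw [h2, div_self h3, mul_one, mul_one]

lemma GG_nonneg (p : Par) (i : ℕ) (t : ℝ) : 0 ≤ GG p i t := by
  unfold GG
  refine indicator_nonneg (fun t _ => ?_) t
  have h0 := dl_pos i
  have h1 := ep_pos i
  positivity

section

variable {p : Par} {φ : ℝ → ℝ}

lemma hh_phi_le (h5 : ∀ i r, 0 ≤ r → φ (p.a i + r) ≤ Real.exp (p.b i + r / 4)) (i : ℕ) {t : ℝ}
    (ht : t ≠ p.a i) : hh p i t * φ t ≤ GG p i t := by
  unfold hh GG
  by_cases h : p.a i < t
  · rw [indicator_of_mem (mem_Ioi.mpr h), if_pos h.le]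
    have e1 := h5 i (t - p.a i) (by linarith)
    rw [add_sub_cancel] at e1
    have h0 := dl_pos i
    have h1 := ep_pos i
    unfold Par.nu wk
    calc ep i * Real.exp (-(p.b i)) *
          ((dl i)⁻¹ * Real.exp (-((1 + 1 / dl i) * (t - p.a i)))) * φ t
        ≤ ep i * Real.exp (-(p.b i)) *
          ((dl i)⁻¹ * Real.exp (-((1 + 1 / dl i) * (t - p.a i)))) *
            Real.exp (p.b i + (t - p.a i) / 4) := by gcongr
      _ = ep i * ((dl i)⁻¹ * Real.exp (-(p.b i) + -((1 + 1 / dl i) * (t - p.a i)) +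
            (p.b i + (t - p.a i) / 4))) := by
          rw [Real.exp_add (-(p.b i) + -((1 + 1 / dl i) * (t - p.a i))), Real.exp_add (-(p.b i))]
          generalize Real.exp (-(p.b i)) = A
          generalize Real.exp (-((1 + 1 / dl i) * (t - p.a i))) = B
          generalize Real.exp (p.b i + (t - p.a i) / 4) = C
          ring
      _ ≤ ep i * ((dl i)⁻¹ * Real.exp (-(dl i)⁻¹ * (t - p.a i))) := by
          gcongr
          rw [one_div]
          nlinarith
  · have h' : ¬ p.a i ≤ t := fun h' => h (lt_of_le_of_ne h' (Ne.symm ht))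
    rw [if_neg h', indicator_of_notMem (by simpa using h)]
    simp

lemma ae_ne_a (p : Par) : ∀ᵐ t : ℝ, ∀ i, t ≠ p.a i := by
  rw [ae_all_iff]
  intro i
  exact Measure.ae_ne volume (p.a i)

/-- general lemma -/
lemma integrable_tsum' {μ : Measure ℝ} {F : ℕ → ℝ → ℝ} (hm : ∀ i, Integrable (F i) μ)
    (hn : ∀ i x, 0 ≤ F i x) (hs : Summable fun i => ∫ x, F i x ∂μ)
    (hps : ∀ x, Summable fun i => F i x) (hM : Measurable fun x => ∑' i, F i x) :
    Integrable (fun x => ∑' i, F i x) μ := by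
  refine ⟨hM.aestronglyMeasurable, ?_⟩
  rw [hasFiniteIntegral_iff_ofReal (Eventually.of_forall fun x => tsum_nonneg fun i => hn i x)]
  have h1 : ∀ x, ENNReal.ofReal (∑' i, F i x) = ∑' i, ENNReal.ofReal (F i x) := fun x =>
    ENNReal.ofReal_tsum_of_nonneg (fun i => hn i x) (hps x)
  simp only [h1]
  rw [lintegral_tsum fun i => (hm i).1.aemeasurable.ennreal_ofReal]
  have h2 : ∀ i, ∫⁻ x, ENNReal.ofReal (F i x) ∂μ = ENNReal.ofReal (∫ x, F i x ∂μ) := fun i =>
    (ofReal_integral_eq_lintegral_ofReal (hm i) (Eventually.of_forall fun x => hn i x)).symm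
  simp only [h2]
  exact hs.tsum_ofReal_lt_top

variable (h : p.Good) (h1 : Measurable φ) (h2 : ∀ t, 1 ≤ φ t)
  (h3 : ∀ t τ, φ (t + τ) ≤ φ t * φ τ) (h4 : ∀ r, 0 ≤ r → φ r ≤ Real.exp (r / 4))
  (h5 : ∀ i r, 0 ≤ r → φ (p.a i + r) ≤ Real.exp (p.b i + r / 4))

include h1 h2 h5

lemma hhphi_int (i : ℕ) : Integrable (fun t => hh p i t * φ t) := by
  refine (GG_integrable p i).mono' ((hh_meas p i).mul h1).aestronglyMeasurable ?_
  filter_upwards [ae_ne_a p] with t ht
  rw [Real.norm_of_nonneg (mul_nonneg (hh_nonneg p i t) (by linarith [h2 t]))]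
  exact hh_phi_le h5 i (ht i)

lemma hhphi_integral_le (i : ℕ) : ∫ t, hh p i t * φ t ≤ ep i := by
  rw [← GG_integral p i]
  refine integral_mono_ae (hhphi_int h1 h2 h5 i) (GG_integrable p i) ?_
  filter_upwards [ae_ne_a p] with t ht
  exact hh_phi_le h5 i (ht i)

include h

lemma HHphi_int : Integrable (fun t => (∑' i, hh p i t) * φ t) := by
  simp only [← tsum_mul_right]
  have hn : ∀ i t, 0 ≤ hh p i t * φ t := fun i t =>
    mul_nonneg (hh_nonneg p i t) (by linarith [h2 t])
  refine integrable_tsum' (hhphi_int h1 h2 h5) hn ?_ ?_ ?_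
  · exact Summable.of_nonneg_of_le (fun i => integral_nonneg (hn i))
      (hhphi_integral_le h1 h2 h5) summable_ep
  · intro x
    exact (hh_summable h x).mul_right _
  · simp only [tsum_mul_right]
    exact (HH_meas h).mul h1

include h4

omit h h5 in
lemma expphi_int : IntegrableOn (fun t => Real.exp (-t) * φ t) (Ioi 0) := by
  have e1 : IntegrableOn (fun t : ℝ => Real.exp (-(3 / 4) * t)) (Ioi 0) :=
    integrableOn_exp_mul_Ioi (by norm_num) _
  refine Integrable.mono' e1
    (by have : Measurable fun t : ℝ => Real.exp (-t) := by fun_prop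
        exact (this.mul h1).aestronglyMeasurable) ?_
  filter_upwards [ae_restrict_mem measurableSet_Ioi] with t ht
  rw [Real.norm_of_nonneg (mul_nonneg (Real.exp_pos _).le (by linarith [h2 t]))]
  calc Real.exp (-t) * φ t ≤ Real.exp (-t) * Real.exp (t / 4) := by
        gcongr
        exact h4 t (le_of_lt ht)
    _ = Real.exp (-(3 / 4) * t) := by
        rw [← Real.exp_add]
        ring_nf

omit h1 h2 h4 h5 in
lemma ff_meas : Measurable (ff p) := by
  unfold ff
  refine Measurable.ite measurableSet_Iio measurable_const ?_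
  have e1 : Measurable fun t : ℝ => Real.exp (-t) := by fun_prop
  exact Complex.measurable_ofReal.comp (e1.sub (HH_meas h))

lemma inL1 : InL1 φ (ff p) := by
  refine ⟨(ff_meas h).aestronglyMeasurable, fun t ht => by simp [ff, ht], ?_⟩
  have e1 := (expphi_int h1 h2 h4).add ((HHphi_int h h1 h2 h5).integrableOn (s := Ioi 0))
  refine Integrable.mono' e1 ((ff_meas h).norm.mul h1).aestronglyMeasurable ?_
  filter_upwards [ae_restrict_mem measurableSet_Ioi] with t ht
  have ht' : ¬ t < 0 := not_lt.mpr (le_of_lt ht)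
  have hf : ff p t = ((Real.exp (-t) - ∑' i, hh p i t : ℝ) : ℂ) := by
    unfold ff
    rw [if_neg ht']
    rfl
  have hp : 0 ≤ φ t := by linarith [h2 t]
  have hH : 0 ≤ ∑' i, hh p i t := tsum_nonneg fun i => hh_nonneg p i t
  rw [Real.norm_of_nonneg (mul_nonneg (norm_nonneg _) hp), hf, Complex.norm_real, Real.norm_eq_abs,
    Pi.add_apply, ← add_mul]
  refine mul_le_mul_of_nonneg_right ?_ hp
  rw [abs_le]
  constructor <;> linarith [Real.exp_pos (-t)]

include h3

lemma exch (g : ℝ → ℂ) (hg : Continuous g) (hK : ∃ K : ℝ, ∀ t, 0 ≤ t → ‖g t‖ ≤ K * φ t) (y : ℝ)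
    (hy : 0 < y) :
    ∫ s in Set.Ioi (0:ℝ), ff p s * g (s + y) =
      (∫ s in Set.Ioi (0:ℝ), ((Real.exp (-s) : ℝ) : ℂ) * g (s + y)) -
      ∑' i : ℕ, (p.nu i : ℂ) * ∫ r in Set.Ioi (0:ℝ), ((wk (dl i) r : ℝ) : ℂ) * g (r + p.a i + y) := by
  obtain ⟨K, hK⟩ := hK
  have hK0 : 0 ≤ K := by
    have e1 := hK 0 le_rfl
    have e2 := h2 0
    by_contra hneg
    push Not at hneg
    have e3 := norm_nonneg (g 0)
    nlinarith
  have hphi0 : ∀ t, 0 ≤ φ t := fun t => by linarith [h2 t]
  have hgb : ∀ s, 0 < s → ‖g (s + y)‖ ≤ K * φ y * φ s := by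
    intro s hs
    refine (hK (s + y) (by linarith)).trans ?_
    have := h3 s y
    nlinarith
  have hgm : AEStronglyMeasurable (fun s => g (s + y)) (volume.restrict (Ioi 0)) :=
    (by fun_prop : Continuous fun s => g (s + y)).aestronglyMeasurable
  -- integrability of the first term
  have hI1 : IntegrableOn (fun s => ((Real.exp (-s) : ℝ) : ℂ) * g (s + y)) (Ioi 0) := by
    refine Integrable.mono' ((expphi_int h1 h2 h4).const_mul (K * φ y)) ?_ ?_
    · exact (by fun_prop : Continuous fun s : ℝ =>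
        ((Real.exp (-s) : ℝ) : ℂ) * g (s + y)).aestronglyMeasurable
    · filter_upwards [ae_restrict_mem measurableSet_Ioi] with s hs
      rw [norm_mul, Complex.norm_real, Real.norm_of_nonneg (Real.exp_pos _).le]
      have := hgb s hs
      have e0 := Real.exp_pos (-s)
      nlinarith
  -- the terms
  set F : ℕ → ℝ → ℂ := fun i s => ((hh p i s : ℝ) : ℂ) * g (s + y) with hF
  have hFm : ∀ i, AEStronglyMeasurable (F i) (volume.restrict (Ioi 0)) := fun i =>
    (Complex.measurable_ofReal.comp (hh_meas p i)).aestronglyMeasurable.mul hgm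
  have hFb : ∀ i, ∀ᵐ s ∂(volume.restrict (Ioi (0:ℝ))), ‖F i s‖ ≤ K * φ y * (hh p i s * φ s) := by
    intro i
    filter_upwards [ae_restrict_mem measurableSet_Ioi] with s hs
    rw [hF]
    simp only
    rw [norm_mul, Complex.norm_real, Real.norm_of_nonneg (hh_nonneg p i s)]
    have := hgb s hs
    have e0 := hh_nonneg p i s
    nlinarith
  have hFi : ∀ i, Integrable (F i) (volume.restrict (Ioi 0)) := fun i =>
    Integrable.mono' (((hhphi_int h1 h2 h5 i).integrableOn (s := Ioi 0)).const_mul (K * φ y))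
      (hFm i) (hFb i)
  have hc0 : 0 ≤ K * φ y := mul_nonneg hK0 (hphi0 y)
  have hFs : Summable fun i => ∫ s in Ioi (0:ℝ), ‖F i s‖ := by
    refine Summable.of_nonneg_of_le (fun i => integral_nonneg fun s => norm_nonneg _)
      (fun i => ?_) (summable_ep.mul_left (K * φ y))
    calc ∫ s in Ioi (0:ℝ), ‖F i s‖ ≤ ∫ s in Ioi (0:ℝ), K * φ y * (hh p i s * φ s) :=
          integral_mono_ae (hFi i).norm
            (((hhphi_int h1 h2 h5 i).integrableOn (s := Ioi 0)).const_mul (K * φ y)) (hFb i)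
      _ = K * φ y * ∫ s in Ioi (0:ℝ), hh p i s * φ s := integral_const_mul _ _
      _ ≤ K * φ y * ∫ s, hh p i s * φ s := by
          refine mul_le_mul_of_nonneg_left ?_ hc0
          exact setIntegral_le_integral (hhphi_int h1 h2 h5 i)
            (Eventually.of_forall fun s => mul_nonneg (hh_nonneg p i s) (hphi0 s))
      _ ≤ K * φ y * ep i :=
          mul_le_mul_of_nonneg_left (hhphi_integral_le h1 h2 h5 i) hc0
  have hsum := integral_tsum_of_summable_integral_norm hFi hFs
  -- integrability of the sum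
  have hI2 : Integrable (fun s => ∑' i, F i s) (volume.restrict (Ioi 0)) := by
    have e1 : ∀ s, ∑' i, F i s = ((∑' i, hh p i s : ℝ) : ℂ) * g (s + y) := by
      intro s
      rw [Complex.ofReal_tsum, ← tsum_mul_right]
    simp only [e1]
    refine Integrable.mono' (((HHphi_int h h1 h2 h5).integrableOn (s := Ioi 0)).const_mul
      (K * φ y)) ((Complex.measurable_ofReal.comp (HH_meas h)).aestronglyMeasurable.mul hgm) ?_
    filter_upwards [ae_restrict_mem measurableSet_Ioi] with s hs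
    have e0 : 0 ≤ ∑' i, hh p i s := tsum_nonneg fun i => hh_nonneg p i s
    rw [norm_mul, Complex.norm_real, Real.norm_of_nonneg e0]
    have := hgb s hs
    nlinarith
  -- the left side
  have hL : ∫ s in Set.Ioi (0:ℝ), ff p s * g (s + y) =
      (∫ s in Set.Ioi (0:ℝ), ((Real.exp (-s) : ℝ) : ℂ) * g (s + y)) -
        ∫ s in Set.Ioi (0:ℝ), ∑' i, F i s := by
    rw [← integral_sub hI1 hI2]
    refine setIntegral_congr_fun measurableSet_Ioi fun s hs => ?_
    have hs' : ¬ s < 0 := not_lt.mpr (le_of_lt hs)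
    have hf : ff p s = ((Real.exp (-s) - ∑' i, hh p i s : ℝ) : ℂ) := by
      unfold ff
      rw [if_neg hs']
      rfl
    rw [hf, Complex.ofReal_sub, sub_mul, hF]
    simp only
    rw [Complex.ofReal_tsum, tsum_mul_right]
  rw [hL, ← hsum]
  congr 1
  refine tsum_congr fun i => ?_
  -- translation
  have e1 : ∀ s, s ∈ Ioi (0:ℝ) → s ≠ p.a i → F i s = (Ioi (p.a i)).indicator
      (fun s => (p.nu i : ℂ) * (((wk (dl i) (s - p.a i) : ℝ) : ℂ) * g (s + y))) s := by
    intro s hs hne
    rw [hF]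
    simp only
    unfold hh
    by_cases hlt : p.a i < s
    · rw [if_pos hlt.le, indicator_of_mem (mem_Ioi.mpr hlt)]
      push_cast
      ring
    · have h' : ¬ p.a i ≤ s := fun h' => hlt (lt_of_le_of_ne h' (Ne.symm hne))
      rw [if_neg h', indicator_of_notMem (by simpa using hlt)]
      simp
  have e2 : ∫ s in Ioi (0:ℝ), F i s = ∫ s in Ioi (0:ℝ), (Ioi (p.a i)).indicator
      (fun s => (p.nu i : ℂ) * (((wk (dl i) (s - p.a i) : ℝ) : ℂ) * g (s + y))) s := by
    refine integral_congr_ae ?_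
    filter_upwards [ae_restrict_mem measurableSet_Ioi,
      ae_restrict_of_ae (ae_ne_a p)] with s hs hne
    exact e1 s hs (hne i)
  have ha := h.a_pos i
  have e3 : Ioi (0:ℝ) ∩ Ioi (p.a i) = Ioi (p.a i) :=
    inter_eq_right.mpr (Ioi_subset_Ioi ha.le)
  rw [e2, setIntegral_indicator measurableSet_Ioi, e3, integral_const_mul]
  congr 1
  rw [← integral_indicator measurableSet_Ioi, ← integral_indicator measurableSet_Ioi,
    ← integral_add_right_eq_self _ (p.a i)]
  refine integral_congr_ae (Eventually.of_forall fun r => ?_)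
  beta_reduce
  by_cases hr : 0 < r
  · rw [indicator_of_mem (mem_Ioi.mpr hr), indicator_of_mem (by simpa using hr), add_sub_cancel_right]
  · rw [indicator_of_notMem (by simpa using hr), indicator_of_notMem (by simpa using hr)]

end

end Fun1

theorem fun1 : S_FUN1 := by
  intro p h φ h1 h2 h3 h4 h5
  exact ⟨Fun1.inL1 h h1 h2 h4 h5, fun g hg hK y hy => Fun1.exch h h1 h2 h3 h4 h5 g hg hK y hy⟩

end Pool.Agent.Helper53K9.WC

end
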