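import Pool.Agent.Helper53K9.WC.Defs

/-! # FUN2: the transform of `f` -/

set_option autoImplicit false

open MeasureTheory Set Filter Topology

noncomputable section

namespace Pool.Agent.Helper53K9.WC

namespace F2

lemma dl_pos (i : ℕ) : 0 < dl i := by unfold dl; positivity

lemma dl_le_one (i : ℕ) : dl i ≤ 1 := by
  unfold dl
  exact pow_le_one₀ (by norm_num) (by norm_num)

lemma ep_pos (i : ℕ) : 0 < ep i := by unfold ep; positivity

lemma nu_pos (p : Par) (i : ℕ) : 0 < p.nu i := by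
  unfold Par.nu
  exact mul_pos (ep_pos i) (Real.exp_pos _)

lemma be_ge (D : ℕ → ℕ) (l : ℕ) : 2 ≤ be D l := by
  induction l with
  | zero => unfold be; simp
  | succ l ih =>
    unfold be at ih ⊢
    rw [Finset.prod_range_succ, ← mul_assoc]
    have h : (0:ℝ) ≤ D l := Nat.cast_nonneg _
    nlinarith

lemma nu_div_le {p : Par} (hp : p.Good) (i : ℕ) : p.nu i / dl i ≤ (1 / 8) ^ (i + 1) := by
  have h8 := hp.C8 i
  have he : 1 ≤ Real.exp (p.e (i + 1)) := Real.one_le_exp (hp.e_nonneg _)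
  have hd := dl_pos i
  have hE := ep_pos i
  have hb := hp.b_pos i
  have hbe := be_ge p.D i
  have hx : 0 < Real.exp (-(p.b i) / 2) := Real.exp_pos _
  have h1 : p.nu i / dl i ≤ p.rho i := by
    unfold Par.nu Par.rho
    have h2 : Real.exp (-(p.b i)) ≤ Real.exp (-(p.b i) / 2) := Real.exp_le_exp.2 (by linarith)
    have h3 : ep i * Real.exp (-(p.b i)) / dl i ≤ ep i * Real.exp (-(p.b i) / 2) / dl i := by
      gcongr
    refine h3.trans ?_
    have h4 : be p.D i * ep i * (2 / dl i) * Real.exp (-(p.b i) / 2) =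
        (2 * be p.D i) * (ep i * Real.exp (-(p.b i) / 2) / dl i) := by ring
    rw [h4]
    have h5 : 0 ≤ ep i * Real.exp (-(p.b i) / 2) / dl i := by positivity
    nlinarith
  have h2 : 0 ≤ p.rho i := (div_pos (nu_pos p i) hd).le.trans h1
  have h3 : p.rho i ≤ Real.exp (p.e (i + 1)) * p.rho i := le_mul_of_one_le_left h2 he
  have h4 : (1 / 8 : ℝ) ^ ((i + 2) ^ 2) ≤ (1 / 8) ^ (i + 1) :=
    pow_le_pow_of_le_one (by norm_num) (by norm_num) (by nlinarith)
  have h5 : (0:ℝ) < (1 / 8) ^ (i + 1) := by positivity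
  linarith

lemma geo : HasSum (fun i : ℕ => (1 / 8 : ℝ) ^ (i + 1)) (1 / 7) := by
  have h := (hasSum_geometric_of_lt_one (r := (1 / 8 : ℝ)) (by norm_num) (by norm_num)).mul_left
    (1 / 8)
  have h2 : (fun i : ℕ => (1 / 8 : ℝ) ^ (i + 1)) = fun i : ℕ => 1 / 8 * (1 / 8) ^ i := by
    funext i
    rw [pow_succ]
    ring
  rw [h2]
  have h3 : (1 / 7 : ℝ) = 1 / 8 * (1 - 1 / 8)⁻¹ := by norm_num
  rw [h3]
  exact h

lemma summable_nu {p : Par} (hp : p.Good) : Summable fun i => p.nu i / dl i :=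
  Summable.of_nonneg_of_le (fun i => (div_pos (nu_pos p i) (dl_pos i)).le) (nu_div_le hp)
    geo.summable

lemma tsum_nu {p : Par} (hp : p.Good) : ∑' i, p.nu i / dl i ≤ 1 / 2 := by
  have h := Summable.tsum_le_tsum (nu_div_le hp) (summable_nu hp) geo.summable
  rw [geo.tsum_eq] at h
  linarith

/-- the pieces of the function `f` -/
def hh (p : Par) (i : ℕ) (t : ℝ) : ℝ := if p.a i ≤ t then wk (dl i) (t - p.a i) else 0

lemma hh_eq (p : Par) (i : ℕ) (z : ℂ) : (fun t : ℝ => ((hh p i t : ℝ) : ℂ) *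
    Complex.exp (-(Complex.I * (t:ℂ) * z))) = (Ici (p.a i)).indicator (fun t : ℝ =>
      ((dl i)⁻¹ : ℂ) * Complex.exp ((1 + 1 / dl i : ℂ) * p.a i) *
        Complex.exp (-(1 + 1 / dl i + Complex.I * z) * t)) := by
  funext t
  by_cases h : p.a i ≤ t
  · rw [indicator_of_mem (by simpa using h)]
    unfold hh wk
    rw [if_pos h]
    push_cast
    rw [mul_assoc, mul_assoc, ← Complex.exp_add, mul_assoc, ← Complex.exp_add]
    congr 2
    ring
  · rw [indicator_of_notMem (by simpa using h)]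
    unfold hh
    rw [if_neg h]
    simp

lemma re_pos {z : ℂ} (hz : z.im ≤ 0) (c : ℝ) (hc : 0 ≤ c) :
    (-(1 + (c : ℂ) + Complex.I * z)).re < 0 := by
  simp
  linarith

lemma one_div_coe (i : ℕ) : (1 / (dl i : ℂ)) = ((1 / dl i : ℝ) : ℂ) := by push_cast; rfl

lemma int_hh (p : Par) (i : ℕ) {z : ℂ} (hz : z.im ≤ 0) :
    Integrable (fun t : ℝ => ((hh p i t : ℝ) : ℂ) * Complex.exp (-(Complex.I * (t:ℂ) * z))) := by
  rw [hh_eq, integrable_indicator_iff measurableSet_Ici, integrableOn_Ici_iff_integrableOn_Ioi]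
  refine Integrable.const_mul ?_ _
  refine integrableOn_exp_mul_complex_Ioi ?_ _
  rw [one_div_coe]
  exact re_pos hz _ (by have := dl_pos i; positivity)

lemma val_hh {p : Par} (hp : p.Good) (i : ℕ) {z : ℂ} (hz : z.im ≤ 0) :
    ∫ t in Ioi (0:ℝ), ((hh p i t : ℝ) : ℂ) * Complex.exp (-(Complex.I * (t:ℂ) * z)) =
      Complex.exp (-(Complex.I * z * p.a i)) / (1 + dl i * (1 + Complex.I * z)) := by
  have hd := dl_pos i
  have hdc : (dl i : ℂ) ≠ 0 := by exact_mod_cast hd.ne'
  have hre : (-(1 + 1 / (dl i : ℂ) + Complex.I * z)).re < 0 := by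
    rw [one_div_coe]
    exact re_pos hz _ (by positivity)
  have hne : (1 + 1 / (dl i : ℂ) + Complex.I * z) ≠ 0 := by
    intro h
    rw [h] at hre
    simp at hre
  rw [hh_eq, setIntegral_indicator measurableSet_Ici]
  have hset : Ioi (0:ℝ) ∩ Ici (p.a i) = Ici (p.a i) := by
    ext t
    simp only [mem_inter_iff, mem_Ioi, mem_Ici, and_iff_right_iff_imp]
    intro h
    exact (hp.a_pos i).trans_le h
  rw [hset, integral_Ici_eq_integral_Ioi, integral_const_mul, integral_exp_mul_complex_Ioi hre]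
  rw [mul_assoc, neg_div_neg_eq, mul_div_assoc', ← Complex.exp_add]
  have h1 : (1 + 1 / (dl i : ℂ)) * (p.a i : ℂ) + -(1 + 1 / (dl i : ℂ) + Complex.I * z) * (p.a i : ℂ)
      = -(Complex.I * z * p.a i) := by ring
  rw [h1, mul_div_assoc', inv_mul_eq_div, div_div]
  congr 1
  field_simp
  ring

lemma norm_hh {p : Par} (hp : p.Good) (i : ℕ) {z : ℂ} (hz : z.im ≤ 0) :
    ∫ t in Ioi (0:ℝ), ‖((hh p i t : ℝ) : ℂ) * Complex.exp (-(Complex.I * (t:ℂ) * z))‖ ≤ 1 := by
  have hd := dl_pos i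
  have h0 : ∀ t : ℝ, 0 ≤ hh p i t := by
    intro t
    unfold hh wk
    split_ifs
    · positivity
    · exact le_rfl
  have h1 : ∀ t ∈ Ioi (0:ℝ), ‖((hh p i t : ℝ) : ℂ) * Complex.exp (-(Complex.I * (t:ℂ) * z))‖ ≤
      ‖((hh p i t : ℝ) : ℂ) * Complex.exp (-(Complex.I * (t:ℂ) * 0))‖ := by
    intro t ht
    rw [norm_mul, norm_mul]
    refine mul_le_mul_of_nonneg_left ?_ (norm_nonneg _)
    rw [Complex.norm_exp, Complex.norm_exp]
    refine Real.exp_le_exp.2 ?_
    simp
    have : (0:ℝ) < t := ht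
    nlinarith
  have h2 : ∫ t in Ioi (0:ℝ), ‖((hh p i t : ℝ) : ℂ) * Complex.exp (-(Complex.I * (t:ℂ) * z))‖ ≤
      ∫ t in Ioi (0:ℝ), ‖((hh p i t : ℝ) : ℂ) * Complex.exp (-(Complex.I * (t:ℂ) * 0))‖ :=
    setIntegral_mono_on (int_hh p i hz).norm.integrableOn
      (int_hh p i (z := 0) (by simp)).norm.integrableOn measurableSet_Ioi h1
  refine h2.trans ?_
  have h3 := val_hh hp i (z := 0) (by simp)
  have h4 : ∫ t in Ioi (0:ℝ), ‖((hh p i t : ℝ) : ℂ) * Complex.exp (-(Complex.I * (t:ℂ) * 0))‖ =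
      1 / (1 + dl i) := by
    have h5 : (fun t : ℝ => ((hh p i t : ℝ) : ℂ) * Complex.exp (-(Complex.I * (t:ℂ) * 0))) =
        fun t : ℝ => ((hh p i t : ℝ) : ℂ) := by
      funext t
      simp
    have h6 : (fun t : ℝ => ‖((hh p i t : ℝ) : ℂ) * Complex.exp (-(Complex.I * (t:ℂ) * 0))‖) =
        fun t : ℝ => hh p i t := by
      funext t
      simp [abs_of_nonneg (h0 t)]
    rw [h6]
    rw [h5, integral_complex_ofReal] at h3
    have h7 : ((∫ t in Ioi (0:ℝ), hh p i t : ℝ) : ℂ) = ((1 / (1 + dl i) : ℝ) : ℂ) := by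
      rw [h3]
      push_cast
      simp
    exact_mod_cast h7
  rw [h4, div_le_one (by positivity)]
  linarith

/-- the terms of `f(t) exp(-itz)` -/
def GG (p : Par) (z : ℂ) : ℕ → ℝ → ℂ
  | 0 => fun t => Complex.exp (-(1 + Complex.I * z) * t)
  | (i + 1) => fun t => (-(p.nu i) : ℂ) * (((hh p i t : ℝ) : ℂ) *
      Complex.exp (-(Complex.I * (t:ℂ) * z)))

lemma summable_hh {p : Par} (hp : p.Good) (t : ℝ) : Summable fun i => p.nu i * hh p i t := by
  refine Summable.of_nonneg_of_le (fun i => ?_) (fun i => ?_) (summable_nu hp)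
  · have := dl_pos i
    refine mul_nonneg (nu_pos p i).le ?_
    unfold hh wk
    split_ifs
    · positivity
    · exact le_rfl
  · have hd := dl_pos i
    rw [div_eq_mul_inv]
    refine mul_le_mul_of_nonneg_left ?_ (nu_pos p i).le
    unfold hh wk
    split_ifs with h
    · refine mul_le_of_le_one_right (by positivity) ?_
      rw [Real.exp_le_one_iff]
      have : 0 ≤ (1 + 1 / dl i) * (t - p.a i) := mul_nonneg (by positivity) (by linarith)
      linarith
    · positivity

lemma ff_eq {p : Par} (hp : p.Good) (z : ℂ) {t : ℝ} (ht : 0 < t) :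
    ff p t * Complex.exp (-(Complex.I * (t:ℂ) * z)) = ∑' n, GG p z n t := by
  have hs := summable_hh hp t
  have hs2 : Summable fun i => GG p z (i + 1) t := by
    have h1 : Summable fun i => ((p.nu i * hh p i t : ℝ) : ℂ) := by exact_mod_cast hs
    have h2 := h1.mul_right (-Complex.exp (-(Complex.I * (t:ℂ) * z)))
    refine h2.congr fun i => ?_
    unfold GG
    push_cast
    ring
  have hs3 : Summable fun n => GG p z n t := (summable_nat_add_iff 1).1 hs2
  rw [hs3.tsum_eq_zero_add]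
  have h1 : ff p t = ((Real.exp (-t) : ℝ) : ℂ) - ∑' i : ℕ, ((p.nu i * hh p i t : ℝ) : ℂ) := by
    unfold ff
    rw [if_neg (by linarith), ← Complex.ofReal_tsum, ← Complex.ofReal_sub]
    rfl
  rw [h1, sub_mul, ← tsum_mul_right, sub_eq_add_neg, ← tsum_neg]
  congr 1
  · unfold GG
    push_cast
    rw [← Complex.exp_add]
    congr 1
    ring
  · refine tsum_congr fun i => ?_
    unfold GG
    push_cast
    ring

lemma hat_eq {p : Par} (hp : p.Good) {z : ℂ} (hz : z.im ≤ 0) :
    hat (ff p) z = 1 / (1 + Complex.I * z) - ∑' i : ℕ, (p.nu i : ℂ) *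
      (Complex.exp (-(Complex.I * z * p.a i)) / (1 + dl i * (1 + Complex.I * z))) := by
  have hre : (-(1 + Complex.I * z)).re < 0 := by
    have := re_pos hz 0 le_rfl
    simpa using this
  have hne : (1 + Complex.I * z) ≠ 0 := by
    intro h
    rw [h] at hre
    simp at hre
  have hint : ∀ n, Integrable (GG p z n) (volume.restrict (Ioi (0:ℝ))) := by
    intro n
    cases n with
    | zero =>
      exact integrableOn_exp_mul_complex_Ioi hre 0
    | succ i =>
      exact ((int_hh p i hz).const_mul _).restrict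
  have hsum : Summable fun n => ∫ t in Ioi (0:ℝ), ‖GG p z n t‖ := by
    rw [← summable_nat_add_iff 1]
    refine Summable.of_nonneg_of_le (fun i => integral_nonneg fun t => norm_nonneg _)
      (fun i => ?_) (summable_nu hp)
    have h1 : ∀ t : ℝ, ‖GG p z (i + 1) t‖ = p.nu i * ‖((hh p i t : ℝ) : ℂ) *
        Complex.exp (-(Complex.I * (t:ℂ) * z))‖ := by
      intro t
      unfold GG
      rw [norm_mul, norm_neg, Complex.norm_real, Real.norm_of_nonneg (nu_pos p i).le]
    simp only [h1]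
    rw [integral_const_mul, div_eq_mul_inv]
    refine mul_le_mul_of_nonneg_left ?_ (nu_pos p i).le
    refine (norm_hh hp i hz).trans ?_
    rw [one_le_inv₀ (dl_pos i)]
    exact dl_le_one i
  have h1 := integral_tsum_of_summable_integral_norm hint hsum
  have h2 : hat (ff p) z = ∫ t in Ioi (0:ℝ), ∑' n, GG p z n t := by
    unfold hat
    exact setIntegral_congr_fun measurableSet_Ioi fun t ht => ff_eq hp z ht
  have hsum2 : Summable fun n => ∫ t in Ioi (0:ℝ), GG p z n t :=
    Summable.of_norm_bounded hsum fun n => norm_integral_le_integral_norm _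
  rw [h2, ← h1, hsum2.tsum_eq_zero_add, sub_eq_add_neg, ← tsum_neg]
  congr 1
  · show ∫ t in Ioi (0:ℝ), Complex.exp (-(1 + Complex.I * z) * t) = _
    rw [integral_exp_mul_complex_Ioi hre, Complex.ofReal_zero, mul_zero, Complex.exp_zero,
      neg_div_neg_eq]
  · refine tsum_congr fun i => ?_
    show ∫ t in Ioi (0:ℝ), (-(p.nu i) : ℂ) * (((hh p i t : ℝ) : ℂ) *
      Complex.exp (-(Complex.I * (t:ℂ) * z))) = _
    rw [integral_const_mul, val_hh hp i hz]
    ring

/-- the transform is comparable to `1 / ζ` -/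
lemma hat_bound {p : Par} (hp : p.Good) {z : ℂ} (hz : z.im ≤ 0) :
    ‖(1 + Complex.I * z) * hat (ff p) z - 1‖ ≤ 1 / 2 := by
  have hre : 1 ≤ (1 + Complex.I * z).re := by
    simp
    linarith
  have hne : (1 + Complex.I * z) ≠ 0 := by
    intro h
    rw [h] at hre
    simp at hre
    linarith
  set ζ := 1 + Complex.I * z with hζ
  rw [hat_eq hp hz, mul_sub, mul_one_div_cancel hne, sub_sub_cancel_left, norm_neg, ← tsum_mul_left]
  refine (tsum_of_norm_bounded (summable_nu hp).hasSum fun i => ?_).trans (tsum_nu hp)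
  have hd := dl_pos i
  have h1 : dl i * ‖ζ‖ ≤ ‖1 + (dl i : ℂ) * ζ‖ := by
    have h2 : ‖(dl i : ℂ) * ζ‖ = dl i * ‖ζ‖ := by
      rw [norm_mul, Complex.norm_real, Real.norm_of_nonneg hd.le]
    rw [← h2]
    have h3 : ‖(dl i : ℂ) * ζ‖ ^ 2 ≤ ‖1 + (dl i : ℂ) * ζ‖ ^ 2 := by
      rw [← Complex.normSq_eq_norm_sq, ← Complex.normSq_eq_norm_sq, Complex.normSq_apply,
        Complex.normSq_apply]
      simp only [Complex.add_re, Complex.add_im, Complex.one_re, Complex.one_im, Complex.mul_re,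
        Complex.mul_im, Complex.ofReal_re, Complex.ofReal_im, zero_mul, sub_zero, add_zero,
        zero_add]
      have h4 : 0 ≤ dl i * ζ.re := mul_nonneg hd.le (by linarith)
      nlinarith
    exact (pow_le_pow_iff_left₀ (norm_nonneg _) (norm_nonneg _) two_ne_zero).1 h3
  have hζ0 : 0 < ‖ζ‖ := norm_pos_iff.2 hne
  have h2 : 0 < ‖1 + (dl i : ℂ) * ζ‖ := lt_of_lt_of_le (by positivity) h1
  rw [norm_mul, norm_mul, norm_div, Complex.norm_real, Real.norm_of_nonneg (nu_pos p i).le]
  have h3 : ‖Complex.exp (-(Complex.I * z * p.a i))‖ ≤ 1 := by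
    rw [Complex.norm_exp, Real.exp_le_one_iff]
    simp
    have := hp.a_pos i
    nlinarith
  calc ‖ζ‖ * (p.nu i * (‖Complex.exp (-(Complex.I * z * p.a i))‖ / ‖1 + (dl i : ℂ) * ζ‖))
      ≤ ‖ζ‖ * (p.nu i * (1 / (dl i * ‖ζ‖))) := by
        have := nu_pos p i
        gcongr
    _ = p.nu i / dl i := by field_simp

end F2

open F2 in
theorem fun2 : S_FUN2 := by
  intro p hp
  have hne : ∀ z : ℂ, z.im ≤ 0 → hat (ff p) z ≠ 0 := by
    intro z hz h
    have := hat_bound hp hz
    rw [h, mul_zero, zero_sub, norm_neg, norm_one] at this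
    norm_num at this
  refine ⟨hne, ?_⟩
  have hmain : Tendsto (fun y : ℝ => Real.log ‖hat (ff p) (y * Complex.I)‖ / |y|) atBot (𝓝 0) := by
    have hY : Tendsto (fun y : ℝ => |y|) atBot atTop := tendsto_abs_atBot_atTop
    have hlim : Tendsto (fun Y : ℝ => Real.log 4 / Y + Real.log Y / Y) atTop (𝓝 0) := by
      have h1 : Tendsto (fun Y : ℝ => Real.log 4 / Y) atTop (𝓝 0) :=
        tendsto_const_nhds.div_atTop tendsto_id
      have h2 : Tendsto (fun Y : ℝ => Real.log Y / Y) atTop (𝓝 0) :=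
        Real.isLittleO_log_id_atTop.tendsto_div_nhds_zero
      simpa using h1.add h2
    have hlim2 := hlim.comp hY
    refine squeeze_zero_norm' ?_ hlim2
    filter_upwards [eventually_le_atBot (-1 : ℝ)] with y hy
    have hY1 : 1 ≤ |y| := by rw [abs_of_nonpos (by linarith)]; linarith
    have him : ((y : ℂ) * Complex.I).im ≤ 0 := by
      simp
      linarith
    have hζ : 1 + Complex.I * ((y : ℂ) * Complex.I) = ((1 + |y| : ℝ) : ℂ) := by
      rw [abs_of_nonpos (by linarith)]
      push_cast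
      have : Complex.I * ((y : ℂ) * Complex.I) = (y : ℂ) * (Complex.I * Complex.I) := by ring
      rw [this, Complex.I_mul_I]
      ring
    have hb := hat_bound hp him
    rw [hζ] at hb
    set H := ‖hat (ff p) ((y : ℂ) * Complex.I)‖ with hH
    have hn : ‖((1 + |y| : ℝ) : ℂ) * hat (ff p) ((y : ℂ) * Complex.I)‖ = (1 + |y|) * H := by
      rw [norm_mul, Complex.norm_real, Real.norm_of_nonneg (by positivity)]
    have h1 : (1 + |y|) * H ≤ 3 / 2 := by
      rw [← hn]
      have := norm_le_norm_sub_add (((1 + |y| : ℝ) : ℂ) * hat (ff p) ((y : ℂ) * Complex.I)) 1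
      rw [norm_one] at this
      linarith
    have h2 : 1 / 2 ≤ (1 + |y|) * H := by
      rw [← hn]
      have := norm_sub_norm_le (1 : ℂ) (((1 + |y| : ℝ) : ℂ) * hat (ff p) ((y : ℂ) * Complex.I))
      rw [norm_one, norm_sub_rev] at this
      linarith
    have hH0 : 0 < H := norm_pos_iff.2 (hne _ him)
    have h3 : H ≤ 1 := by nlinarith
    have h4 : 1 / (4 * |y|) ≤ H := by
      rw [div_le_iff₀ (by positivity)]
      nlinarith
    have h5 : Real.log H ≤ 0 := Real.log_nonpos hH0.le h3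
    have h6 : -(Real.log 4 + Real.log |y|) ≤ Real.log H := by
      have h7 := Real.log_le_log (by positivity) h4
      rw [Real.log_div one_ne_zero (by positivity), Real.log_one, Real.log_mul (by norm_num)
        (by positivity), zero_sub] at h7
      exact h7
    rw [Real.norm_eq_abs, abs_div, abs_abs, Function.comp_apply, ← add_div]
    gcongr
    rw [abs_of_nonpos h5]
    linarith
  have h1 : Tendsto (fun y : ℝ => ((Real.log ‖hat (ff p) (y * Complex.I)‖ / |y| : ℝ) : EReal)) atBot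
      (𝓝 ((0 : ℝ) : EReal)) := (continuous_coe_real_ereal.tendsto 0).comp hmain
  rw [h1.limsup_eq]
  rfl

end Pool.Agent.Helper53K9.WC

end
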