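import Pool.Agent.Helper53K9.WC.Defs

open MeasureTheory Set Filter Topology

noncomputable section

namespace Pool.Agent.Helper53K9.WC

namespace Opa

/-- one-variable operator -/
def R1 (c : ℝ) (h : ℝ → ℂ) (σ : ℝ) : ℂ :=
  -Complex.I * ∫ r in Set.Ioi (0:ℝ), Complex.exp (Complex.I * (c:ℂ) * (r:ℂ)) * h (σ + r)

lemma RR_eq (c : ℝ) (H : ℝ → ℝ → ℂ) (t σ : ℝ) : RR c H t σ = R1 c (H t) σ := rfl

lemma norm_exp_I (c r : ℝ) : ‖Complex.exp (Complex.I * (c:ℂ) * (r:ℂ))‖ = 1 := by
  have : Complex.I * (c:ℂ) * (r:ℂ) = ((c * r : ℝ) : ℂ) * Complex.I := by push_cast; ring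
  rw [this, Complex.norm_exp_ofReal_mul_I]

lemma int_exp (x σ : ℝ) (hx : 0 < x) :
    IntegrableOn (fun r : ℝ => Real.exp (-(x * (σ + r)))) (Ioi 0) := by
  have h := (integrableOn_exp_mul_Ioi (a := -x) (by linarith) 0).const_mul (Real.exp (-(x * σ)))
  have e : (fun r : ℝ => Real.exp (-(x * (σ + r)))) =
      fun r : ℝ => Real.exp (-(x * σ)) * Real.exp (-x * r) := by
    funext r
    rw [← Real.exp_add]; congr 1; ring
  rw [e]
  exact h

lemma integral_exp' (x σ : ℝ) (hx : 0 < x) :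
    ∫ r in Ioi (0:ℝ), Real.exp (-(x * (σ + r))) = Real.exp (-(x * σ)) / x := by
  have h : ∀ r : ℝ, Real.exp (-(x * (σ + r))) = Real.exp (-(x * σ)) * Real.exp (-x * r) := by
    intro r
    rw [← Real.exp_add]; congr 1; ring
  simp_rw [h]
  rw [integral_const_mul, integral_exp_mul_Ioi (by linarith)]
  simp
  field_simp

lemma int_e (σ : ℝ) : IntegrableOn (fun r : ℝ => Real.exp (-(σ + r))) (Ioi 0) := by
  have := int_exp 1 σ one_pos
  simpa using this

lemma integral_e (σ : ℝ) : ∫ r in Ioi (0:ℝ), Real.exp (-(σ + r)) = Real.exp (-σ) := by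
  have := integral_exp' 1 σ one_pos
  simpa using this

lemma kern_cont (c : ℝ) : Continuous (fun r : ℝ => Complex.exp (Complex.I * (c:ℂ) * (r:ℂ))) := by
  fun_prop

/-- integrability of the integrand -/
lemma integrable_R1 {h : ℝ → ℂ} (hc : Continuous h) {B : ℝ} (hB : ∀ s, ‖h s‖ ≤ B * Real.exp (-s))
    (c σ : ℝ) : IntegrableOn (fun r : ℝ => Complex.exp (Complex.I * (c:ℂ) * (r:ℂ)) * h (σ + r))
      (Ioi 0) := by
  refine ((int_e σ).const_mul B).mono' ?_ ?_
  · exact ((kern_cont c).mul (hc.comp (by fun_prop))).aestronglyMeasurable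
  · refine Eventually.of_forall fun r => ?_
    rw [norm_mul, norm_exp_I, one_mul]
    exact hB _

lemma norm_R1_le {h : ℝ → ℂ} {σ x B : ℝ} (hx : 0 < x)
    (hB : ∀ r, 0 < r → ‖h (σ + r)‖ ≤ B * Real.exp (-(x * (σ + r)))) (c : ℝ) :
    ‖R1 c h σ‖ ≤ (B / x) * Real.exp (-(x * σ)) := by
  unfold R1
  rw [norm_mul, norm_neg, Complex.norm_I, one_mul]
  refine (norm_integral_le_of_norm_le (g := fun r => B * Real.exp (-(x * (σ + r))))
    ((int_exp x σ hx).const_mul B) ?_).trans ?_
  · refine (ae_restrict_iff' measurableSet_Ioi).2 (Eventually.of_forall fun r hr => ?_)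
    rw [norm_mul, norm_exp_I, one_mul]
    exact hB r hr
  · rw [integral_const_mul, integral_exp' x σ hx]
    apply le_of_eq; ring

lemma norm_R1_le' {h : ℝ → ℂ} {B : ℝ} (hB : ∀ s, ‖h s‖ ≤ B * Real.exp (-s)) (c σ : ℝ) :
    ‖R1 c h σ‖ ≤ B * Real.exp (-σ) := by
  have := norm_R1_le (h := h) (σ := σ) (x := 1) (B := B) one_pos
    (fun r _ => by simpa using hB (σ + r)) c
  simpa using this

/-- change of variables -/
lemma shift_Ioi (f : ℝ → ℂ) (σ : ℝ) :
    ∫ r in Ioi (0:ℝ), f (σ + r) = ∫ s in Ioi σ, f s := by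
  have h := (measurePreserving_add_left volume σ).setIntegral_preimage_emb
    (measurableEmbedding_addLeft σ) f (Ioi σ)
  rw [← h]
  congr 2
  ext x
  simp

lemma R1_eq_tail (c : ℝ) (h : ℝ → ℂ) (σ : ℝ) :
    R1 c h σ = -Complex.I * Complex.exp (-(Complex.I * (c:ℂ) * (σ:ℂ))) *
      ∫ s in Ioi σ, Complex.exp (Complex.I * (c:ℂ) * (s:ℂ)) * h s := by
  unfold R1
  rw [← shift_Ioi (fun s => Complex.exp (Complex.I * (c:ℂ) * (s:ℂ)) * h s) σ, mul_assoc]
  congr 1
  rw [← integral_const_mul]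
  refine setIntegral_congr_fun measurableSet_Ioi fun r _ => ?_
  have e : Complex.exp (Complex.I * (c:ℂ) * (r:ℂ)) =
      Complex.exp (-(Complex.I * (c:ℂ) * (σ:ℂ))) *
        Complex.exp (Complex.I * (c:ℂ) * ((σ + r : ℝ):ℂ)) := by
    rw [← Complex.exp_add]
    congr 1
    push_cast
    ring
  show Complex.exp (Complex.I * (c:ℂ) * (r:ℂ)) * h (σ + r) = _
  rw [e]
  ring

lemma int_tail {h : ℝ → ℂ} (hc : Continuous h) {B : ℝ} (hB : ∀ s, ‖h s‖ ≤ B * Real.exp (-s))
    (c σ : ℝ) : IntegrableOn (fun s : ℝ => Complex.exp (Complex.I * (c:ℂ) * (s:ℂ)) * h s)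
      (Ioi σ) := by
  have h1 := (integrableOn_exp_mul_Ioi (a := -1) (by norm_num) σ).const_mul B
  refine h1.mono' ?_ ?_
  · exact ((kern_cont c).mul hc).aestronglyMeasurable
  · refine Eventually.of_forall fun r => ?_
    rw [norm_mul, norm_exp_I, one_mul]
    simpa using hB r

lemma hasDeriv_R1 {h : ℝ → ℂ} (hc : Continuous h) {B : ℝ} (hB : ∀ s, ‖h s‖ ≤ B * Real.exp (-s))
    (c σ : ℝ) : HasDerivAt (R1 c h) (-(Complex.I * c) * R1 c h σ + Complex.I * h σ) σ := by
  set f : ℝ → ℂ := fun s => Complex.exp (Complex.I * (c:ℂ) * (s:ℂ)) * h s with hf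
  have fc : Continuous f := (kern_cont c).mul hc
  have e1 : ∀ s : ℝ, (∫ u in Ioi s, f u) = (∫ u in Ioi (0:ℝ), f u) - ∫ u in (0:ℝ)..s, f u := by
    intro s
    have := intervalIntegral.integral_Ioi_sub_Ioi' (μ := volume) (f := f) (a := 0) (b := s)
      (int_tail hc hB c 0) (int_tail hc hB c s)
    rw [← this]; ring
  have d1 : HasDerivAt (fun s : ℝ => ∫ u in Ioi s, f u) (-(f σ)) σ := by
    have h1 : HasDerivAt (fun s : ℝ => ∫ u in (0:ℝ)..s, f u) (f σ) σ :=
      intervalIntegral.integral_hasDerivAt_right (fc.intervalIntegrable _ _)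
        (fc.stronglyMeasurableAtFilter _ _) fc.continuousAt
    have h2 := h1.const_sub (∫ u in Ioi (0:ℝ), f u)
    have h3 : (fun s : ℝ => ∫ u in Ioi s, f u) = fun s : ℝ => (∫ u in Ioi (0:ℝ), f u) -
        ∫ u in (0:ℝ)..s, f u := funext e1
    rw [h3]
    exact h2
  have d2 : HasDerivAt (fun s : ℝ => -Complex.I * Complex.exp (-(Complex.I * (c:ℂ) * (s:ℂ))))
      (-Complex.I * (Complex.exp (-(Complex.I * (c:ℂ) * (σ:ℂ))) * (-(Complex.I * c)))) σ := by
    have h0 : HasDerivAt (fun s : ℝ => -(Complex.I * (c:ℂ) * (s:ℂ))) (-(Complex.I * c)) σ := by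
      have := ((hasDerivAt_id σ).ofReal_comp.const_mul (Complex.I * (c:ℂ))).fun_neg
      simpa using this
    exact (h0.cexp).const_mul _
  have d3 := d2.mul d1
  have e2 : (R1 c h) = fun s : ℝ => -Complex.I * Complex.exp (-(Complex.I * (c:ℂ) * (s:ℂ))) *
      ∫ u in Ioi s, f u := funext (R1_eq_tail c h)
  rw [e2]
  refine d3.congr_deriv ?_
  have e3 : Complex.exp (-(Complex.I * (c:ℂ) * (σ:ℂ))) * f σ = h σ := by
    rw [hf]
    simp only
    rw [← mul_assoc, ← Complex.exp_add]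
    simp
  linear_combination (Complex.I) * e3

lemma cont_R1 {h : ℝ → ℂ} (hc : Continuous h) {B : ℝ} (hB : ∀ s, ‖h s‖ ≤ B * Real.exp (-s))
    (c : ℝ) : Continuous (R1 c h) :=
  continuous_iff_continuousAt.2 fun σ => (hasDeriv_R1 hc hB c σ).continuousAt

lemma R1_resolvent {h : ℝ → ℂ} (hc : Continuous h) {B : ℝ} (hB : ∀ s, ‖h s‖ ≤ B * Real.exp (-s))
    (a b σ : ℝ) : R1 a h σ = R1 b h σ + ((b - a : ℝ) : ℂ) * R1 a (R1 b h) σ := by
  set φ := R1 b h with hφ
  have φc : Continuous φ := cont_R1 hc hB b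
  have φB : ∀ s, ‖φ s‖ ≤ B * Real.exp (-s) := fun s => norm_R1_le' hB b s
  set E : ℝ → ℂ := fun r => Complex.exp (Complex.I * (a:ℂ) * (r:ℂ)) with hE
  have dE : ∀ r : ℝ, HasDerivAt E (E r * (Complex.I * a)) r := by
    intro r
    have h0 : HasDerivAt (fun s : ℝ => (Complex.I * (a:ℂ) * (s:ℂ))) (Complex.I * a) r := by
      have := ((hasDerivAt_id r).ofReal_comp.const_mul (Complex.I * (a:ℂ)))
      simpa using this
    exact h0.cexp
  have dφ : ∀ r : ℝ, HasDerivAt (fun r => φ (σ + r))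
      (-(Complex.I * b) * φ (σ + r) + Complex.I * h (σ + r)) r := by
    intro r
    have h1 := hasDeriv_R1 hc hB b (σ + r)
    have h2 : HasDerivAt (fun r : ℝ => σ + r) 1 r := by
      simpa using (hasDerivAt_id r).const_add σ
    have := HasDerivAt.scomp r h1 h2
    simpa [Function.comp_def] using this
  have dF : ∀ r ∈ Ioi (0:ℝ), HasDerivAt (fun r => E r * φ (σ + r))
      (Complex.I * ((a - b : ℝ) : ℂ) * (E r * φ (σ + r)) + Complex.I * (E r * h (σ + r))) r := by
    intro r _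
    refine ((dE r).mul (dφ r)).congr_deriv ?_
    push_cast
    ring
  have i1 := integrable_R1 φc φB a σ
  have i2 := integrable_R1 hc hB a σ
  have key := integral_Ioi_of_hasDerivAt_of_tendsto (a := (0:ℝ)) (m := (0:ℂ))
    (f := fun r => E r * φ (σ + r)) ?_ dF
    ((i1.const_mul (Complex.I * ((a - b : ℝ) : ℂ))).add (i2.const_mul Complex.I)) ?_
  · rw [integral_add (i1.const_mul _) (i2.const_mul _), integral_const_mul, integral_const_mul]
      at key
    have e0 : E 0 * φ (σ + 0) = φ σ := by simp [hE]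
    rw [e0] at key
    have r1 : R1 a φ σ = -Complex.I * ∫ r in Ioi (0:ℝ), E r * φ (σ + r) := rfl
    have r2 : R1 a h σ = -Complex.I * ∫ r in Ioi (0:ℝ), E r * h (σ + r) := rfl
    rw [r1, r2]
    push_cast at key ⊢
    linear_combination (-1) * key
  · have : Continuous (fun r => E r * φ (σ + r)) :=
      (kern_cont a).mul (φc.comp (by fun_prop))
    exact this.continuousWithinAt
  · rw [tendsto_zero_iff_norm_tendsto_zero]
    have t1 : Tendsto (fun r : ℝ => B * Real.exp (-(σ + r))) atTop (𝓝 0) := by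
      have : Tendsto (fun r : ℝ => Real.exp (-(σ + r))) atTop (𝓝 0) :=
        Real.tendsto_exp_neg_atTop_nhds_zero.comp (tendsto_atTop_add_const_left _ σ tendsto_id)
      simpa using this.const_mul B
    refine squeeze_zero (fun r => norm_nonneg _) (fun r => ?_) t1
    rw [norm_mul, norm_exp_I, one_mul]
    exact φB _

/-! ### two variables -/

lemma adm_bound {H : ℝ → ℝ → ℂ} {B : ℝ} (hB : ∀ t σ : ℝ, ‖H t σ‖ ≤ B * Real.exp (-σ + |t| / 4))
    (t s : ℝ) : ‖H t s‖ ≤ (B * Real.exp (|t| / 4)) * Real.exp (-s) := by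
  have := hB t s
  rw [Real.exp_add] at this
  linarith

lemma adm_nonneg {H : ℝ → ℝ → ℂ} {B : ℝ} (hB : ∀ t σ : ℝ, ‖H t σ‖ ≤ B * Real.exp (-σ + |t| / 4)) :
    0 ≤ B := by
  have h := hB 0 0
  have h2 := norm_nonneg (H 0 0)
  have h3 : Real.exp (-(0:ℝ) + |0| / 4) = 1 := by simp
  rw [h3] at h
  linarith

lemma adm_cont {H : ℝ → ℝ → ℂ} (h : Continuous (fun q : ℝ × ℝ => H q.1 q.2)) (t : ℝ) :
    Continuous (H t) := h.comp (by fun_prop : Continuous fun s : ℝ => (t, s))

lemma adm_RR (c : ℝ) (H : ℝ → ℝ → ℂ) (hH : Adm H) : Adm (RR c H) := by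
  obtain ⟨hc, B, hB⟩ := hH
  have B0 := adm_nonneg hB
  refine ⟨?_, B, fun t σ => ?_⟩
  · have : (fun q : ℝ × ℝ => RR c H q.1 q.2) = fun q : ℝ × ℝ => -Complex.I *
        ∫ r in Set.Ioi (0:ℝ), Complex.exp (Complex.I * (c:ℂ) * (r:ℂ)) * H q.1 (q.2 + r) := rfl
    rw [this]
    refine Continuous.mul continuous_const (continuous_iff_continuousAt.2 fun q => ?_)
    refine continuousAt_of_dominated
      (bound := fun r => B * Real.exp ((|q.1| + 1) / 4) * Real.exp (-((q.2 - 1) + r))) ?_ ?_ ?_ ?_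
    · refine Eventually.of_forall fun q' => ?_
      exact ((kern_cont c).mul (hc.comp (by fun_prop :
        Continuous fun r : ℝ => (q'.1, q'.2 + r)))).aestronglyMeasurable
    · have n1 : ∀ᶠ q' : ℝ × ℝ in 𝓝 q, dist q' q < 1 := Metric.ball_mem_nhds q one_pos
      filter_upwards [n1] with q' hq'
      refine Eventually.of_forall fun r => ?_
      rw [norm_mul, norm_exp_I, one_mul]
      refine (hB _ _).trans ?_
      rw [mul_assoc, ← Real.exp_add]
      refine mul_le_mul_of_nonneg_left (Real.exp_le_exp.2 ?_) B0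
      have d1 : |q'.1 - q.1| < 1 := by
        have := (le_max_left (dist q'.1 q.1) (dist q'.2 q.2)).trans_lt hq'
        rwa [Real.dist_eq] at this
      have d2 : |q'.2 - q.2| < 1 := by
        have := (le_max_right (dist q'.1 q.1) (dist q'.2 q.2)).trans_lt hq'
        rwa [Real.dist_eq] at this
      have d3 : |q'.1| ≤ |q.1| + 1 := by
        have := abs_sub_abs_le_abs_sub q'.1 q.1
        linarith
      have d4 := (abs_lt.1 d2).1
      linarith
    · exact (int_e (q.2 - 1)).const_mul _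
    · refine Eventually.of_forall fun r => ?_
      exact (Continuous.mul continuous_const (hc.comp (by fun_prop :
        Continuous fun q' : ℝ × ℝ => (q'.1, q'.2 + r)))).continuousAt
  · rw [RR_eq]
    refine (norm_R1_le' (adm_bound hB t) c σ).trans (le_of_eq ?_)
    rw [Real.exp_add]
    ring

lemma RR_add (c : ℝ) (H H' : ℝ → ℝ → ℂ) (hH : Adm H) (hH' : Adm H') :
    RR c (H + H') = RR c H + RR c H' := by
  obtain ⟨hc, B, hB⟩ := hH
  obtain ⟨hc', B', hB'⟩ := hH'
  funext t σ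
  simp only [RR, Pi.add_apply]
  rw [← mul_add, ← integral_add (integrable_R1 (adm_cont hc t) (adm_bound hB t) c σ)
    (integrable_R1 (adm_cont hc' t) (adm_bound hB' t) c σ)]
  simp only [mul_add]

lemma RR_smul (c : ℝ) (w : ℂ) (H : ℝ → ℝ → ℂ) : RR c (w • H) = w • RR c H := by
  funext t σ
  simp only [RR, Pi.smul_apply, smul_eq_mul]
  have : ∀ r : ℝ, Complex.exp (Complex.I * (c:ℂ) * (r:ℂ)) * (w * H t (σ + r)) =
      w * (Complex.exp (Complex.I * (c:ℂ) * (r:ℂ)) * H t (σ + r)) := fun r => by ring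
  simp_rw [this]
  rw [integral_const_mul]
  ring

lemma RR_resolvent (a b : ℝ) (H : ℝ → ℝ → ℂ) (hH : Adm H) :
    RR a H = RR b H + ((b - a : ℝ) : ℂ) • RR a (RR b H) := by
  obtain ⟨hc, B, hB⟩ := hH
  funext t σ
  exact R1_resolvent (adm_cont hc t) (adm_bound hB t) a b σ

lemma RR_comm (a b : ℝ) (H : ℝ → ℝ → ℂ) (hH : Adm H) : RR a (RR b H) = RR b (RR a H) := by
  rcases eq_or_ne a b with rfl | hab
  · rfl
  have h1 := RR_resolvent a b H hH
  have h2 := RR_resolvent b a H hH
  have hne : (((b - a : ℝ)) : ℂ) ≠ 0 := by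
    exact_mod_cast sub_ne_zero.2 hab.symm
  have h3 : ((b - a : ℝ) : ℂ) • (RR a (RR b H) - RR b (RR a H)) = 0 := by
    funext t σ
    have e1 := congrFun (congrFun h1 t) σ
    have e2 := congrFun (congrFun h2 t) σ
    simp only [Pi.add_apply, Pi.smul_apply, Pi.sub_apply, smul_eq_mul, Pi.zero_apply] at e1 e2 ⊢
    push_cast at e1 e2 ⊢
    linear_combination (-1) * e1 - e2
  have h4 := (smul_eq_zero.1 h3).resolve_left hne
  exact sub_eq_zero.1 h4

lemma RR_rot (b : ℝ) (H : ℝ → ℝ → ℂ) (hH : Adm H) (hR : Rot H) : Rot (RR b H) := by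
  intro c hc t σ hσ
  rw [RR_comm c b H hH]
  obtain ⟨hcont, B, hB⟩ := hH
  have B0 := adm_nonneg hB
  have e1 : RR b (RR c H) t σ = -Complex.I * ∫ r in Set.Ioi (0:ℝ),
      Complex.exp (Complex.I * (b:ℂ) * (r:ℂ)) *
        ∫ s in Set.Ioi (0:ℝ), ((Real.exp (-(c * s)) : ℝ) : ℂ) * H (t + s) (σ + r) := by
    unfold RR
    congr 1
    refine setIntegral_congr_fun measurableSet_Ioi fun r hr => ?_
    show Complex.exp (Complex.I * (b:ℂ) * (r:ℂ)) * RR c H t (σ + r) = _
    rw [← hR c hc t (σ + r) (by have := mem_Ioi.1 hr; linarith)]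
  rw [e1]
  have e2 : ∀ s : ℝ, ((Real.exp (-(c * s)) : ℝ) : ℂ) * RR b H (t + s) σ = -Complex.I *
      ∫ r in Set.Ioi (0:ℝ), ((Real.exp (-(c * s)) : ℝ) : ℂ) *
        (Complex.exp (Complex.I * (b:ℂ) * (r:ℂ)) * H (t + s) (σ + r)) := by
    intro s
    rw [integral_const_mul]
    unfold RR
    ring
  simp_rw [e2]
  rw [integral_const_mul]
  congr 1
  rw [integral_integral_swap]
  · refine setIntegral_congr_fun measurableSet_Ioi fun r _ => ?_
    show _ = Complex.exp (Complex.I * (b:ℂ) * (r:ℂ)) * _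
    rw [← integral_const_mul]
    refine setIntegral_congr_fun measurableSet_Ioi fun s _ => ?_
    show ((Real.exp (-(c * s)) : ℝ) : ℂ) *
        (Complex.exp (Complex.I * (b:ℂ) * (r:ℂ)) * H (t + s) (σ + r)) = _ * (_ * _)
    ring
  · -- integrability on the product
    have ib : Integrable (Function.uncurry fun (s r : ℝ) =>
        (B * Real.exp (|t| / 4) * Real.exp (-(3/4) * s)) * Real.exp (-(σ + r)))
        ((volume.restrict (Ioi (0:ℝ))).prod (volume.restrict (Ioi (0:ℝ)))) := by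
      have i1 : Integrable (fun s : ℝ => B * Real.exp (|t| / 4) * Real.exp (-(3/4) * s))
          (volume.restrict (Ioi (0:ℝ))) :=
        (integrableOn_exp_mul_Ioi (a := -(3/4)) (by norm_num) 0).const_mul _
      exact i1.mul_prod (int_e σ)
    refine ib.mono' ?_ ?_
    · have : Continuous (Function.uncurry fun (s r : ℝ) => ((Real.exp (-(c * s)) : ℝ) : ℂ) *
        (Complex.exp (Complex.I * (b:ℂ) * (r:ℂ)) * H (t + s) (σ + r))) := by
        have h1 : Continuous fun q : ℝ × ℝ => H (t + q.1) (σ + q.2) :=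
          hcont.comp (by fun_prop : Continuous fun q : ℝ × ℝ => (t + q.1, σ + q.2))
        have h2 : Continuous fun q : ℝ × ℝ => ((Real.exp (-(c * q.1)) : ℝ) : ℂ) := by fun_prop
        have h3 : Continuous fun q : ℝ × ℝ => Complex.exp (Complex.I * (b:ℂ) * (q.2:ℂ)) := by
          fun_prop
        exact h2.mul (h3.mul h1)
      exact this.aestronglyMeasurable
    · rw [Measure.prod_restrict]
      refine (ae_restrict_iff' (measurableSet_Ioi.prod measurableSet_Ioi)).2
        (Eventually.of_forall fun q hq => ?_)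
      obtain ⟨s, r⟩ := q
      have hs : 0 < s := hq.1
      have hr : 0 < r := hq.2
      simp only [Function.uncurry]
      rw [norm_mul, norm_mul, norm_exp_I, one_mul, Complex.norm_real, Real.norm_eq_abs,
        abs_of_pos (Real.exp_pos _)]
      have h1 := hB (t + s) (σ + r)
      have h2 : Real.exp (-(σ + r) + |t + s| / 4) ≤
          Real.exp (|t| / 4) * Real.exp (s / 4) * Real.exp (-(σ + r)) := by
        rw [← Real.exp_add, ← Real.exp_add]
        refine Real.exp_le_exp.2 ?_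
        have := abs_add_le t s
        rw [abs_of_pos hs] at this
        linarith
      have h3 : Real.exp (-(c * s)) * Real.exp (s / 4) ≤ Real.exp (-(3/4) * s) := by
        rw [← Real.exp_add]
        refine Real.exp_le_exp.2 ?_
        nlinarith
      calc Real.exp (-(c * s)) * ‖H (t + s) (σ + r)‖
          ≤ Real.exp (-(c * s)) * (B * (Real.exp (|t| / 4) * Real.exp (s / 4) *
              Real.exp (-(σ + r)))) := by
            refine mul_le_mul_of_nonneg_left (h1.trans ?_) (Real.exp_pos _).le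
            exact mul_le_mul_of_nonneg_left h2 B0
        _ = (Real.exp (-(c * s)) * Real.exp (s / 4)) * (B * Real.exp (|t| / 4) *
              Real.exp (-(σ + r))) := by ring
        _ ≤ Real.exp (-(3/4) * s) * (B * Real.exp (|t| / 4) * Real.exp (-(σ + r))) := by
            refine mul_le_mul_of_nonneg_right h3 ?_
            positivity
        _ = _ := by ring

end Opa

theorem opa : S_OPA := by
  refine ⟨Opa.adm_RR, Opa.RR_add, Opa.RR_smul, Opa.RR_resolvent, Opa.RR_comm, Opa.RR_rot, ?_⟩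
  intro c x B Ω H hx hH hb t σ hσ
  rw [Opa.RR_eq]
  have := Opa.norm_R1_le (h := H t) (σ := σ) (x := x) (B := B * Ω t) hx (fun r hr => by
    refine (hb t (σ + r) (by linarith)).trans (le_of_eq (by ring))) c
  refine this.trans (le_of_eq (by ring))

end Pool.Agent.Helper53K9.WC

end
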