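import Pool.Agent.Helper53K9.WC.Opa

open MeasureTheory Set Filter Topology

noncomputable section

namespace Pool.Agent.Helper53K9.WC

namespace Opf

open Opa

lemma dl_pos (i : ℕ) : 0 < dl i := by unfold dl; positivity

lemma adm_zero : Adm 0 := ⟨continuous_const, 0, fun t σ => by simp⟩

lemma adm_add {H H' : ℝ → ℝ → ℂ} (h : Adm H) (h' : Adm H') : Adm (H + H') := by
  obtain ⟨hc, B, hB⟩ := h
  obtain ⟨hc', B', hB'⟩ := h'
  refine ⟨hc.add hc', B + B', fun t σ => ?_⟩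
  have := (norm_add_le (H t σ) (H' t σ)).trans (add_le_add (hB t σ) (hB' t σ))
  simp only [Pi.add_apply]
  linarith

lemma adm_smul (w : ℂ) {H : ℝ → ℝ → ℂ} (h : Adm H) : Adm (w • H) := by
  obtain ⟨hc, B, hB⟩ := h
  refine ⟨continuous_const.mul hc, ‖w‖ * B, fun t σ => ?_⟩
  simp only [Pi.smul_apply, smul_eq_mul, norm_mul]
  have := mul_le_mul_of_nonneg_left (hB t σ) (norm_nonneg w)
  linarith

/-- integrability in the real direction -/
lemma int_real {H : ℝ → ℝ → ℂ} (h : Adm H) {c : ℝ} (hc : 1 ≤ c) (t σ : ℝ) :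
    IntegrableOn (fun s : ℝ => ((Real.exp (-(c * s)) : ℝ) : ℂ) * H (t + s) σ) (Ioi 0) := by
  obtain ⟨hcont, B, hB⟩ := h
  have B0 := adm_nonneg hB
  have i1 : Integrable (fun s : ℝ => B * Real.exp (-σ + |t| / 4) * Real.exp (-(3/4) * s))
      (volume.restrict (Ioi (0:ℝ))) :=
    (integrableOn_exp_mul_Ioi (a := -(3/4)) (by norm_num) 0).const_mul _
  refine i1.mono' ?_ ?_
  · have : Continuous (fun s : ℝ => ((Real.exp (-(c * s)) : ℝ) : ℂ) * H (t + s) σ) := by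
      have h1 : Continuous fun s : ℝ => H (t + s) σ :=
        hcont.comp (by fun_prop : Continuous fun s : ℝ => (t + s, σ))
      have h2 : Continuous fun s : ℝ => ((Real.exp (-(c * s)) : ℝ) : ℂ) := by fun_prop
      exact h2.mul h1
    exact this.aestronglyMeasurable
  · refine (ae_restrict_iff' measurableSet_Ioi).2 (Eventually.of_forall fun s hs => ?_)
    have hs0 : 0 < s := hs
    rw [norm_mul, Complex.norm_real, Real.norm_eq_abs, abs_of_pos (Real.exp_pos _)]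
    refine (mul_le_mul_of_nonneg_left (hB _ _) (Real.exp_pos _).le).trans ?_
    have e : Real.exp (-(c * s)) * Real.exp (-σ + |t + s| / 4) ≤
        Real.exp (-σ + |t| / 4) * Real.exp (-(3/4) * s) := by
      rw [← Real.exp_add, ← Real.exp_add]
      refine Real.exp_le_exp.2 ?_
      have h1 := abs_add_le t s
      rw [abs_of_pos hs0] at h1
      nlinarith
    calc Real.exp (-(c * s)) * (B * Real.exp (-σ + |t + s| / 4))
        = B * (Real.exp (-(c * s)) * Real.exp (-σ + |t + s| / 4)) := by ring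
      _ ≤ B * (Real.exp (-σ + |t| / 4) * Real.exp (-(3/4) * s)) :=
          mul_le_mul_of_nonneg_left e B0
      _ = _ := by ring

lemma rot_zero : Rot 0 := by
  intro c hc t σ hσ
  simp [RR]

lemma rot_add {H H' : ℝ → ℝ → ℂ} (h : Adm H) (h' : Adm H') (r : Rot H) (r' : Rot H') :
    Rot (H + H') := by
  intro c hc t σ hσ
  rw [RR_add c H H' h h']
  simp only [Pi.add_apply]
  rw [← r c hc t σ hσ, ← r' c hc t σ hσ, ← integral_add (int_real h hc t σ) (int_real h' hc t σ)]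
  simp only [mul_add]

lemma rot_smul (w : ℂ) {H : ℝ → ℝ → ℂ} (r : Rot H) : Rot (w • H) := by
  intro c hc t σ hσ
  rw [RR_smul]
  simp only [Pi.smul_apply, smul_eq_mul]
  rw [← r c hc t σ hσ, ← integral_const_mul]
  refine setIntegral_congr_fun measurableSet_Ioi fun s _ => ?_
  show ((Real.exp (-(c * s)) : ℝ) : ℂ) * (w * H (t + s) σ) = w * (_ * _)
  ring

/-- admissible functions for which the rotation formula holds -/
def AR : Submodule ℂ (ℝ → ℝ → ℂ) where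
  carrier := {H | Adm H ∧ Rot H}
  add_mem' := fun h h' => ⟨adm_add h.1 h'.1, rot_add h.1 h'.1 h.2 h'.2⟩
  zero_mem' := ⟨adm_zero, rot_zero⟩
  smul_mem' := fun w _ h => ⟨adm_smul w h.1, rot_smul w h.2⟩

/-- the operator on `AR` -/
def Rop (c : ℝ) : Module.End ℂ AR where
  toFun H := ⟨RR c H.1, adm_RR c _ H.2.1, RR_rot c _ H.2.1 H.2.2⟩
  map_add' H H' := Subtype.ext (RR_add c _ _ H.2.1 H'.2.1)
  map_smul' w H := Subtype.ext (RR_smul c w _)

lemma Rop_val (c : ℝ) (H : AR) : ((Rop c H : AR) : ℝ → ℝ → ℂ) = RR c H.1 := rfl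

lemma Rop_comm (a b : ℝ) : Rop a * Rop b = Rop b * Rop a := by
  ext1 H
  exact Subtype.ext (RR_comm a b H.1 H.2.1)

lemma Rop_res (a b : ℝ) : Rop a = Rop b + ((b - a : ℝ) : ℂ) • (Rop a * Rop b) := by
  ext1 H
  exact Subtype.ext (RR_resolvent a b H.1 H.2.1)

/-- abstract inverse -/
lemma abs_inv {A : Type*} [Ring A] [Algebra ℂ A] (δ : ℂ) (hδ : δ ≠ 0) (K R : A)
    (h1 : K * R = R * K) (h2 : R = K + (-δ⁻¹) • (R * K)) :
    (δ • (1 : A) + K) * (δ⁻¹ • (1 - δ⁻¹ • R)) = 1 ∧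
    (δ⁻¹ • (1 - δ⁻¹ • R)) * (δ • (1 : A) + K) = 1 ∧
    δ⁻¹ • (R * (δ • (1 : A) + K)) = K := by
  have h4 : δ⁻¹ • (R * K) = K - R := by
    calc δ⁻¹ • (R * K) = K - (K + (-δ⁻¹) • (R * K)) := by module
      _ = K - R := by rw [← h2]
  have h3 : R * K = δ • (K - R) := by
    rw [← h4, smul_smul, mul_inv_cancel₀ hδ, one_smul]
  refine ⟨?_, ?_, ?_⟩
  · simp only [mul_smul_comm, mul_sub, mul_one, add_mul, smul_mul_assoc, one_mul, h1, h3]
    match_scalars <;> field_simp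
    all_goals ring
  · simp only [mul_smul_comm, sub_mul, mul_one, mul_add, smul_mul_assoc, one_mul, h3]
    match_scalars <;> field_simp
    all_goals ring
  · simp only [mul_smul_comm, mul_one, mul_add, h3]
    match_scalars <;> field_simp
    all_goals ring

lemma Rop_abs (i : ℕ) : ((dl i : ℂ) • (1 : Module.End ℂ AR) + Rop 1) *
      ((dl i : ℂ)⁻¹ • (1 - (dl i : ℂ)⁻¹ • Rop (1 + 1 / dl i))) = 1 ∧
    ((dl i : ℂ)⁻¹ • (1 - (dl i : ℂ)⁻¹ • Rop (1 + 1 / dl i))) *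
      ((dl i : ℂ) • (1 : Module.End ℂ AR) + Rop 1) = 1 ∧
    (dl i : ℂ)⁻¹ • (Rop (1 + 1 / dl i) * ((dl i : ℂ) • (1 : Module.End ℂ AR) + Rop 1)) =
      Rop 1 := by
  have hd : (dl i : ℂ) ≠ 0 := by exact_mod_cast (dl_pos i).ne'
  refine abs_inv (A := Module.End ℂ AR) (dl i : ℂ) hd (Rop 1) (Rop (1 + 1 / dl i))
    (Rop_comm _ _) ?_
  have h := Rop_res (1 + 1 / dl i) 1
  have e : (((1 - (1 + 1 / dl i) : ℝ)) : ℂ) = -(dl i : ℂ)⁻¹ := by
    push_cast; ring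
  rw [e] at h
  exact h

/-- the unit `δ_i + R_1` -/
def U (i : ℕ) : (Module.End ℂ AR)ˣ where
  val := (dl i : ℂ) • 1 + Rop 1
  inv := (dl i : ℂ)⁻¹ • (1 - (dl i : ℂ)⁻¹ • Rop (1 + 1 / dl i))
  val_inv := (Rop_abs i).1
  inv_val := (Rop_abs i).2.1

lemma U_comm (i j : ℕ) : U i * U j = U j * U i := by
  ext1
  show ((dl i : ℂ) • 1 + Rop 1) * ((dl j : ℂ) • 1 + Rop 1) =
    ((dl j : ℂ) • 1 + Rop 1) * ((dl i : ℂ) • 1 + Rop 1)
  simp only [mul_add, add_mul, smul_mul_assoc, mul_smul_comm, one_mul, mul_one]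
  module

def SS : Set (Module.End ℂ AR)ˣ := Set.range U

lemma SS_comm : ∀ x ∈ SS, ∀ y ∈ SS, x * y = y * x := by
  rintro _ ⟨i, rfl⟩ _ ⟨j, rfl⟩
  exact U_comm i j

abbrev CC := Subgroup.closure SS

instance : CommGroup CC :=
  { (inferInstance : Group CC) with
    mul_comm := (Subgroup.isMulCommutative_closure SS_comm).is_comm.comm }

def u (i : ℕ) : CC := ⟨U i, Subgroup.subset_closure ⟨i, rfl⟩⟩

/-- the product -/
def PR (d : ℕ →₀ ℤ) : CC := d.prod fun i k => u i ^ k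

lemma PR_zero : PR 0 = 1 := Finsupp.prod_zero_index

lemma PR_add (d d' : ℕ →₀ ℤ) : PR (d + d') = PR d * PR d' :=
  Finsupp.prod_add_index' (fun i => zpow_zero _) (fun i a b => zpow_add _ _ _)

lemma PR_single (i : ℕ) (k : ℤ) : PR (Finsupp.single i k) = u i ^ k :=
  Finsupp.prod_single_index (zpow_zero _)

/-- the action on functions -/
def act (c : CC) (H : AR) : AR := ((c : (Module.End ℂ AR)ˣ) : Module.End ℂ AR) H

lemma act_mul (c c' : CC) (H : AR) : act (c * c') H = act c (act c' H) := rfl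

lemma act_one (H : AR) : act 1 H = H := rfl

lemma act_u (i : ℕ) (H : AR) :
    ((act (u i) H : AR) : ℝ → ℝ → ℂ) = (dl i : ℂ) • H.1 + RR 1 H.1 := rfl

lemma act_u_inv (i : ℕ) (H : AR) : ((act (u i)⁻¹ H : AR) : ℝ → ℝ → ℂ) =
    (dl i : ℂ)⁻¹ • (H.1 - (dl i : ℂ)⁻¹ • RR (1 + 1 / dl i) H.1) := rfl

def Bd (x B : ℝ) (Ω : ℝ → ℝ) (H : ℝ → ℝ → ℂ) : Prop :=
  ∀ t σ, 0 ≤ σ → ‖H t σ‖ ≤ B * (Real.exp (-(x * σ)) * Ω t)

lemma RR_bd {c x B : ℝ} {Ω : ℝ → ℝ} {H : ℝ → ℝ → ℂ} (hx : 0 < x) (hb : Bd x B Ω H) :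
    Bd x (B / x) Ω (RR c H) := by
  intro t σ hσ
  rw [Opa.RR_eq]
  have := Opa.norm_R1_le (h := H t) (σ := σ) (x := x) (B := B * Ω t) hx (fun r hr => by
    refine (hb t (σ + r) (by linarith)).trans (le_of_eq (by ring))) c
  refine this.trans (le_of_eq (by ring))

lemma norm_dl (i : ℕ) : ‖(dl i : ℂ)‖ = dl i := by
  rw [Complex.norm_real, Real.norm_eq_abs, abs_of_pos (dl_pos i)]

lemma Bd_u {x B : ℝ} {Ω : ℝ → ℝ} (hx : 0 < x) (i : ℕ) {H : AR} (h : Bd x B Ω H.1) :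
    Bd x (B * (dl i + 1 / x)) Ω (act (u i) H).1 := by
  intro t σ hσ
  rw [act_u]
  simp only [Pi.add_apply, Pi.smul_apply, smul_eq_mul]
  have h1 := h t σ hσ
  have h2 := RR_bd (c := 1) hx h t σ hσ
  refine (norm_add_le _ _).trans ?_
  rw [norm_mul, norm_dl]
  calc dl i * ‖H.1 t σ‖ + ‖RR 1 H.1 t σ‖
      ≤ dl i * (B * (Real.exp (-(x * σ)) * Ω t)) + (B / x) * (Real.exp (-(x * σ)) * Ω t) :=
        add_le_add (mul_le_mul_of_nonneg_left h1 (dl_pos i).le) h2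
    _ = _ := by ring

lemma Bd_uinv {x B : ℝ} {Ω : ℝ → ℝ} (hx : 0 < x) (hB : 0 ≤ B) (hΩ : ∀ t, 0 ≤ Ω t) (i : ℕ)
    (hi : 1 / dl i ≤ x) {H : AR} (h : Bd x B Ω H.1) :
    Bd x (B * (2 / dl i)) Ω (act (u i)⁻¹ H).1 := by
  intro t σ hσ
  rw [act_u_inv]
  simp only [Pi.sub_apply, Pi.smul_apply, smul_eq_mul]
  have h1 := h t σ hσ
  have h2 := RR_bd (c := 1 + 1 / dl i) hx h t σ hσ
  have hd := dl_pos i
  set E := Real.exp (-(x * σ)) * Ω t with hE
  have E0 : 0 ≤ E := mul_nonneg (Real.exp_pos _).le (hΩ t)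
  rw [norm_mul, norm_inv, norm_dl]
  have h3 : ‖H.1 t σ - (dl i : ℂ)⁻¹ * RR (1 + 1 / dl i) H.1 t σ‖ ≤ 2 * (B * E) := by
    refine (norm_sub_le _ _).trans ?_
    rw [norm_mul, norm_inv, norm_dl]
    have h4 : (dl i)⁻¹ * ‖RR (1 + 1 / dl i) H.1 t σ‖ ≤ B * E := by
      calc (dl i)⁻¹ * ‖RR (1 + 1 / dl i) H.1 t σ‖ ≤ (dl i)⁻¹ * (B / x * E) :=
            mul_le_mul_of_nonneg_left h2 (inv_pos.2 hd).le
        _ = ((1 / dl i) / x) * (B * E) := by ring
        _ ≤ 1 * (B * E) := by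
            refine mul_le_mul_of_nonneg_right ?_ (mul_nonneg hB E0)
            rw [div_le_one hx]
            exact hi
        _ = B * E := one_mul _
    linarith
  calc (dl i)⁻¹ * ‖H.1 t σ - (dl i : ℂ)⁻¹ * RR (1 + 1 / dl i) H.1 t σ‖
      ≤ (dl i)⁻¹ * (2 * (B * E)) := mul_le_mul_of_nonneg_left h3 (inv_pos.2 hd).le
    _ = _ := by ring

lemma Bd_pow {x B : ℝ} {Ω : ℝ → ℝ} (hx : 0 < x) (i : ℕ) {H : AR} (h : Bd x B Ω H.1) (n : ℕ) :
    Bd x (B * (dl i + 1 / x) ^ n) Ω (act (u i ^ n) H).1 := by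
  induction n with
  | zero => simpa [act_one] using h
  | succ n ih =>
    have := Bd_u hx i (H := act (u i ^ n) H) ih
    rw [pow_succ' (u i) n, act_mul, pow_succ, ← mul_assoc]
    exact this

lemma Bd_inv_pow {x B : ℝ} {Ω : ℝ → ℝ} (hx : 0 < x) (hB : 0 ≤ B) (hΩ : ∀ t, 0 ≤ Ω t) (i : ℕ)
    (hi : 1 / dl i ≤ x) {H : AR} (h : Bd x B Ω H.1) (n : ℕ) :
    Bd x (B * (2 / dl i) ^ n) Ω (act ((u i)⁻¹ ^ n) H).1 := by
  induction n with
  | zero => simpa [act_one] using h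
  | succ n ih =>
    have hd := dl_pos i
    have := Bd_uinv hx (by positivity) hΩ i hi (H := act ((u i)⁻¹ ^ n) H) ih
    rw [pow_succ' (u i)⁻¹ n, act_mul, pow_succ, ← mul_assoc]
    exact this

lemma Bd_zpow {x B : ℝ} {Ω : ℝ → ℝ} (hx : 0 < x) (hB : 0 ≤ B) (hΩ : ∀ t, 0 ≤ Ω t) (i : ℕ)
    (k : ℤ) (hi : k < 0 → 1 / dl i ≤ x) {H : AR} (h : Bd x B Ω H.1) :
    Bd x (B * ((dl i + 1 / x) ^ k.toNat * (2 / dl i) ^ (-k).toNat)) Ω (act (u i ^ k) H).1 := by
  rcases le_or_gt 0 k with hk | hk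
  · obtain ⟨n, rfl⟩ := Int.eq_ofNat_of_zero_le hk
    have e : (-(n:ℤ)).toNat = 0 := Int.toNat_eq_zero.2 (by omega)
    rw [e, pow_zero, mul_one, Int.toNat_natCast, zpow_natCast]
    exact Bd_pow hx i h n
  · obtain ⟨n, hn⟩ := Int.eq_ofNat_of_zero_le (show 0 ≤ -k by omega)
    have e : k.toNat = 0 := Int.toNat_eq_zero.2 hk.le
    have e2 : k = -(n:ℤ) := by omega
    rw [e, pow_zero, one_mul, hn, Int.toNat_natCast, e2, zpow_neg, zpow_natCast, ← inv_pow]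
    exact Bd_inv_pow hx hB hΩ i (hi hk) h n

lemma Bd_PR {x B : ℝ} {Ω : ℝ → ℝ} (hx : 0 < x) (hB : 0 ≤ B) (hΩ : ∀ t, 0 ≤ Ω t) {H : AR}
    (h : Bd x B Ω H.1) (d : ℕ →₀ ℤ) : (∀ i, d i < 0 → 1 / dl i ≤ x) →
    Bd x (B * d.prod (fun i k => (dl i + 1 / x) ^ k.toNat * (2 / dl i) ^ (-k).toNat)) Ω
      (act (PR d) H).1 := by
  induction d using Finsupp.induction with
  | zero =>
    intro _
    simpa [PR_zero, act_one] using h
  | single_add a b f ha hb ih =>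
    intro hd
    have hfa : f a = 0 := Finsupp.notMem_support_iff.1 ha
    have h1 : ∀ i, f i < 0 → 1 / dl i ≤ x := by
      intro i hi
      refine hd i ?_
      have hne : i ≠ a := by rintro rfl; omega
      rw [Finsupp.add_apply, Finsupp.single_eq_of_ne hne, zero_add]
      exact hi
    have h2 := ih h1
    have hdis : Disjoint (Finsupp.single a b).support f.support := by
      rw [Finsupp.support_single_ne_zero _ hb]
      exact Finset.disjoint_singleton_left.2 ha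
    rw [Finsupp.prod_add_index_of_disjoint hdis, PR_add, PR_single, act_mul,
      Finsupp.prod_single_index (by simp)]
    have hnn : 0 ≤ f.prod (fun i k => (dl i + 1 / x) ^ k.toNat * (2 / dl i) ^ (-k).toNat) := by
      refine Finset.prod_nonneg fun i _ => ?_
      have := dl_pos i
      positivity
    have h3 := Bd_zpow hx (mul_nonneg hB hnn) hΩ a b (fun hb0 => by
      refine hd a ?_
      rw [Finsupp.add_apply, Finsupp.single_eq_same, hfa, add_zero]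
      exact hb0) h2
    intro t σ hσ
    refine (h3 t σ hσ).trans (le_of_eq ?_)
    ring

end Opf

theorem opf : S_OPF := by
  intro G hG hR
  set g : Opf.AR := ⟨G, hG, hR⟩ with hg
  refine ⟨fun d => (Opf.act (Opf.PR d) g).1, ?_, fun d => (Opf.act (Opf.PR d) g).2.1,
    fun d => (Opf.act (Opf.PR d) g).2.2, ?_, ?_, ?_⟩
  · simp only [Opf.PR_zero, Opf.act_one]
    rfl
  · intro d i
    simp only
    rw [add_comm d, Opf.PR_add, Opf.PR_single, zpow_one, Opf.act_mul, Opf.act_u]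
  · intro d i
    simp only
    rw [add_comm d, Opf.PR_add, Opf.PR_single, zpow_one, Opf.act_mul]
    have h := (Opf.Rop_abs i).2.2
    have h2 := congrArg (fun T : Module.End ℂ Opf.AR => ((T (Opf.act (Opf.PR d) g) : Opf.AR) :
      ℝ → ℝ → ℂ)) h
    exact h2
  · intro x B Ω hx hB hΩ hb d hd
    exact Opf.Bd_PR hx hB hΩ (H := g) hb d hd


end Pool.Agent.Helper53K9.WC

end
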