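import Pool.Agent.Helper53K9.WC.Dyad

/-! # PAR: existence of the parameters -/

set_option autoImplicit false

open Filter Topology

noncomputable section

namespace Pool.Agent.Helper53K9.WC

namespace ParL

lemma dyad_nonneg (u : ℝ) (j : ℕ) : 0 ≤ (2:ℝ) ^ j * (1 - Real.cos (u / 2 ^ j)) :=
  dyad_term_nonneg u j

lemma dyad_le_two (u : ℝ) (j : ℕ) : (2:ℝ) ^ j * (1 - Real.cos (u / 2 ^ j)) ≤ 2 * 2 ^ j := by
  rw [mul_comm (2:ℝ) ((2:ℝ) ^ j)]
  exact dyad_term_le_two u j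

/-- the state after stage `l - 1`: `k = k_l`, `q = q_l`, `e = e_l`, `be = β_l`, and `Q`, `AA`, `a`, `b`,
`D` with index `l - 1` -/
structure St where
  k : ℕ
  q : ℕ
  D : ℕ
  e : ℝ
  be : ℝ
  Q : ℝ
  AA : ℝ
  a : ℝ
  b : ℝ

structure Inv (s : St) : Prop where
  e0 : 0 ≤ s.e
  be0 : 0 < s.be
  Q0 : 0 ≤ s.Q
  AA0 : 0 ≤ s.AA
  a0 : 0 ≤ s.a
  b0 : 0 < s.b

structure Nx (l : ℕ) (s t : St) : Prop where
  k : t.k = s.k + 2 ^ s.q * 2 ^ (2 * l + 8)
  e : t.e = s.e + 2 * ∑ j ∈ Finset.Ico s.k t.k, (1 / 2 : ℝ) ^ s.q * 2 ^ j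
  D3 : 3 * (l + 3) ^ 2 ≤ t.D
  De : t.e ≤ t.D
  be : t.be = s.be * (2 * ((t.D : ℝ) + 1))
  b0 : 0 < t.b
  C8 : Real.exp t.e * (s.be * ep l * (2 / dl l) * Real.exp (-t.b / 2)) ≤
    (1 / 2) * (1 / 8) ^ ((l + 2) ^ 2)
  Q : t.Q = s.Q + t.D * t.b
  AA : t.AA = s.AA + t.D * t.a
  a0 : 0 < t.a
  C1 : 2 * (s.e + t.Q) ≤ 8 * (1 / 2) ^ s.q * t.a
  C4 : t.b * s.a ≤ s.b * t.a
  C5 : 8 * s.AA ≤ t.a
  C6 : (t.D : ℝ) ≤ t.a
  C7 : 4 * (t.Q + t.e + 1) ≤ t.a * (1 / 2) ^ (l + 3)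
  q : s.q < t.q
  C2 : 8 * (8 * (1 / 2) ^ t.q) * t.a ≤ t.b
  C3 : 8 * (1 / 2) ^ t.q * t.AA ≤ 1

lemma exists_q (N : ℕ) (A : ℝ) {B : ℝ} (hB : 0 < B) : ∃ q : ℕ, N < q ∧ (1 / 2 : ℝ) ^ q * A ≤ B := by
  have h1 : Tendsto (fun q : ℕ => (1 / 2 : ℝ) ^ q * A) atTop (𝓝 (0 * A)) :=
    (tendsto_pow_atTop_nhds_zero_of_lt_one (by norm_num) (by norm_num)).mul_const A
  rw [zero_mul] at h1
  have h2 := (h1.eventually (ge_mem_nhds hB)).and (eventually_gt_atTop N)
  obtain ⟨q, hq1, hq2⟩ := h2.exists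
  exact ⟨q, hq2, hq1⟩

lemma exists_b (A : ℝ) {B : ℝ} (hB : 0 < B) : ∃ b : ℝ, 0 < b ∧ A * Real.exp (-b / 2) ≤ B := by
  have h0 : Tendsto (fun b : ℝ => -b / 2) atTop atBot := by
    have : Tendsto (fun b : ℝ => b / 2) atTop atTop := tendsto_id.atTop_div_const (by norm_num)
    have h := tendsto_neg_atTop_atBot.comp this
    refine h.congr fun b => ?_
    simp only [Function.comp_apply]
    ring
  have h1 : Tendsto (fun b : ℝ => A * Real.exp (-b / 2)) atTop (𝓝 (A * 0)) :=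
    (Real.tendsto_exp_atBot.comp h0).const_mul A
  rw [mul_zero] at h1
  have h2 := (h1.eventually (ge_mem_nhds hB)).and (eventually_gt_atTop (0:ℝ))
  obtain ⟨b, hb1, hb2⟩ := h2.exists
  exact ⟨b, hb2, hb1⟩

lemma step (l : ℕ) (s : St) (hs : Inv s) : ∃ t : St, Nx l s t ∧ Inv t := by
  obtain ⟨he0, hbe0, hQ0, hAA0, ha0, hb0⟩ := hs
  set k' : ℕ := s.k + 2 ^ s.q * 2 ^ (2 * l + 8) with hk'
  set e' : ℝ := s.e + 2 * ∑ j ∈ Finset.Ico s.k k', (1 / 2 : ℝ) ^ s.q * 2 ^ j with he'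
  have he'0 : 0 ≤ e' := by
    rw [he']
    have : 0 ≤ ∑ j ∈ Finset.Ico s.k k', (1 / 2 : ℝ) ^ s.q * 2 ^ j :=
      Finset.sum_nonneg fun j _ => by positivity
    linarith
  obtain ⟨D0, hD0⟩ := exists_nat_ge e'
  set D' : ℕ := max D0 (3 * (l + 3) ^ 2) with hD'
  have hDe : e' ≤ (D' : ℝ) := hD0.trans (by exact_mod_cast le_max_left _ _)
  obtain ⟨b', hb', hb'8⟩ := exists_b (Real.exp e' * (s.be * ep l * (2 / dl l)))
    (show (0:ℝ) < (1 / 2) * (1 / 8) ^ ((l + 2) ^ 2) by positivity)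
  set Q' : ℝ := s.Q + D' * b' with hQ'
  have hQ'0 : 0 ≤ Q' := by positivity
  set ap : ℝ := 1 + (2 * (s.e + Q')) / (8 * (1 / 2) ^ s.q) + b' * s.a / s.b + 8 * s.AA + D' +
    4 * (Q' + e' + 1) / (1 / 2) ^ (l + 3) with hap
  have q1 : 0 ≤ (2 * (s.e + Q')) / (8 * (1 / 2) ^ s.q) := by positivity
  have q2 : 0 ≤ b' * s.a / s.b := by positivity
  have q3 : 0 ≤ 8 * s.AA := by positivity
  have q4 : (0:ℝ) ≤ D' := by positivity
  have q5 : 0 ≤ 4 * (Q' + e' + 1) / (1 / 2 : ℝ) ^ (l + 3) := by positivity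
  have hap0 : 0 < ap := by linarith
  obtain ⟨qa, hqa1, hqa2⟩ := exists_q s.q (64 * ap) hb'
  obtain ⟨qb, hqb1, hqb2⟩ := exists_q qa (8 * (s.AA + D' * ap)) one_pos
  refine ⟨⟨k', qb, D', e', s.be * (2 * ((D' : ℝ) + 1)), Q', s.AA + D' * ap, ap, b'⟩,
    ⟨rfl, rfl, le_max_right _ _, hDe, rfl, hb', ?_, rfl, rfl, hap0, ?_, ?_, ?_, ?_, ?_, ?_, ?_, ?_⟩,
    ⟨he'0, by positivity, hQ'0, by positivity, hap0.le, hb'⟩⟩
  · calc Real.exp e' * (s.be * ep l * (2 / dl l) * Real.exp (-b' / 2))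
        = Real.exp e' * (s.be * ep l * (2 / dl l)) * Real.exp (-b' / 2) := by ring
      _ ≤ _ := hb'8
  · have h1 : (2 * (s.e + Q')) / (8 * (1 / 2) ^ s.q) ≤ ap := by linarith
    rw [div_le_iff₀ (by positivity)] at h1
    linarith
  · have h1 : b' * s.a / s.b ≤ ap := by linarith
    rw [div_le_iff₀ hb0] at h1
    linarith
  · show 8 * s.AA ≤ ap
    linarith
  · show (D' : ℝ) ≤ ap
    linarith
  · have h1 : 4 * (Q' + e' + 1) / (1 / 2 : ℝ) ^ (l + 3) ≤ ap := by linarith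
    rw [div_le_iff₀ (by positivity)] at h1
    exact h1
  · show s.q < qb
    omega
  · show 8 * (8 * (1 / 2 : ℝ) ^ qb) * ap ≤ b'
    have h1 : (1 / 2 : ℝ) ^ qb ≤ (1 / 2) ^ qa :=
      pow_le_pow_of_le_one (by norm_num) (by norm_num) hqb1.le
    calc 8 * (8 * (1 / 2 : ℝ) ^ qb) * ap = (1 / 2 : ℝ) ^ qb * (64 * ap) := by ring
      _ ≤ (1 / 2 : ℝ) ^ qa * (64 * ap) := mul_le_mul_of_nonneg_right h1 (by positivity)
      _ ≤ b' := hqa2
  · show 8 * (1 / 2 : ℝ) ^ qb * (s.AA + D' * ap) ≤ 1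
    calc 8 * (1 / 2 : ℝ) ^ qb * (s.AA + D' * ap) = (1 / 2 : ℝ) ^ qb * (8 * (s.AA + D' * ap)) := by
          ring
      _ ≤ 1 := hqb2

lemma exists_seq : ∃ f : ℕ → St, (f 0 = ⟨0, 7, 0, 0, 2, 0, 0, 0, 1⟩) ∧ (∀ l, Inv (f l)) ∧
    ∀ l, Nx l (f l) (f (l + 1)) := by
  choose g hg using step
  let F : (n : ℕ) → {s : St // Inv s} := fun n => Nat.rec
    ⟨⟨0, 7, 0, 0, 2, 0, 0, 0, 1⟩, ⟨le_rfl, two_pos, le_rfl, le_rfl, le_rfl, one_pos⟩⟩
    (fun l s => ⟨g l s.1 s.2, (hg l s.1 s.2).2⟩) n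
  exact ⟨fun n => (F n).1, rfl, fun l => (F l).2, fun l => (hg l (F l).1 (F l).2).1⟩

end ParL

open ParL in
theorem par : S_PAR := by
  classical
  obtain ⟨f, f0, fI, fN⟩ := exists_seq
  have hk : StrictMono fun l => (f l).k := by
    refine strictMono_nat_of_lt_succ fun l => ?_
    have h1 := (fN l).k
    have h2 : 0 < 2 ^ (f l).q * 2 ^ (2 * l + 8) := by positivity
    show (f l).k < (f (l + 1)).k
    omega
  have hq : StrictMono fun l => (f l).q := strictMono_nat_of_lt_succ fun l => (fN l).q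
  have hk0 : (f 0).k = 0 := by rw [f0]
  -- the index of `j`
  set ix : ℕ → ℕ := fun j => Nat.findGreatest (fun l => (f l).k ≤ j) j with hix
  have hix1 : ∀ l j, (f l).k ≤ j → l ≤ ix j := by
    intro l j h
    refine Nat.le_findGreatest ?_ h
    exact (hk.le_apply (x := l)).trans h
  have hix2 : ∀ l j, j < (f l).k → ix j < l := by
    intro l j h
    by_contra hc
    push Not at hc
    have h1 : (f (ix j)).k ≤ j := by
      have := Nat.findGreatest_spec (P := fun l => (f l).k ≤ j) (m := 0) (n := j) (Nat.zero_le _)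
        (by rw [hk0]; exact Nat.zero_le _)
      exact this
    have h2 : (f l).k ≤ (f (ix j)).k := hk.monotone hc
    omega
  set s : ℕ → ℝ := fun j => (1 / 2) ^ (f (ix j)).q with hs
  have hsI : ∀ l, ∀ j ∈ Finset.Ico (f l).k (f (l + 1)).k, s j = (1 / 2) ^ (f l).q := by
    intro l j hj
    rw [Finset.mem_Ico] at hj
    have h1 := hix1 l j hj.1
    have h2 := hix2 (l + 1) j hj.2
    have h3 : ix j = l := by omega
    rw [hs]
    simp only [h3]
  have hle : ∀ l j, (f l).k ≤ j → s j ≤ (1 / 2) ^ (f l).q := by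
    intro l j h
    exact pow_le_pow_of_le_one (by norm_num) (by norm_num) (hq.monotone (hix1 l j h))
  have hs0 : ∀ j, 0 ≤ s j := fun j => by positivity
  have hs1 : ∀ j, s j ≤ 1 := fun j => pow_le_one₀ (by norm_num) (by norm_num)
  have hsplit : ∀ l (F : ℕ → ℝ), ∑ j ∈ Finset.range (f (l + 1)).k, F j =
      ∑ j ∈ Finset.range (f l).k, F j + ∑ j ∈ Finset.Ico (f l).k (f (l + 1)).k, F j := by
    intro l F
    rw [Finset.sum_range_add_sum_Ico _ (hk (Nat.lt_succ_self l)).le]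
  have he : ∀ l, (f l).e = 2 * ∑ j ∈ Finset.range (f l).k, s j * 2 ^ j := by
    intro l
    induction l with
    | zero => rw [hk0, f0]; simp
    | succ l ih =>
      rw [hsplit, (fN l).e, ih, mul_add]
      congr 2
      exact Finset.sum_congr rfl fun j hj => by rw [hsI l j hj]
  let p : Par :=
    { a := fun l => (f (l + 1)).a
      b := fun l => (f (l + 1)).b
      D := fun l => (f (l + 1)).D
      e := fun l => (f l).e
      x := fun l => 64 + ∑ j ∈ Finset.range (f l).k, s j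
      τ := fun l => 8 * (1 / 2) ^ (f l).q
      M := fun l => 4 * ((f (l + 1)).Q + (f (l + 1)).e + 1)
      s := s
      k := fun l => (f l).k }
  have hQ : ∀ l, p.Q l = (f (l + 1)).Q := by
    intro l
    induction l with
    | zero =>
      unfold Par.Q
      rw [Finset.sum_range_succ, Finset.sum_range_zero, (fN 0).Q, f0]
    | succ l ih =>
      unfold Par.Q at ih ⊢
      rw [Finset.sum_range_succ, ih, (fN (l + 1)).Q]
  have hAA : ∀ l, p.AA l = (f (l + 1)).AA := by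
    intro l
    induction l with
    | zero =>
      unfold Par.AA
      rw [Finset.sum_range_succ, Finset.sum_range_zero, (fN 0).AA, f0]
    | succ l ih =>
      unfold Par.AA at ih ⊢
      rw [Finset.sum_range_succ, ih, (fN (l + 1)).AA]
  have hbe : ∀ l, be p.D l = (f l).be := by
    intro l
    induction l with
    | zero =>
      unfold be
      rw [f0]
      simp
    | succ l ih =>
      unfold be at ih ⊢
      rw [Finset.prod_range_succ, ← mul_assoc, ih, (fN l).be]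
  have hq7 : ∀ l, l + 7 ≤ (f l).q := by
    intro l
    induction l with
    | zero => rw [f0]
    | succ l ih =>
      have := (fN l).q
      omega
  refine ⟨p, ?_⟩
  refine
    { a_pos := fun l => (fN l).a0
      b_pos := fun l => (fN l).b0
      D_big := fun l => (fN l).D3
      e_zero := by show (f 0).e = 0; rw [f0]
      e_nonneg := fun l => (fI l).e0
      tau_pos := fun l => by show 0 < 8 * (1 / 2 : ℝ) ^ (f l).q; positivity
      tau_anti := ?_
      tau_zero := ?_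
      tau_lim := ?_
      C1 := ?_
      C2 := ?_
      C3 := ?_
      C4 := ?_
      C5 := ?_
      C6 := fun l => (fN l).De
      C6' := fun l => (fN l).C6
      C7 := fun l => by rw [hQ]
      C7' := fun l => (fN l).C7
      C8 := ?_
      s_nonneg := hs0
      s_le_one := hs1
      x_def := fun l => rfl
      e_def := he
      x_big := ?_
      P_le := ?_ }
  · intro l m hlm
    show 8 * (1 / 2 : ℝ) ^ (f m).q ≤ 8 * (1 / 2 : ℝ) ^ (f l).q
    have := pow_le_pow_of_le_one (a := (1 / 2 : ℝ)) (by norm_num) (by norm_num) (hq.monotone hlm)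
    linarith
  · show 8 * (1 / 2 : ℝ) ^ (f 0).q ≤ 1 / 16
    rw [f0]
    norm_num
  · show Tendsto (fun l => 8 * (1 / 2 : ℝ) ^ (f l).q) atTop (𝓝 0)
    have h1 : Tendsto (fun l => (1 / 2 : ℝ) ^ (f l).q) atTop (𝓝 0) :=
      (tendsto_pow_atTop_nhds_zero_of_lt_one (by norm_num) (by norm_num)).comp hq.tendsto_atTop
    have h2 := h1.const_mul 8
    rwa [mul_zero] at h2
  · intro l
    rw [hQ]
    exact (fN l).C1
  · intro l
    exact (fN l).C2
  · intro l
    rw [hAA]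
    exact (fN l).C3
  · intro l
    exact (fN (l + 1)).C4
  · intro l
    rw [hAA]
    exact (fN (l + 1)).C5
  · intro l
    unfold Par.rho
    rw [hbe]
    exact (fN l).C8
  · intro l
    show (2:ℝ) ^ (2 * l + 6) ≤ 64 + ∑ j ∈ Finset.range (f l).k, s j
    cases l with
    | zero => rw [hk0]; norm_num
    | succ l =>
      rw [hsplit]
      have h1 : 0 ≤ ∑ j ∈ Finset.range (f l).k, s j := Finset.sum_nonneg fun j _ => hs0 j
      have h2 : ∑ j ∈ Finset.Ico (f l).k (f (l + 1)).k, s j = 2 ^ (2 * l + 8) := by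
        rw [Finset.sum_congr rfl (hsI l), Finset.sum_const, Nat.card_Ico, (fN l).k,
          Nat.add_sub_cancel_left, nsmul_eq_mul]
        push_cast
        rw [one_div, inv_pow]
        field_simp
      rw [h2]
      have h3 : 2 * (l + 1) + 6 = 2 * l + 8 := by ring
      rw [h3]
      linarith
  · intro l u
    show ∑' j : ℕ, s j * 2 ^ j * (1 - Real.cos (u / 2 ^ j)) ≤ (f l).e + 8 * (1 / 2) ^ (f l).q * |u|
    obtain ⟨hd1, hd2⟩ := dyad u
    have hterm0 : ∀ j, 0 ≤ s j * 2 ^ j * (1 - Real.cos (u / 2 ^ j)) := fun j => by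
      rw [mul_assoc]
      exact mul_nonneg (hs0 j) (dyad_nonneg u j)
    have hsum : Summable fun j : ℕ => s j * 2 ^ j * (1 - Real.cos (u / 2 ^ j)) := by
      refine Summable.of_nonneg_of_le hterm0 (fun j => ?_) hd1
      rw [mul_assoc]
      exact mul_le_of_le_one_left (dyad_nonneg u j) (hs1 j)
    rw [← hsum.sum_add_tsum_nat_add (f l).k, he l]
    have h1 : ∑ j ∈ Finset.range (f l).k, s j * 2 ^ j * (1 - Real.cos (u / 2 ^ j)) ≤
        2 * ∑ j ∈ Finset.range (f l).k, s j * 2 ^ j := by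
      rw [Finset.mul_sum]
      refine Finset.sum_le_sum fun j _ => ?_
      rw [mul_assoc]
      have h2 := mul_le_mul_of_nonneg_left (dyad_le_two u j) (hs0 j)
      linarith
    have h2 : ∑' j : ℕ, s (j + (f l).k) * 2 ^ (j + (f l).k) *
        (1 - Real.cos (u / 2 ^ (j + (f l).k))) ≤ (1 / 2) ^ (f l).q * (8 * |u|) := by
      have h3 : Summable fun j : ℕ => (2:ℝ) ^ (j + (f l).k) * (1 - Real.cos (u / 2 ^ (j + (f l).k))) :=
        (summable_nat_add_iff (f l).k).2 hd1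
      calc _ ≤ ∑' j : ℕ, (1 / 2 : ℝ) ^ (f l).q *
            ((2:ℝ) ^ (j + (f l).k) * (1 - Real.cos (u / 2 ^ (j + (f l).k)))) := by
            refine Summable.tsum_le_tsum (fun j => ?_) ((summable_nat_add_iff (f l).k).2 hsum)
              (h3.mul_left _)
            rw [mul_assoc]
            exact mul_le_mul_of_nonneg_right (hle l _ (Nat.le_add_left _ _)) (dyad_nonneg u _)
        _ = (1 / 2 : ℝ) ^ (f l).q * ∑' j : ℕ,
            ((2:ℝ) ^ (j + (f l).k) * (1 - Real.cos (u / 2 ^ (j + (f l).k)))) := tsum_mul_left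
        _ ≤ (1 / 2 : ℝ) ^ (f l).q * (8 * |u|) := by
            refine mul_le_mul_of_nonneg_left ?_ (by positivity)
            have h4 := hd1.sum_add_tsum_nat_add (f l).k
            have h5 : 0 ≤ ∑ j ∈ Finset.range (f l).k, (2:ℝ) ^ j * (1 - Real.cos (u / 2 ^ j)) :=
              Finset.sum_nonneg fun j _ => dyad_nonneg u j
            linarith
    linarith

end Pool.Agent.Helper53K9.WC

end
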