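import Pool.Agent.Helper53K9.WC.Defs

/-!
ROT: rotation of the contour of integration.
-/

set_option autoImplicit false

open MeasureTheory Set Filter Topology

noncomputable section

namespace Pool.Agent.Helper53K9.WC

theorem rot_decay (K : ℝ) : Tendsto (fun T : ℝ => K * Real.exp (-(3 / 4) * T) * T) atTop (𝓝 0) := by
  have h1 := tendsto_rpow_mul_exp_neg_mul_atTop_nhds_zero 1 (3 / 4) (by norm_num)
  have h2 := h1.const_mul K
  rw [mul_zero] at h2
  refine h2.congr fun T => ?_
  rw [Real.rpow_one]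
  ring

theorem rot : S_ROT := by
  intro h B hd hb c hc t
  have hB : 0 ≤ B := by
    have h1 := hb 0 0 le_rfl
    have h2 := norm_nonneg (h ((0 : ℝ) - ((0 : ℝ) : ℂ) * Complex.I))
    have h3 : B * Real.exp (-0 + |(0 : ℝ)| / 4) = B := by simp
    rw [h3] at h1
    exact h2.trans h1
  set K : ℝ := B * Real.exp (|t| / 4) with hK
  have hK0 : 0 ≤ K := mul_nonneg hB (Real.exp_pos _).le
  set G : ℂ → ℂ := fun z => Complex.exp (-(c * z)) * h (t + z) with hG
  -- bound on the lower right quadrant
  have hbd : ∀ x y : ℝ, 0 ≤ x → y ≤ 0 → ‖G (x + y * Complex.I)‖ ≤ K * Real.exp (-(3 / 4) * x + y) := by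
    intro x y hx hy
    have e1 : (t : ℂ) + (x + y * Complex.I) = ((t + x : ℝ) : ℂ) - ((-y : ℝ) : ℂ) * Complex.I := by
      push_cast
      ring
    have e2 : ‖Complex.exp (-(c * (x + y * Complex.I)))‖ = Real.exp (-(c * x)) := by
      rw [Complex.norm_exp]
      congr 1
      simp
    rw [hG]
    simp only
    rw [norm_mul, e1, e2]
    have h1 := hb (t + x) (-y) (by linarith)
    have h2 : |t + x| ≤ |t| + x := (abs_add_le t x).trans (by rw [abs_of_nonneg hx])
    calc Real.exp (-(c * x)) * ‖h (((t + x : ℝ) : ℂ) - ((-y : ℝ) : ℂ) * Complex.I)‖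
        ≤ Real.exp (-(c * x)) * (B * Real.exp (- -y + |t + x| / 4)) :=
          mul_le_mul_of_nonneg_left h1 (Real.exp_pos _).le
      _ = B * Real.exp (-(c * x) + (- -y + |t + x| / 4)) := by
          rw [Real.exp_add (-(c * x))]
          ring
      _ ≤ B * Real.exp (|t| / 4 + (-(3 / 4) * x + y)) := by
          refine mul_le_mul_of_nonneg_left (Real.exp_le_exp.2 ?_) hB
          nlinarith
      _ = K * Real.exp (-(3 / 4) * x + y) := by
          rw [Real.exp_add, hK]
          ring
  -- differentiability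
  have hGd : DifferentiableOn ℂ G {z | z.im < 1} := by
    refine DifferentiableOn.mul ?_ ?_
    · exact ((differentiable_id.const_mul (c : ℂ)).neg.cexp).differentiableOn
    · refine hd.comp ((differentiable_id.const_add (t : ℂ)).differentiableOn) fun z hz => ?_
      change ((t : ℂ) + z).im < 1
      have h1 : z.im < 1 := hz
      simpa using h1
  have hGc : ContinuousOn G {z | z.im < 1} := hGd.continuousOn
  have hcx : ContinuousOn (fun x : ℝ => G x) (Ici 0) := by
    refine hGc.comp Complex.continuous_ofReal.continuousOn fun x _ => ?_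
    change ((x : ℝ) : ℂ).im < 1
    simp
  have hcy : ContinuousOn (fun r : ℝ => G (-(r * Complex.I))) (Ici 0) := by
    refine hGc.comp (by fun_prop) fun r hr => ?_
    change (-((r : ℂ) * Complex.I)).im < 1
    have h1 : (0 : ℝ) ≤ r := hr
    simp
    linarith
  -- integrability
  have hint1 : IntegrableOn (fun x : ℝ => G x) (Ioi 0) := by
    refine Integrable.mono' (g := fun x : ℝ => K * Real.exp (-(3 / 4) * x)) ?_ ?_ ?_
    · exact (integrableOn_exp_mul_Ioi (by norm_num) 0).const_mul K
    · exact (hcx.mono Ioi_subset_Ici_self).aestronglyMeasurable measurableSet_Ioi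
    · refine (ae_restrict_iff' measurableSet_Ioi).2 (Eventually.of_forall fun x hx => ?_)
      have h1 := hbd x 0 (le_of_lt hx) le_rfl
      simpa using h1
  have hint2 : IntegrableOn (fun r : ℝ => G (-(r * Complex.I))) (Ioi 0) := by
    refine Integrable.mono' (g := fun x : ℝ => K * Real.exp (-1 * x)) ?_ ?_ ?_
    · exact (integrableOn_exp_mul_Ioi (by norm_num) 0).const_mul K
    · exact (hcy.mono Ioi_subset_Ici_self).aestronglyMeasurable measurableSet_Ioi
    · refine (ae_restrict_iff' measurableSet_Ioi).2 (Eventually.of_forall fun x hx => ?_)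
      have hx0 : (0 : ℝ) < x := hx
      have h1 := hbd 0 (-x) le_rfl (by linarith)
      have e1 : ((0 : ℝ) : ℂ) + ((-x : ℝ) : ℂ) * Complex.I = -(x * Complex.I) := by
        push_cast
        ring
      rw [e1] at h1
      simpa using h1
  -- Cauchy's theorem
  have hcau : ∀ T : ℝ, 0 ≤ T → (∫ x in (0 : ℝ)..T, G x) =
      (∫ x in (0 : ℝ)..T, G (x + ((-T : ℝ) : ℂ) * Complex.I)) +
        Complex.I * (∫ y in (-T)..(0 : ℝ), G ((T : ℂ) + y * Complex.I)) -
        Complex.I * ∫ r in (0 : ℝ)..T, G (-(r * Complex.I)) := by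
    intro T hT
    have h1 := Complex.integral_boundary_rect_eq_zero_of_differentiableOn G
      (⟨0, -T⟩ : ℂ) (⟨T, 0⟩ : ℂ) (hGd.mono fun z hz => by
        have h2 := hz.2
        simp only [mem_preimage] at h2
        rw [uIcc_of_le (by linarith)] at h2
        exact lt_of_le_of_lt h2.2 one_pos)
    simp only [smul_eq_mul] at h1
    have e1 : (∫ x in (0 : ℝ)..T, G (x + ((0 : ℝ) : ℂ) * Complex.I)) = ∫ x in (0 : ℝ)..T, G x := by
      refine intervalIntegral.integral_congr fun x _ => ?_
      simp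
    have e2 : (∫ y in (-T)..(0 : ℝ), G (((0 : ℝ) : ℂ) + y * Complex.I)) =
        ∫ r in (0 : ℝ)..T, G (-(r * Complex.I)) := by
      have e3 := intervalIntegral.integral_comp_neg (a := 0) (b := T)
        (f := fun y : ℝ => G (((0 : ℝ) : ℂ) + y * Complex.I))
      rw [neg_zero] at e3
      rw [← e3]
      refine intervalIntegral.integral_congr fun x _ => ?_
      congr 1
      push_cast
      ring
    rw [e1, e2] at h1
    linear_combination -h1
  -- the limits
  have hl1 : Tendsto (fun T : ℝ => ∫ x in (0 : ℝ)..T, G x) atTop (𝓝 (∫ x in Ioi (0 : ℝ), G x)) :=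
    intervalIntegral_tendsto_integral_Ioi 0 hint1 tendsto_id
  have hl2 : Tendsto (fun T : ℝ => ∫ r in (0 : ℝ)..T, G (-(r * Complex.I))) atTop
      (𝓝 (∫ r in Ioi (0 : ℝ), G (-(r * Complex.I)))) :=
    intervalIntegral_tendsto_integral_Ioi 0 hint2 tendsto_id
  have hl3 : Tendsto (fun T : ℝ => ∫ x in (0 : ℝ)..T, G (x + ((-T : ℝ) : ℂ) * Complex.I)) atTop
      (𝓝 0) := by
    refine squeeze_zero_norm' ?_ (rot_decay K)
    filter_upwards [eventually_ge_atTop (0 : ℝ)] with T hT
    have h1 : ∀ x ∈ Set.uIoc (0 : ℝ) T, ‖G (x + ((-T : ℝ) : ℂ) * Complex.I)‖ ≤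
        K * Real.exp (-(3 / 4) * T) := by
      intro x hx
      rw [uIoc_of_le hT] at hx
      refine (hbd x (-T) hx.1.le (by linarith)).trans ?_
      refine mul_le_mul_of_nonneg_left (Real.exp_le_exp.2 ?_) hK0
      have := hx.1
      linarith
    have h2 := intervalIntegral.norm_integral_le_of_norm_le_const h1
    rwa [sub_zero, abs_of_nonneg hT] at h2
  have hl4 : Tendsto (fun T : ℝ => ∫ y in (-T)..(0 : ℝ), G ((T : ℂ) + y * Complex.I)) atTop
      (𝓝 0) := by
    refine squeeze_zero_norm' ?_ (rot_decay K)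
    filter_upwards [eventually_ge_atTop (0 : ℝ)] with T hT
    have h1 : ∀ y ∈ Set.uIoc (-T) (0 : ℝ), ‖G ((T : ℂ) + y * Complex.I)‖ ≤
        K * Real.exp (-(3 / 4) * T) := by
      intro y hy
      rw [uIoc_of_le (by linarith)] at hy
      refine (hbd T y hT hy.2).trans ?_
      refine mul_le_mul_of_nonneg_left (Real.exp_le_exp.2 ?_) hK0
      have := hy.2
      linarith
    have h2 := intervalIntegral.norm_integral_le_of_norm_le_const h1
    rwa [zero_sub, neg_neg, abs_of_nonneg hT] at h2
  have hl5 : Tendsto (fun T : ℝ => ∫ x in (0 : ℝ)..T, G x) atTop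
      (𝓝 (0 + Complex.I * 0 - Complex.I * ∫ r in Ioi (0 : ℝ), G (-(r * Complex.I)))) := by
    refine Tendsto.congr' ?_ ((hl3.add (hl4.const_mul Complex.I)).sub (hl2.const_mul Complex.I))
    filter_upwards [eventually_ge_atTop (0 : ℝ)] with T hT
    exact (hcau T hT).symm
  have hfin := tendsto_nhds_unique hl1 hl5
  rw [mul_zero, zero_add, zero_sub] at hfin
  have e1 : (∫ s in Ioi (0 : ℝ), ((Real.exp (-(c * s)) : ℝ) : ℂ) * h ((t : ℂ) + (s : ℂ))) =
      ∫ x in Ioi (0 : ℝ), G x := by
    refine setIntegral_congr_fun measurableSet_Ioi fun x _ => ?_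
    simp only [hG]
    push_cast
    rfl
  have e2 : (∫ r in Ioi (0 : ℝ), Complex.exp (Complex.I * (c : ℂ) * (r : ℂ)) *
      h ((t : ℂ) - (r : ℂ) * Complex.I)) = ∫ r in Ioi (0 : ℝ), G (-(r * Complex.I)) := by
    refine setIntegral_congr_fun measurableSet_Ioi fun x _ => ?_
    simp only [hG]
    congr 1
    congr 1
    ring
  rw [e1, e2, hfin]
  ring

end Pool.Agent.Helper53K9.WC

end
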