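import Pool.Agent.Helper53K9.WC.Defs

/-! Leaf STAR (helper80) of the relay of helper53, MP_27fa52_an. -/

open MeasureTheory Set Filter Topology

noncomputable section

namespace Pool.Agent.Helper53K9.WC

namespace StarL

variable {p : Par}

lemma tau_nn (hp : p.Good) (l : ℕ) : 0 ≤ p.τ l := (hp.tau_pos l).le

lemma a_mono_succ (hp : p.Good) (l : ℕ) : p.a l ≤ p.a (l + 1) := by
  have h1 := hp.C5 l
  have h2 : (p.D l : ℝ) * p.a l ≤ p.AA l := by
    unfold Par.AA
    exact Finset.single_le_sum (f := fun i => (p.D i : ℝ) * p.a i)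
      (fun i _ => mul_nonneg (Nat.cast_nonneg _) (hp.a_pos i).le)
      (Finset.self_mem_range_succ l)
  have h3 : (1 : ℝ) ≤ p.D l := by
    have := hp.D_big l
    have h4 : 1 ≤ p.D l := le_trans (Nat.one_le_iff_ne_zero.mpr (by positivity)) this
    exact_mod_cast h4
  have h5 := hp.a_pos l
  nlinarith

lemma a_mono (hp : p.Good) : Monotone p.a := monotone_nat_of_le_succ (a_mono_succ hp)

lemma c_nonneg (hp : p.Good) (j : ℕ) : 0 ≤ p.c j := by
  cases j with
  | zero => simp [Par.c]
  | succ j => exact (hp.a_pos j).le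

lemma e_le_c (hp : p.Good) (j : ℕ) : p.e j ≤ p.c j := by
  cases j with
  | zero => simp [Par.c, hp.e_zero]
  | succ j => exact (hp.C6 j).trans (hp.C6' j)

lemma toNat_sub (k : ℤ) : (k : ℝ) = (k.toNat : ℝ) - ((-k).toNat : ℝ) := by
  have h : k = (k.toNat : ℤ) - ((-k).toNat : ℤ) := by omega
  exact_mod_cast h

end StarL

open StarL

theorem star : S_STAR := by
  intro p hp R h1 h2 n hn u j
  by_cases hn0 : n = 0
  · subst hn0
    simp only [Finsupp.sum_zero_index, mul_zero, sub_zero, zero_add]
    have h3 := h1 u j
    have h4 := e_le_c hp j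
    have h5 := mul_nonneg (tau_nn hp j) (abs_nonneg u)
    nlinarith
  · -- the top index
    obtain ⟨l, hl, htop⟩ : ∃ l, n l ≠ 0 ∧ ∀ i, l < i → n i = 0 := by
      have hs : n.support.Nonempty := Finsupp.support_nonempty_iff.mpr hn0
      refine ⟨n.support.max' hs, ?_, ?_⟩
      · exact Finsupp.mem_support_iff.mp (Finset.max'_mem _ hs)
      · intro i hi
        by_contra hne
        exact absurd (Finset.le_max' _ i (Finsupp.mem_support_iff.mpr hne)) (not_le.mpr hi)
    have hsub : n.support ⊆ Finset.range (l + 1) := by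
      intro i hi
      rw [Finset.mem_range]
      by_contra hlt
      exact Finsupp.mem_support_iff.mp hi (htop i (by omega))
    have e1 : n.sum (fun i k => p.b i * (k.toNat : ℝ)) =
        ∑ i ∈ Finset.range (l + 1), p.b i * ((n i).toNat : ℝ) :=
      Finsupp.sum_of_support_subset _ hsub _ (by simp)
    have e2 : n.sum (fun i k => p.b i * ((-k).toNat : ℝ)) =
        ∑ i ∈ Finset.range (l + 1), p.b i * ((-(n i)).toNat : ℝ) :=
      Finsupp.sum_of_support_subset _ hsub _ (by simp)
    have e3 : n.sum (fun i k => p.a i * (k : ℝ)) =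
        ∑ i ∈ Finset.range (l + 1), p.a i * ((n i : ℤ) : ℝ) :=
      Finsupp.sum_of_support_subset _ hsub _ (by simp)
    rw [e1, e2, e3]
    set P : ℝ := ∑ i ∈ Finset.range (l + 1), p.b i * ((n i).toNat : ℝ) with hP
    set Nn : ℝ := ∑ i ∈ Finset.range (l + 1), p.b i * ((-(n i)).toNat : ℝ) with hNn
    set Ap : ℝ := ∑ i ∈ Finset.range (l + 1), p.a i * ((n i).toNat : ℝ) with hAp
    set Am : ℝ := ∑ i ∈ Finset.range (l + 1), p.a i * ((-(n i)).toNat : ℝ) with hAm
    have hS : ∑ i ∈ Finset.range (l + 1), p.a i * ((n i : ℤ) : ℝ) = Ap - Am := by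
      rw [hAp, hAm, ← Finset.sum_sub_distrib]
      refine Finset.sum_congr rfl fun i _ => ?_
      rw [toNat_sub (n i)]
      ring
    rw [hS]
    have hP0 : 0 ≤ P := Finset.sum_nonneg fun i _ => mul_nonneg (hp.b_pos i).le (Nat.cast_nonneg _)
    have hAp0 : 0 ≤ Ap := Finset.sum_nonneg fun i _ => mul_nonneg (hp.a_pos i).le (Nat.cast_nonneg _)
    have hAm0 : 0 ≤ Am := Finset.sum_nonneg fun i _ => mul_nonneg (hp.a_pos i).le (Nat.cast_nonneg _)
    have hneg : ∀ i, ((-(n i)).toNat : ℝ) ≤ p.D i := by
      intro i
      have := hn i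
      have h : (-(n i)).toNat ≤ p.D i := by omega
      exact_mod_cast h
    have hAm1 : Am ≤ p.AA l := by
      rw [hAm]
      unfold Par.AA
      refine Finset.sum_le_sum fun i _ => ?_
      rw [mul_comm]
      exact mul_le_mul_of_nonneg_right (hneg i) (hp.a_pos i).le
    have hNn1 : Nn ≤ p.Q l := by
      rw [hNn]
      unfold Par.Q
      refine Finset.sum_le_sum fun i _ => ?_
      rw [mul_comm]
      exact mul_le_mul_of_nonneg_right (hneg i) (hp.b_pos i).le
    have htP : 8 * p.τ (l + 1) * Ap ≤ P := by
      rw [hAp, hP, Finset.mul_sum]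
      refine Finset.sum_le_sum fun i hi => ?_
      have hi' : i ≤ l := by have := Finset.mem_range.mp hi; omega
      have h3 : p.τ (l + 1) ≤ p.τ (i + 1) := hp.tau_anti (by omega)
      have h4 := hp.C2 i
      have h5 : 8 * p.τ (l + 1) * p.a i ≤ p.b i := by
        have := hp.a_pos i
        nlinarith
      calc 8 * p.τ (l + 1) * (p.a i * ((n i).toNat : ℝ))
          = (8 * p.τ (l + 1) * p.a i) * ((n i).toNat : ℝ) := by ring
        _ ≤ p.b i * ((n i).toNat : ℝ) := mul_le_mul_of_nonneg_right h5 (Nat.cast_nonneg _)
    set v : ℝ := u - (Ap - Am) with hv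
    have huv : |u| ≤ |v| + Ap + Am := by
      have h3 : u = v + Ap - Am := by rw [hv]; ring
      rw [h3]
      calc |v + Ap - Am| ≤ |v + Ap| + |Am| := abs_sub _ _
        _ ≤ |v| + |Ap| + |Am| := by linarith [abs_add_le v Ap]
        _ = |v| + Ap + Am := by rw [abs_of_nonneg hAp0, abs_of_nonneg hAm0]
    have hv0 := abs_nonneg v
    have hcj := c_nonneg hp j
    have hC3 := hp.C3 l
    by_cases hu : p.a l / 2 ≤ |u|
    · -- case (A)
      by_cases hj : l + 1 ≤ j
      · have h3 := h2 u l hu j
        have h4 := e_le_c hp j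
        have h5 : p.τ j ≤ p.τ (l + 1) := hp.tau_anti hj
        have h6 := tau_nn hp j
        have h7 : p.τ j * |u| ≤ p.τ j * |v| + p.τ j * Ap + p.τ j * Am := by
          nlinarith
        have h8 : p.τ j * Ap ≤ p.τ (l + 1) * Ap := mul_le_mul_of_nonneg_right h5 hAp0
        have h9 : p.τ j * Am ≤ p.τ (l + 1) * p.AA l :=
          mul_le_mul h5 hAm1 hAm0 (tau_nn hp _)
        have h10 := hp.e_nonneg (l + 1)
        have h11 := mul_nonneg h6 hv0
        nlinarith
      · have h3 := h2 u l hu (l + 1)
        have h5 : p.τ (l + 1) ≤ p.τ j := hp.tau_anti (by omega)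
        have h6 := tau_nn hp (l + 1)
        have h7 : p.τ (l + 1) * |u| ≤ p.τ (l + 1) * |v| + p.τ (l + 1) * Ap + p.τ (l + 1) * Am := by
          nlinarith
        have h8 : p.τ (l + 1) * |v| ≤ p.τ j * |v| := mul_le_mul_of_nonneg_right h5 hv0
        have h9 : p.τ (l + 1) * Am ≤ p.τ (l + 1) * p.AA l :=
          mul_le_mul_of_nonneg_left hAm1 h6
        have h11 := mul_nonneg (tau_nn hp j) hv0
        nlinarith
    · -- case (B)
      push Not at hu
      have hal := hp.a_pos l
      have htl := tau_nn hp l
      have hF : R u ≤ p.e l + p.τ l * (p.a l / 2) := by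
        have h3 := h1 u l
        have h4 : p.τ l * |u| ≤ p.τ l * (p.a l / 2) := mul_le_mul_of_nonneg_left hu.le htl
        linarith
      have hC1 := hp.C1 l
      have hFQ : R u ≤ p.τ l * p.a l - p.Q l := by linarith
      have hct : p.τ l * p.a l ≤ p.c j + p.τ j * p.a l := by
        by_cases hj : j ≤ l
        · have h5 : p.τ l ≤ p.τ j := hp.tau_anti hj
          nlinarith
        · obtain ⟨j', rfl⟩ : ∃ j', j = j' + 1 := ⟨j - 1, by omega⟩
          have h3 : p.a l ≤ p.a j' := a_mono hp (by omega)
          have h4 : p.τ l ≤ 1 / 16 := (hp.tau_anti (Nat.zero_le l)).trans hp.tau_zero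
          have h5 : 0 ≤ p.τ (j' + 1) * p.a l := mul_nonneg (tau_nn hp _) hal.le
          show p.τ l * p.a l ≤ p.a j' + p.τ (j' + 1) * p.a l
          nlinarith
      have hdone : p.a l / 4 ≤ |v| →
          R u ≤ 1 / 2 * P - Nn + p.c j + 4 * p.τ j * |v| := by
        intro h3
        have h4 : p.τ j * (p.a l / 4) ≤ p.τ j * |v| := mul_le_mul_of_nonneg_left h3 (tau_nn hp j)
        nlinarith
      rcases lt_or_gt_of_ne hl with hneg' | hpos'
      · -- n l < 0
        have hAml : p.a l ≤ Am := by
          rw [hAm]
          have h3 : p.a l * ((-(n l)).toNat : ℝ) ≤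
              ∑ i ∈ Finset.range (l + 1), p.a i * ((-(n i)).toNat : ℝ) :=
            Finset.single_le_sum (f := fun i => p.a i * ((-(n i)).toNat : ℝ))
              (fun i _ => mul_nonneg (hp.a_pos i).le (Nat.cast_nonneg _))
              (Finset.self_mem_range_succ l)
          have h4 : (1 : ℝ) ≤ ((-(n l)).toNat : ℝ) := by
            have : 1 ≤ (-(n l)).toNat := by omega
            exact_mod_cast this
          nlinarith
        by_cases hAp1 : Ap ≤ p.a l / 4
        · apply hdone
          have h3 : p.a l * (3 / 4) ≤ -(Ap - Am) := by linarith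
          have h4 : v = u + -(Ap - Am) := by rw [hv]; ring
          have h5 := neg_abs_le u
          have h6 := le_abs_self v
          linarith
        · push Not at hAp1
          -- here `8 τ_l Ap ≤ P`, since the top term of `Ap` is zero
          have hP8 : 8 * p.τ l * Ap ≤ P := by
            rw [hAp, hP, Finset.mul_sum]
            refine Finset.sum_le_sum fun i hi => ?_
            have hi' : i ≤ l := by have := Finset.mem_range.mp hi; omega
            rcases Nat.lt_or_eq_of_le hi' with hlt | heq
            · have h3 : p.τ l ≤ p.τ (i + 1) := hp.tau_anti (by omega)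
              have h4 := hp.C2 i
              have h5 : 8 * p.τ l * p.a i ≤ p.b i := by
                have := hp.a_pos i
                nlinarith
              calc 8 * p.τ l * (p.a i * ((n i).toNat : ℝ))
                  = (8 * p.τ l * p.a i) * ((n i).toNat : ℝ) := by ring
                _ ≤ p.b i * ((n i).toNat : ℝ) := mul_le_mul_of_nonneg_right h5 (Nat.cast_nonneg _)
            · subst heq
              have h3 : (n i).toNat = 0 := by omega
              simp [h3]
          have h4 : p.τ l * (p.a l / 4) ≤ p.τ l * Ap := mul_le_mul_of_nonneg_left hAp1.le htl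
          have h5 := mul_nonneg (tau_nn hp j) hv0
          nlinarith
      · -- n l > 0
        apply hdone
        have hApl : p.a l ≤ Ap := by
          rw [hAp]
          have h3 : p.a l * ((n l).toNat : ℝ) ≤
              ∑ i ∈ Finset.range (l + 1), p.a i * ((n i).toNat : ℝ) :=
            Finset.single_le_sum (f := fun i => p.a i * ((n i).toNat : ℝ))
              (fun i _ => mul_nonneg (hp.a_pos i).le (Nat.cast_nonneg _))
              (Finset.self_mem_range_succ l)
          have h4 : (1 : ℝ) ≤ ((n l).toNat : ℝ) := by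
            have : 1 ≤ (n l).toNat := by omega
            exact_mod_cast this
          nlinarith
        have hAm8 : Am ≤ p.a l / 8 := by
          rw [hAm, Finset.sum_range_succ]
          have h3 : (-(n l)).toNat = 0 := by omega
          rw [h3]
          simp only [Nat.cast_zero, mul_zero, add_zero]
          cases l with
          | zero => simp; linarith
          | succ l' =>
            have h4 := hp.C5 l'
            have h5 : ∑ i ∈ Finset.range (l' + 1), p.a i * ((-(n i)).toNat : ℝ) ≤ p.AA l' := by
              unfold Par.AA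
              refine Finset.sum_le_sum fun i _ => ?_
              rw [mul_comm]
              exact mul_le_mul_of_nonneg_right (hneg i) (hp.a_pos i).le
            linarith
        have h3 : v = u - (Ap - Am) := hv
        have h4 := le_abs_self u
        have h5 := neg_abs_le v
        linarith

end Pool.Agent.Helper53K9.WC

end
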