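import Pool.Agent.Helper53K9.WC.Defs

/-!
Leaf SUM: the coefficients `cc d` are summable over all finitely supported `d`, with sum `≤ 3/2`.
-/

open MeasureTheory Set Filter Topology

noncomputable section

namespace Pool.Agent.Helper53K9.WC

/-- one factor of `cc` -/
def gg (i : ℕ) (k : ℤ) : ℝ := if k = 0 then 1 else (1 / 8 : ℝ) ^ (i + 1) * (1 / 2) ^ k.natAbs

lemma gg_nonneg (i : ℕ) (k : ℤ) : 0 ≤ gg i k := by
  unfold gg
  split_ifs
  · norm_num
  · positivity

lemma cc_nonneg (d : ℕ →₀ ℤ) : 0 ≤ cc d :=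
  Finset.prod_nonneg fun i _ => by positivity

lemma cc_eq (d : ℕ →₀ ℤ) {n : ℕ} (hn : d.support ⊆ Finset.range n) :
    cc d = ∏ i : Fin n, gg i (d i) := by
  have h1 : ∏ i : Fin n, gg i (d i) = ∏ i ∈ Finset.range n, gg i (d i) :=
    Fin.prod_univ_eq_prod_range (fun i => gg i (d i)) n
  rw [h1]
  unfold cc Finsupp.prod
  rw [← Finset.prod_subset hn]
  · refine Finset.prod_congr rfl fun i hi => ?_
    rw [Finsupp.mem_support_iff] at hi
    simp [gg, hi]
  · intro i _ hi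
    rw [Finsupp.notMem_support_iff] at hi
    simp [gg, hi]

lemma sum_half (K : ℕ) :
    ∑ k ∈ Finset.Icc (-(K:ℤ)) K, (if k = 0 then (0:ℝ) else (1 / 2) ^ k.natAbs) =
      2 - 2 * (1 / 2) ^ K := by
  induction K with
  | zero => simp
  | succ K ih =>
    have h1 : Finset.Icc (-((K + 1 : ℕ):ℤ)) ((K + 1 : ℕ):ℤ) =
        insert (-((K + 1 : ℕ):ℤ)) (insert ((K + 1 : ℕ):ℤ) (Finset.Icc (-(K:ℤ)) K)) := by
      ext k
      simp only [Finset.mem_Icc, Finset.mem_insert]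
      push_cast
      omega
    rw [h1, Finset.sum_insert, Finset.sum_insert, ih]
    · have e1 : (-((K + 1 : ℕ):ℤ)) ≠ 0 := by push_cast; omega
      have e2 : ((K + 1 : ℕ):ℤ) ≠ 0 := by push_cast; omega
      have e3 : (-((K + 1 : ℕ):ℤ)).natAbs = K + 1 := by push_cast; omega
      have e4 : ((K + 1 : ℕ):ℤ).natAbs = K + 1 := by push_cast; omega
      rw [if_neg e1, if_neg e2, e3, e4, pow_succ]
      ring
    · simp only [Finset.mem_Icc]
      push_cast
      omega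
    · simp only [Finset.mem_Icc, Finset.mem_insert]
      push_cast
      omega

lemma sum_gg (i K : ℕ) :
    ∑ k ∈ Finset.Icc (-(K:ℤ)) K, gg i k ≤ 1 + 2 * (1 / 8 : ℝ) ^ (i + 1) := by
  have h1 : ∀ k : ℤ, gg i k = (if k = 0 then (1:ℝ) else 0) +
      (1 / 8 : ℝ) ^ (i + 1) * (if k = 0 then (0:ℝ) else (1 / 2) ^ k.natAbs) := by
    intro k
    unfold gg
    split_ifs <;> simp
  rw [Finset.sum_congr rfl fun k _ => h1 k, Finset.sum_add_distrib, ← Finset.mul_sum, sum_half]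
  have h2 : ∑ k ∈ Finset.Icc (-(K:ℤ)) K, (if k = 0 then (1:ℝ) else 0) = 1 := by
    rw [Finset.sum_ite_eq']
    simp
  rw [h2]
  have h3 : (0:ℝ) < (1 / 8) ^ (i + 1) := by positivity
  have h4 : (0:ℝ) < (1 / 2) ^ K := by positivity
  nlinarith [mul_pos h3 h4]

lemma prod_bound (n : ℕ) :
    ∏ i ∈ Finset.range n, (1 + 2 * (1 / 8 : ℝ) ^ (i + 1)) ≤ 3 / 2 * (1 - 1 / 3 * (1 / 8) ^ n) := by
  induction n with
  | zero => norm_num
  | succ n ih =>
    rw [Finset.prod_range_succ]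
    have h0 : (0:ℝ) < (1 / 8) ^ n := by positivity
    have h1 : (0:ℝ) ≤ 1 + 2 * (1 / 8 : ℝ) ^ (n + 1) := by positivity
    refine (mul_le_mul_of_nonneg_right ih h1).trans ?_
    rw [pow_succ]
    nlinarith [mul_pos h0 h0]

lemma sum_cc_le (S : Finset (ℕ →₀ ℤ)) : ∑ d ∈ S, cc d ≤ 3 / 2 := by
  classical
  obtain ⟨n, hn⟩ : ∃ n : ℕ, ∀ d ∈ S, d.support ⊆ Finset.range n := by
    refine ⟨(S.biUnion fun d => d.support).sup id + 1, fun d hd i hi => ?_⟩
    rw [Finset.mem_range, Nat.lt_succ_iff]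
    exact Finset.le_sup (f := id) (Finset.mem_biUnion.mpr ⟨d, hd, hi⟩)
  obtain ⟨K, hK⟩ : ∃ K : ℕ, ∀ d ∈ S, ∀ i, (d i).natAbs ≤ K := by
    refine ⟨(S.biUnion fun d => d.support.image fun i => (d i).natAbs).sup id,
      fun d hd i => ?_⟩
    by_cases h : i ∈ d.support
    · exact Finset.le_sup (f := id)
        (Finset.mem_biUnion.mpr ⟨d, hd, Finset.mem_image_of_mem _ h⟩)
    · rw [Finsupp.notMem_support_iff] at h
      simp [h]
  have h1 : ∑ d ∈ S, cc d = ∑ x ∈ S.image (fun d => fun i : Fin n => d i),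
      ∏ i : Fin n, gg i (x i) := by
    rw [Finset.sum_image]
    · exact Finset.sum_congr rfl fun d hd => cc_eq d (hn d hd)
    · intro d hd d' hd' hdd
      ext i
      by_cases hi : i < n
      · exact congrFun hdd ⟨i, hi⟩
      · have e1 : i ∉ d.support := fun h => hi (Finset.mem_range.mp (hn d hd h))
        have e2 : i ∉ d'.support := fun h => hi (Finset.mem_range.mp (hn d' hd' h))
        rw [Finsupp.notMem_support_iff] at e1 e2
        rw [e1, e2]
  have h2 : S.image (fun d => fun i : Fin n => d i) ⊆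
      Fintype.piFinset (fun _ : Fin n => Finset.Icc (-(K:ℤ)) K) := by
    intro x hx
    obtain ⟨d, hd, rfl⟩ := Finset.mem_image.mp hx
    rw [Fintype.mem_piFinset]
    intro i
    have := hK d hd i
    rw [Finset.mem_Icc]
    omega
  rw [h1]
  refine (Finset.sum_le_sum_of_subset_of_nonneg h2
    fun x _ _ => Finset.prod_nonneg fun i _ => gg_nonneg _ _).trans ?_
  rw [← Finset.prod_univ_sum]
  calc ∏ i : Fin n, ∑ j ∈ Finset.Icc (-(K:ℤ)) K, gg i j
      ≤ ∏ i : Fin n, (1 + 2 * (1 / 8 : ℝ) ^ ((i:ℕ) + 1)) :=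
        Finset.prod_le_prod (fun i _ => Finset.sum_nonneg fun j _ => gg_nonneg _ _)
          fun i _ => sum_gg i K
    _ = ∏ i ∈ Finset.range n, (1 + 2 * (1 / 8 : ℝ) ^ (i + 1)) :=
        Fin.prod_univ_eq_prod_range (fun i => (1 + 2 * (1 / 8 : ℝ) ^ (i + 1))) n
    _ ≤ 3 / 2 * (1 - 1 / 3 * (1 / 8) ^ n) := prod_bound n
    _ ≤ 3 / 2 := by
        have : (0:ℝ) < (1 / 8) ^ n := by positivity
        linarith

theorem sum : S_SUM := by
  have h : Summable cc := summable_of_sum_le cc_nonneg sum_cc_le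
  exact ⟨h, h.tsum_le_of_sum_le sum_cc_le⟩

end Pool.Agent.Helper53K9.WC

end
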