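import Pool.Agent.Helper53K9.WC.Defs

/-!
Leaf WT: the function `exp (pw t)` is a weight, with the basic bounds for the exponent.
-/

open MeasureTheory Set Filter Topology

noncomputable section

namespace Pool.Agent.Helper53K9.WC

namespace Par

variable {p : Par}

lemma Good.c_nonneg (h : p.Good) : ∀ j, 0 ≤ p.c j
  | 0 => le_rfl
  | (l + 1) => (h.a_pos l).le

lemma Good.pt_nonneg (h : p.Good) (t : ℝ) (q : (ℕ →₀ ℕ) × ℕ) : 0 ≤ p.pt t q := by
  have h1 : 0 ≤ q.1.sum (fun i m => p.b i * (m:ℝ)) :=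
    Finsupp.sum_nonneg fun i _ => mul_nonneg (h.b_pos i).le (Nat.cast_nonneg _)
  have h2 := h.c_nonneg q.2
  have h3 : 0 ≤ 4 * p.τ q.2 * |t - q.1.sum (fun i m => p.a i * (m:ℝ))| :=
    mul_nonneg (mul_nonneg (by norm_num) (h.tau_pos q.2).le) (abs_nonneg _)
  unfold Par.pt
  linarith

lemma Good.bdd (h : p.Good) (t : ℝ) : BddBelow (range (p.pt t)) :=
  ⟨0, by rintro _ ⟨q, rfl⟩; exact h.pt_nonneg t q⟩

lemma Good.pw_le (h : p.Good) (t : ℝ) (q : (ℕ →₀ ℕ) × ℕ) : p.pw t ≤ p.pt t q :=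
  ciInf_le (h.bdd t) q

lemma le_pw (p : Par) (t B : ℝ) (hB : ∀ q, B ≤ p.pt t q) : B ≤ p.pw t :=
  le_ciInf hB

lemma Good.pw_nonneg (h : p.Good) (t : ℝ) : 0 ≤ p.pw t :=
  p.le_pw t 0 (h.pt_nonneg t)

lemma Good.pw_le_zero (h : p.Good) (t : ℝ) (j : ℕ) : p.pw t ≤ p.c j + 4 * p.τ j * |t| := by
  have := h.pw_le t (0, j)
  simpa [Par.pt] using this

lemma Good.pw_le_quarter (h : p.Good) (r : ℝ) : p.pw r ≤ |r| / 4 := by
  have h1 := h.pw_le_zero r 0
  have h2 : p.c 0 = 0 := rfl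
  have h3 := mul_le_mul_of_nonneg_right h.tau_zero (abs_nonneg r)
  rw [h2] at h1
  linarith

lemma Good.pw_add_a (h : p.Good) (i : ℕ) (r : ℝ) : p.pw (p.a i + r) ≤ p.b i + |r| / 4 := by
  have h1 := h.pw_le (p.a i + r) (Finsupp.single i 1, 0)
  have h2 : p.c 0 = 0 := rfl
  have h3 := mul_le_mul_of_nonneg_right h.tau_zero (abs_nonneg r)
  simp only [Par.pt, Finsupp.sum_single_index, Nat.cast_zero, mul_zero, Nat.cast_one, mul_one,
    add_sub_cancel_left] at h1
  rw [h2] at h1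
  linarith

lemma Good.pt_add (h : p.Good) (t r : ℝ) (q q' : (ℕ →₀ ℕ) × ℕ) :
    p.pw (t + r) ≤ p.pt t q + p.pt r q' := by
  refine (h.pw_le (t + r) (q.1 + q'.1, max q.2 q'.2)).trans ?_
  unfold Par.pt
  simp only
  have hb : (q.1 + q'.1).sum (fun i m => p.b i * (m:ℝ)) =
      q.1.sum (fun i m => p.b i * (m:ℝ)) + q'.1.sum (fun i m => p.b i * (m:ℝ)) :=
    Finsupp.sum_add_index' (by intro a; simp) (by intro a b c; push_cast; ring)
  have ha : (q.1 + q'.1).sum (fun i m => p.a i * (m:ℝ)) =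
      q.1.sum (fun i m => p.a i * (m:ℝ)) + q'.1.sum (fun i m => p.a i * (m:ℝ)) :=
    Finsupp.sum_add_index' (by intro a; simp) (by intro a b c; push_cast; ring)
  rw [hb, ha]
  have hc : p.c (max q.2 q'.2) ≤ p.c q.2 + p.c q'.2 := by
    rcases max_choice q.2 q'.2 with h1 | h1 <;> rw [h1]
    · linarith [h.c_nonneg q'.2]
    · linarith [h.c_nonneg q.2]
  set A := q.1.sum (fun i m => p.a i * (m:ℝ))
  set A' := q'.1.sum (fun i m => p.a i * (m:ℝ))
  have h1 : p.τ (max q.2 q'.2) ≤ p.τ q.2 := h.tau_anti (le_max_left _ _)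
  have h2 : p.τ (max q.2 q'.2) ≤ p.τ q'.2 := h.tau_anti (le_max_right _ _)
  have h0 := h.tau_pos (max q.2 q'.2)
  have h3 : |t + r - (A + A')| ≤ |t - A| + |r - A'| := by
    have : t + r - (A + A') = (t - A) + (r - A') := by ring
    rw [this]
    exact abs_add_le _ _
  have h4 : 4 * p.τ (max q.2 q'.2) * |t + r - (A + A')| ≤
      4 * p.τ q.2 * |t - A| + 4 * p.τ q'.2 * |r - A'| := by
    have e1 := mul_le_mul_of_nonneg_left h3 (by linarith : (0:ℝ) ≤ 4 * p.τ (max q.2 q'.2))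
    have e2 := mul_le_mul_of_nonneg_right h1 (abs_nonneg (t - A))
    have e3 := mul_le_mul_of_nonneg_right h2 (abs_nonneg (r - A'))
    linarith
  linarith

lemma Good.pw_add (h : p.Good) (t r : ℝ) : p.pw (t + r) ≤ p.pw t + p.pw r := by
  have h1 : ∀ q, p.pw (t + r) - p.pw t ≤ p.pt r q := by
    intro q
    have h2 : p.pw (t + r) - p.pt r q ≤ p.pw t :=
      p.le_pw t _ fun q' => by linarith [h.pt_add t r q' q]
    linarith
  linarith [p.le_pw r _ h1]

lemma Good.pw_cont (h : p.Good) : Continuous p.pw := by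
  have key : LipschitzWith 1 p.pw := by
    refine LipschitzWith.of_le_add fun s t => ?_
    have h1 := h.pw_add t (s - t)
    have h2 := h.pw_le_quarter (s - t)
    rw [add_sub_cancel] at h1
    rw [Real.dist_eq]
    linarith [abs_nonneg (s - t)]
  exact key.continuous

lemma Good.pw_div_tendsto (h : p.Good) {F : Filter ℝ} (hF : Tendsto (fun t : ℝ => |t|) F atTop) :
    Tendsto (fun t => p.pw t / t) F (𝓝 0) := by
  rw [tendsto_zero_iff_abs_tendsto_zero]
  rw [Metric.tendsto_nhds]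
  intro ε hε
  have h1 : ∀ᶠ j in atTop, p.τ j < ε / 8 :=
    (h.tau_lim.eventually_lt_const (by linarith : (0:ℝ) < ε / 8))
  obtain ⟨j, hj⟩ := h1.exists
  have h2 : ∀ᶠ t in F, 2 * p.c j / ε + 1 ≤ |t| := hF.eventually_ge_atTop _
  filter_upwards [h2] with t ht
  have hc := h.c_nonneg j
  have ht0 : 0 < |t| := by
    have : 0 ≤ 2 * p.c j / ε := by positivity
    linarith
  have h3 := h.pw_le_zero t j
  have h4 := h.pw_nonneg t
  simp only [Function.comp_apply, Real.dist_eq, sub_zero, abs_abs]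
  rw [abs_div, abs_of_nonneg h4, div_lt_iff₀ ht0]
  have h5 : 2 * p.c j < ε * |t| := by
    have : 2 * p.c j / ε < |t| := by linarith
    rw [div_lt_iff₀ hε] at this
    linarith
  have h6 : 4 * p.τ j * |t| ≤ 4 * (ε / 8) * |t| := by
    have := mul_le_mul_of_nonneg_right hj.le ht0.le
    linarith
  linarith

end Par

theorem wt : S_WT := by
  intro p h
  refine ⟨⟨?_, ?_, ?_, ?_, ?_⟩, h.pw_le, p.le_pw, h.pw_nonneg, h.pw_le_quarter, h.pw_add_a,
    h.pw_add⟩
  · exact (Real.continuous_exp.comp h.pw_cont).measurable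
  · intro t
    exact Real.one_le_exp (h.pw_nonneg t)
  · intro t τ
    rw [← Real.exp_add]
    exact Real.exp_le_exp.mpr (h.pw_add t τ)
  · simp only [Real.log_exp]
    exact h.pw_div_tendsto tendsto_abs_atTop_atTop
  · simp only [Real.log_exp]
    exact h.pw_div_tendsto tendsto_abs_atBot_atTop

end Pool.Agent.Helper53K9.WC

end
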